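import Pool.Agent.H544R2.Prim
import Pool.Agent.NPC.Num

/-!
# The universal machine
-/

namespace Pool.Agent.H544R2

open Primrec Pool.Agent.NPC
open Nat.Partrec (Code)

/-! ### Strings and numbers -/

theorem valB_inj : ∀ {l l' : List Bool}, l.length = l'.length → valB l = valB l' → l = l'
  | [], [], _, _ => rfl
  | [], _ :: _, h, _ => by simp at h
  | _ :: _, [], h, _ => by simp at h
  | b :: l, b' :: l', h, h' => by
    simp only [List.length_cons, Nat.add_right_cancel_iff] at h
    simp only [valB_cons] at h'
    have hb : b = b' := by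
      cases b <;> cases b' <;> simp at h' ⊢ <;> omega
    subst hb
    rw [valB_inj h (by omega)]

/-- the string of length `L` with value `j` -/
def fb (L j : ℕ) : List Bool := (j.bits ++ List.replicate L false).take L

theorem valB_replicate (n : ℕ) : valB (List.replicate n false) = 0 := by
  induction n with
  | zero => rfl
  | succ n ih => rw [List.replicate_succ, valB_cons, ih]; simp

theorem fb_length (L j : ℕ) : (fb L j).length = L := by
  unfold fb
  rw [List.length_take, List.length_append, List.length_replicate]
  omega

theorem valB_fb {L j : ℕ} (h : j < 2 ^ L) : valB (fb L j) = j := by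
  have h1 : j.bits.length ≤ L := by
    rw [Nat.size_eq_bits_len]
    exact Nat.size_le.2 h
  unfold fb
  rw [List.take_append, List.take_of_length_le h1, valB_append, valB_bits]
  rw [List.take_replicate, valB_replicate]
  simp

theorem fb_valB (w : List Bool) : fb w.length (valB w) = w := by
  apply valB_inj
  · rw [fb_length]
  · exact valB_fb (valB_lt w)

theorem prim_valB : Primrec valB := by
  have h : Primrec (fun l : List Bool => l.foldr (fun b acc => b.toNat + 2 * acc) 0) := by
    refine Primrec.list_foldr (α := List Bool) (f := fun x => x) (g := fun _ => 0)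
      (h := fun x (p : Bool × ℕ) => p.1.toNat + 2 * p.2) Primrec.id (Primrec.const 0) ?_
    exact Primrec.nat_add.comp (prim_toNat.comp (fst.comp snd))
      (Primrec.nat_mul.comp (Primrec.const 2) (snd.comp snd))
  refine h.of_eq fun l => ?_
  induction l with
  | nil => rfl
  | cons b l ih =>
    rw [List.foldr_cons, ih, valB_cons]
    cases b <;> simp

/-! ### The reference machine -/

/-- `k` steps of the reference universal machine -/
def Vn (k : ℕ) (p : List Bool) : Option (List Bool) :=
  (Code.evaln k (Denumerable.ofNat Code (p.findIdx id))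
    (Encodable.encode (p.drop (p.findIdx id + 1)))).bind Encodable.decode

theorem Vn_mono {k k' : ℕ} (h : k ≤ k') {p x : List Bool} (hx : x ∈ Vn k p) : x ∈ Vn k' p := by
  unfold Vn at *
  rw [Option.mem_def, Option.bind_eq_some_iff] at *
  obtain ⟨n, h1, h2⟩ := hx
  exact ⟨n, Code.evaln_mono h h1, h2⟩

theorem Vn_unique {k k' : ℕ} {p x y : List Bool} (hx : x ∈ Vn k p) (hy : y ∈ Vn k' p) : x = y := by
  have h1 := Vn_mono (le_max_left k k') hx
  have h2 := Vn_mono (le_max_right k k') hy
  rw [Option.mem_def] at h1 h2
  rw [h1] at h2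
  exact Option.some.inj h2

theorem prim_Vn : Primrec (fun x : ℕ × List Bool => Vn x.1 x.2) := by
  unfold Vn
  have hf : Primrec (fun x : ℕ × List Bool => x.2.findIdx id) :=
    list_findIdx snd (Primrec.id.comp snd).to₂
  refine option_bind ?_ (Primrec.decode.comp snd).to₂
  refine Code.primrec_evaln.comp (Primrec.pair (Primrec.pair fst ?_) ?_)
  · exact (Primrec.ofNat Code).comp hf
  · exact Primrec.encode.comp (list_drop.comp (Primrec.succ.comp hf) snd)

theorem findIdx_code (e : ℕ) (p : List Bool) :
    (List.replicate e false ++ true :: p).findIdx id = e := by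
  induction e with
  | zero => simp [List.findIdx_cons]
  | succ e ih => rw [List.replicate_succ, List.cons_append, List.findIdx_cons, ih]; rfl

/-- Every partial computable function is run by the reference machine. -/
theorem Vn_universal {M : List Bool →. List Bool} (hM : Partrec M) :
    ∃ e : ℕ, ∀ p x, (x ∈ M p ↔ ∃ k, x ∈ Vn k (List.replicate e false ++ true :: p)) := by
  obtain ⟨c, hc⟩ := Code.exists_code.1 hM
  refine ⟨Encodable.encode c, fun p x => ?_⟩
  have h1 : (List.replicate (Encodable.encode c) false ++ true :: p).findIdx id =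
      Encodable.encode c := findIdx_code _ _
  have h2 : (List.replicate (Encodable.encode c) false ++ true :: p).drop
      (Encodable.encode c + 1) = p := by
    rw [List.drop_append]
    simp
  have h3 : ∀ n, n ∈ c.eval (Encodable.encode p) ↔ ∃ y ∈ M p, Encodable.encode y = n := by
    intro n
    rw [hc]
    simp
  constructor
  · intro hx
    obtain ⟨k, hk⟩ := Code.evaln_complete.1 ((h3 _).2 ⟨x, hx, rfl⟩)
    refine ⟨k, ?_⟩
    unfold Vn
    rw [h1, h2, Denumerable.ofNat_encode, Option.mem_def, Option.bind_eq_some_iff]
    exact ⟨_, hk, Encodable.encodek x⟩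
  · rintro ⟨k, hk⟩
    unfold Vn at hk
    rw [h1, h2, Denumerable.ofNat_encode, Option.mem_def, Option.bind_eq_some_iff] at hk
    obtain ⟨n, hn, hd⟩ := hk
    obtain ⟨y, hy, rfl⟩ := (h3 n).1 (Code.evaln_sound hn)
    rw [Encodable.encodek] at hd
    rw [← Option.some.inj hd]
    exact hy

/-! ### The enumerations -/

/-- the cell described by a string -/
def cellOf (x : List Bool) : ℕ × ℕ := (x.length - 2, valB (x.drop 2))

/-- the enumeration of the cells marked by short programs of the reference machine -/
def enA (n : ℕ) : Option (ℕ × ℕ) :=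
  (Encodable.decode n : Option (List Bool × ℕ)).bind fun x =>
    (Vn x.2 x.1).bind fun y =>
      if x.1.length + 66 < y.length ∧ y.take 2 = [false, false] then some (cellOf y) else none

/-- the self-delimiting code of strings -/
def code (x : List Bool) : List Bool := x.flatMap (fun b => [true, b]) ++ [false]

/-- the enumeration of the nodes: prefixes of codes of strings in the domain -/
def enT (n : ℕ) : Option (List Bool) :=
  (Encodable.decode n : Option (List Bool × ℕ × ℕ)).bind fun x =>
    if (Vn x.2.1 x.1).isSome = true then some ((code x.1).take x.2.2) else none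

theorem prim_code : Primrec code := by
  unfold code
  exact list_append.comp (list_flatMap Primrec.id (list_cons.comp (Primrec.const true)
    (list_cons.comp snd (Primrec.const []))).to₂) (Primrec.const [false])

theorem prim_enA : Primrec enA := by
  unfold enA
  refine option_bind Primrec.decode ?_
  refine option_bind (prim_Vn.comp (Primrec.pair (snd.comp snd) (fst.comp snd))) ?_
  refine Primrec.ite (PrimrecPred.and (Primrec.nat_lt.comp (Primrec.nat_add.comp
    (list_length.comp (fst.comp (snd.comp fst))) (Primrec.const 66)) (list_length.comp snd))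
    (Primrec.eq.comp (list_take.comp (Primrec.const 2) snd) (Primrec.const _))) ?_
    (Primrec.const none)
  exact option_some.comp (Primrec.pair (Primrec.nat_sub.comp (list_length.comp snd)
    (Primrec.const 2)) (prim_valB.comp (list_drop.comp (Primrec.const 2) snd)))

theorem prim_enT : Primrec enT := by
  unfold enT
  refine option_bind Primrec.decode ?_
  refine Primrec.ite (Primrec.eq.comp (option_isSome.comp (prim_Vn.comp (Primrec.pair
    (fst.comp (snd.comp snd)) (fst.comp snd)))) (Primrec.const true)) ?_ (Primrec.const none)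
  exact option_some.comp (list_take.comp (snd.comp (snd.comp snd)) (prim_code.comp (fst.comp snd)))

theorem enA_iff {L j : ℕ} : (∃ n, enA n = some (L, j)) ↔
    ∃ p k y, y ∈ Vn k p ∧ p.length + 66 < y.length ∧ y.take 2 = [false, false] ∧
      cellOf y = (L, j) := by
  constructor
  · rintro ⟨n, hn⟩
    unfold enA at hn
    rw [Option.bind_eq_some_iff] at hn
    obtain ⟨⟨p, k⟩, _, hn⟩ := hn
    rw [Option.bind_eq_some_iff] at hn
    obtain ⟨y, hy, hn⟩ := hn
    split_ifs at hn with hc
    exact ⟨p, k, y, hy, hc.1, hc.2, Option.some.inj hn⟩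
  · rintro ⟨p, k, y, hy, h1, h2, h3⟩
    refine ⟨Encodable.encode (p, k), ?_⟩
    unfold enA
    rw [Encodable.encodek, Option.bind_some]
    simp only
    rw [Option.mem_def] at hy
    rw [hy, Option.bind_some, if_pos ⟨h1, h2⟩, h3]

theorem card_short (n : ℕ) (F : Finset (List Bool)) (h : ∀ p ∈ F, p.length < n) :
    F.card ≤ 2 ^ n - 1 := by
  have h1 := Finset.card_le_card_of_injOn (s := F) (t := Finset.Icc 1 (2 ^ n - 1))
    (fun p => valB (p ++ [true])) (fun p hp => by
      have h2 := h p hp
      have h3 : valB (p ++ [true]) < 2 ^ (p ++ [true]).length := valB_lt _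
      have h4 : 2 ^ (p ++ [true]).length ≤ 2 ^ n := Nat.pow_le_pow_right (by norm_num) (by simpa)
      have h5 : 1 ≤ valB (p ++ [true]) := by
        rw [valB_append]
        have : 1 ≤ 2 ^ p.length := Nat.one_le_two_pow
        simp
        omega
      exact Finset.mem_coe.2 (Finset.mem_Icc.2 ⟨h5, by
        change valB (p ++ [true]) ≤ 2 ^ n - 1
        omega⟩)) (by
      intro p _ q _ hpq
      simp only at hpq
      rw [valB_append, valB_append] at hpq
      have hp := valB_lt p
      have hq := valB_lt q
      simp only [valB_cons, if_true, valB_nil, mul_zero, add_zero, mul_one] at hpq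
      have hl : p.length = q.length := by
        rcases lt_trichotomy p.length q.length with hc | hc | hc
        · exfalso
          have : 2 ^ (p.length + 1) ≤ 2 ^ q.length := Nat.pow_le_pow_right (by norm_num) hc
          rw [pow_succ] at this
          omega
        · exact hc
        · exfalso
          have : 2 ^ (q.length + 1) ≤ 2 ^ p.length := Nat.pow_le_pow_right (by norm_num) hc
          rw [pow_succ] at this
          omega
      rw [hl] at hpq
      exact valB_inj hl (by omega))
  rw [Nat.card_Icc] at h1
  omega

theorem few_enA : FewE enA := by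
  classical
  intro L F hF
  have h1 : ∀ j ∈ F, ∃ p k y, y ∈ Vn k p ∧ p.length + 66 < y.length ∧
      y.take 2 = [false, false] ∧ cellOf y = (L, j) := fun j hj => enA_iff.1 (hF j hj)
  choose! p k y hy1 hy2 hy3 hy4 using h1
  have hinj : Set.InjOn p (F : Set ℕ) := by
    intro j hj j' hj' hpp
    have h1 := hy1 j (Finset.mem_coe.1 hj)
    have h2 := hy1 j' (Finset.mem_coe.1 hj')
    rw [← hpp] at h2
    have h3 := Vn_unique h1 h2
    have h4 := hy4 j (Finset.mem_coe.1 hj)
    have h5 := hy4 j' (Finset.mem_coe.1 hj')
    rw [h3, h5] at h4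
    simpa using h4.symm
  have hlen : ∀ j ∈ F, (p j).length + 64 < L := by
    intro j hj
    have h1 := hy2 j hj
    have h2 := hy4 j hj
    unfold cellOf at h2
    simp only [Prod.mk.injEq] at h2
    omega
  rcases F.eq_empty_or_nonempty with h0 | ⟨j0, hj0⟩
  · rw [h0]; simp
  · have hL : 64 < L := by have := hlen j0 hj0; omega
    have h2 : F.card ≤ 2 ^ (L - 64) - 1 := by
      rw [← Finset.card_image_of_injOn hinj]
      refine card_short _ _ ?_
      intro q hq
      obtain ⟨j, hj, rfl⟩ := Finset.mem_image.1 hq
      have := hlen j hj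
      omega
    have h3 : 2 ^ L = 2 ^ (L - 64) * 2 ^ 64 := by
      rw [← pow_add]; congr 1; omega
    rw [h3]
    have h4 : 1 ≤ 2 ^ (L - 64) := Nat.one_le_two_pow
    exact Nat.mul_lt_mul_of_pos_right (by omega) (by positivity)

theorem enT_iff {v : List Bool} : (∃ n, enT n = some v) ↔
    ∃ z k m, (Vn k z).isSome = true ∧ v = (code z).take m := by
  constructor
  · rintro ⟨n, hn⟩
    unfold enT at hn
    rw [Option.bind_eq_some_iff] at hn
    obtain ⟨⟨z, k, m⟩, _, hn⟩ := hn
    split_ifs at hn with hc
    exact ⟨z, k, m, hc, (Option.some.inj hn).symm⟩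
  · rintro ⟨z, k, m, hk, hv⟩
    refine ⟨Encodable.encode (z, k, m), ?_⟩
    unfold enT
    rw [Encodable.encodek, Option.bind_some]
    simp only
    rw [if_pos hk, hv]

theorem enT_prefix (n : ℕ) (u : List Bool) (b : Bool) (h : enT n = some (u ++ [b])) :
    u = [] ∨ ∃ k, enT k = some u := by
  right
  obtain ⟨z, k, m, hk, hv⟩ := enT_iff.1 ⟨n, h⟩
  refine enT_iff.2 ⟨z, k, u.length, hk, ?_⟩
  have h2 := congrArg List.length hv
  rw [List.length_append, List.length_take, List.length_singleton] at h2
  calc u = (u ++ [b]).take u.length := by simp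
    _ = ((code z).take m).take u.length := by rw [hv]
    _ = (code z).take u.length := by rw [List.take_take, min_eq_left (by omega)]

theorem code_append_inj : ∀ (x y r s : List Bool), code x ++ r = code y ++ s → x = y ∧ r = s
  | [], [], r, s, h => by simpa [code] using h
  | [], _ :: _, r, s, h => by simp [code] at h
  | _ :: _, [], r, s, h => by simp [code] at h
  | b :: x, c :: y, r, s, h => by
    have h1 : ∀ (b : Bool) (x r : List Bool), code (b :: x) ++ r = true :: b :: (code x ++ r) := by
      intro b x r; simp [code]
    rw [h1, h1] at h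
    simp only [List.cons.injEq, true_and] at h
    obtain ⟨h2, h3⟩ := code_append_inj x y r s h.2
    exact ⟨by rw [h.1, h2], h3⟩

theorem enT_code {z : List Bool} : (∃ n, enT n = some (code z)) ↔ ∃ k x, x ∈ Vn k z := by
  rw [enT_iff]
  constructor
  · rintro ⟨z', k, m, hk, hv⟩
    have h1 : code z ++ (code z').drop m = code z' ++ [] := by
      rw [hv, List.take_append_drop, List.append_nil]
    obtain ⟨rfl, _⟩ := code_append_inj _ _ _ _ h1
    obtain ⟨x, hx⟩ := Option.isSome_iff_exists.1 hk
    exact ⟨k, x, hx⟩
  · rintro ⟨k, x, hx⟩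
    rw [Option.mem_def] at hx
    exact ⟨z, k, (code z).length, by rw [hx]; rfl, by rw [List.take_length]⟩

theorem code_ne_nil (z : List Bool) : code z ≠ [] := by simp [code]

/-! ### The machine -/

/-- the state of the strategy -/
def st (n : ℕ) : State := run enA enT n

theorem prim_st : Primrec st := prim_run prim_enA prim_enT

/-- the cell `(L, j)` is marked by stage `n` -/
def mkd (n L j : ℕ) : Prop := marked (st n).2.2.1 (st n).2.2.2 L j

instance (n L j : ℕ) : Decidable (mkd n L j) := by unfold mkd; infer_instance

/-- `k` steps of the machine -/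
def Un (k : ℕ) (p : List Bool) : Option (List Bool) :=
  if p.take 66 = List.replicate 66 true then Vn k (p.drop 66)
  else if p.take 1 = [false] ∧ mkd k (p.drop 1).length (valB (p.drop 1)) then
    some (false :: false :: p.drop 1)
  else none

theorem prim_Un : Primrec (fun x : ℕ × List Bool => Un x.1 x.2) := by
  unfold Un mkd
  have hd : Primrec (fun x : ℕ × List Bool => x.2.drop 1) := list_drop.comp (Primrec.const 1) snd
  have hs : Primrec (fun x : ℕ × List Bool => st x.1) := prim_st.comp fst
  refine Primrec.ite (Primrec.eq.comp (list_take.comp (Primrec.const 66) snd) (Primrec.const _))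
    (prim_Vn.comp (Primrec.pair fst (list_drop.comp (Primrec.const 66) snd))) ?_
  refine Primrec.ite (PrimrecPred.and (Primrec.eq.comp (list_take.comp (Primrec.const 1) snd)
    (Primrec.const _)) (prim_marked.comp (Primrec.pair (Primrec.pair
      (fst.comp (snd.comp (snd.comp hs))) (snd.comp (snd.comp (snd.comp hs))))
      (Primrec.pair (list_length.comp hd) (prim_valB.comp hd))))) ?_ (Primrec.const none)
  exact option_some.comp (list_cons.comp (Primrec.const false) (list_cons.comp
    (Primrec.const false) hd))

theorem mkd_mono {n n' L j : ℕ} (h : n ≤ n') (hm : mkd n L j) : mkd n' L j := by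
  rcases hm with ⟨w, h1, h2⟩ | ⟨w, h1, h2⟩
  · exact Or.inl ⟨w, wr_mono h w h1, h2⟩
  · exact Or.inr ⟨w, kl_mono h w h1, h2⟩

theorem Un_mono {k k' : ℕ} (h : k ≤ k') {p x : List Bool} (hx : x ∈ Un k p) : x ∈ Un k' p := by
  unfold Un at *
  by_cases h1 : p.take 66 = List.replicate 66 true
  · rw [if_pos h1] at hx ⊢
    exact Vn_mono h hx
  · rw [if_neg h1] at hx ⊢
    by_cases h2 : p.take 1 = [false] ∧ mkd k (p.drop 1).length (valB (p.drop 1))
    · rw [if_pos h2] at hx
      rw [if_pos ⟨h2.1, mkd_mono h h2.2⟩]
      exact hx
    · rw [if_neg h2] at hx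
      simp at hx

/-- the universal machine -/
def U : List Bool →. List Bool := fun p => Nat.rfindOpt (fun k => Un k p)

theorem partrec_U : Partrec U :=
  Partrec.rfindOpt ((prim_Un.comp (Primrec.pair snd fst)).to_comp.to₂)

theorem mem_U {p x : List Bool} : x ∈ U p ↔ ∃ k, x ∈ Un k p :=
  Nat.rfindOpt_mono fun hmn ha => Un_mono hmn ha

end Pool.Agent.H544R2
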