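import Pool.Agent.H544R2.Par

/-!
# Regions, spoiled blocks, and the volume of the allocated regions
-/

namespace Pool.Agent.H544R2

/-- lists of cells `(level, index)` -/
abbrev Cells := List (ℕ × ℕ)
/-- list of placements of nodes: node, level, start address -/
abbrev Alloc := List (List Bool × (ℕ × ℕ))

/-- A block of `n` cells is spoiled when at least one eighth of its cells belong to `A`. -/
def spoiled (A : Cells) (L base n : ℕ) : Prop :=
  n ≤ 8 * Nat.count (fun r => (L, base + r) ∈ A) n

instance (A : Cells) (L base n : ℕ) : Decidable (spoiled A L base n) := by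
  unfold spoiled; infer_instance

/-- A region is over-spoiled when more than half of its blocks are spoiled. -/
def spent (A : Cells) (L st d : ℕ) : Prop :=
  bR d < 2 * Nat.count (fun k => spoiled A L (st + k * bR d) (bR d)) (bR d)

instance (A : Cells) (L st d : ℕ) : Decidable (spent A L st d) := by
  unfold spent; infer_instance

/-- Total size of the regions placed at a level. -/
def vol (al : Alloc) (L : ℕ) : ℕ :=
  (al.map (fun e => if e.2.1 = L then rD e.1.length else 0)).sum

@[simp] theorem vol_nil (L : ℕ) : vol [] L = 0 := rfl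

theorem vol_cons (v : List Bool) (L st : ℕ) (al : Alloc) (L' : ℕ) :
    vol ((v, (L, st)) :: al) L' = (if L = L' then rD v.length else 0) + vol al L' := by
  simp [vol]

theorem vol_append (l1 l2 : Alloc) (L : ℕ) : vol (l1 ++ l2) L = vol l1 L + vol l2 L := by
  simp [vol]

theorem spoiled_mono {A A' : Cells} (h : ∀ c ∈ A, c ∈ A') {L base n : ℕ}
    (hs : spoiled A L base n) : spoiled A' L base n := by
  unfold spoiled at *
  refine hs.trans (Nat.mul_le_mul_left _ (Nat.count_mono_left fun k _ hk => h _ hk))

theorem spent_mono {A A' : Cells} (h : ∀ c ∈ A, c ∈ A') {L st d : ℕ}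
    (hs : spent A L st d) : spent A' L st d := by
  unfold spent at *
  refine hs.trans_le (Nat.mul_le_mul_left _ (Nat.count_mono_left fun k _ hk => spoiled_mono h hk))

theorem count_blocks (p : ℕ → Prop) [DecidablePred p] (m : ℕ) : ∀ n : ℕ,
    Nat.count p (n * m) = ∑ k ∈ Finset.range n, Nat.count (fun r => p (k * m + r)) m
  | 0 => by simp
  | n + 1 => by
    rw [Finset.sum_range_succ, ← count_blocks p m n, show (n + 1) * m = n * m + m by ring,
      Nat.count_add]

theorem spent_count {A : Cells} {L st d : ℕ} (h : spent A L st d) :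
    rD d < 16 * Nat.count (fun j => (L, st + j) ∈ A) (rD d) := by
  unfold spent at h
  unfold rD
  rw [count_blocks]
  have h1 : bR d * Nat.count (fun k => spoiled A L (st + k * bR d) (bR d)) (bR d) ≤
      8 * ∑ k ∈ Finset.range (bR d),
        Nat.count (fun r => (L, st + (k * bR d + r)) ∈ A) (bR d) := by
    rw [Nat.count_eq_card_filter_range, Finset.mul_sum, mul_comm, ← smul_eq_mul,
      ← Finset.sum_const, Finset.sum_filter]
    refine Finset.sum_le_sum fun k _ => ?_
    split_ifs with hk
    · unfold spoiled at hk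
      simpa [add_assoc] using hk
    · exact Nat.zero_le _
  have h2 : bR d * bR d < bR d * (2 *
      Nat.count (fun k => spoiled A L (st + k * bR d) (bR d)) (bR d)) :=
    Nat.mul_lt_mul_of_pos_left h (bR_pos d)
  calc bR d * bR d < 2 * (bR d * Nat.count (fun k => spoiled A L (st + k * bR d) (bR d)) (bR d)) := by
        rw [mul_left_comm]; exact h2
    _ ≤ 2 * (8 * ∑ k ∈ Finset.range (bR d),
        Nat.count (fun r => (L, st + (k * bR d + r)) ∈ A) (bR d)) := Nat.mul_le_mul_left _ h1
    _ = _ := by ring

/-- The invariants of the list of placements. -/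
structure AInv (A : Cells) (al : Alloc) : Prop where
  bump : ∀ l1 v L st l2, al = l1 ++ (v, (L, st)) :: l2 → st = vol l2 L
  dec : ∀ l1 v L st l2, al = l1 ++ (v, (L, st)) :: l2 → ∀ L' st', (v, (L', st')) ∈ l2 → L < L'
  mv : ∀ v L st, (v, (L, st)) ∈ al → L = top v.length ∨
    ∃ st', (v, (L + 1, st')) ∈ al ∧ spent A (L + 1) st' v.length
  le : ∀ v L st, (v, (L, st)) ∈ al → L ≤ top v.length

theorem AInv.mono {A A' : Cells} (h : ∀ c ∈ A, c ∈ A') {al : Alloc} (hi : AInv A al) :
    AInv A' al where
  bump := hi.bump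
  dec := hi.dec
  mv v L st hm := by
    rcases hi.mv v L st hm with h1 | ⟨st', h1, h2⟩
    · exact Or.inl h1
    · exact Or.inr ⟨st', h1, spent_mono h h2⟩
  le := hi.le

theorem AInv.cons {A : Cells} {al : Alloc} (hi : AInv A al) {v : List Bool} {L : ℕ}
    (hd : ∀ L' st', (v, (L', st')) ∈ al → L < L')
    (hm : L = top v.length ∨ ∃ st', (v, (L + 1, st')) ∈ al ∧ spent A (L + 1) st' v.length) :
    AInv A ((v, (L, vol al L)) :: al) where
  bump l1 w M st l2 h := by
    cases l1 with
    | nil =>
      simp only [List.nil_append, List.cons.injEq, Prod.mk.injEq] at h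
      obtain ⟨⟨_, rfl, rfl⟩, rfl⟩ := h
      rfl
    | cons x l1 =>
      simp only [List.cons_append, List.cons.injEq] at h
      exact hi.bump l1 w M st l2 h.2
  dec l1 w M st l2 h L' st' hw := by
    cases l1 with
    | nil =>
      simp only [List.nil_append, List.cons.injEq, Prod.mk.injEq] at h
      obtain ⟨⟨rfl, rfl, rfl⟩, rfl⟩ := h
      exact hd L' st' hw
    | cons x l1 =>
      simp only [List.cons_append, List.cons.injEq] at h
      exact hi.dec l1 w M st l2 h.2 L' st' hw
  mv w M st h := by
    rcases List.mem_cons.1 h with h | h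
    · simp only [Prod.mk.injEq] at h
      obtain ⟨rfl, rfl, rfl⟩ := h
      rcases hm with h1 | ⟨st', h1, h2⟩
      · exact Or.inl h1
      · exact Or.inr ⟨st', List.mem_cons_of_mem _ h1, h2⟩
    · rcases hi.mv w M st h with h1 | ⟨st', h1, h2⟩
      · exact Or.inl h1
      · exact Or.inr ⟨st', List.mem_cons_of_mem _ h1, h2⟩
  le w M st h := by
    rcases List.mem_cons.1 h with h | h
    · simp only [Prod.mk.injEq] at h
      obtain ⟨rfl, rfl, rfl⟩ := h
      rcases hm with h1 | ⟨st', h1, h2⟩
      · exact h1.le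
      · have := hi.le _ _ _ h1
        omega
    · exact hi.le w M st h

theorem lookup_mem {al : Alloc} {v : List Bool} {p : ℕ × ℕ} (h : al.lookup v = some p) :
    (v, p) ∈ al := by
  obtain ⟨l1, l2, h1, _⟩ := List.lookup_eq_some_iff.1 h
  rw [h1]; simp

theorem lookup_none {al : Alloc} {v : List Bool} (h : al.lookup v = none) (p : ℕ × ℕ) :
    (v, p) ∉ al := by
  intro hm
  have := List.lookup_eq_none_iff.1 h _ hm
  simp at this

theorem AInv.lookup_le {A : Cells} {al : Alloc} (hi : AInv A al) {v : List Bool} {L st : ℕ}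
    (h : al.lookup v = some (L, st)) {L' st' : ℕ} (hm : (v, (L', st')) ∈ al) :
    (L' = L ∧ st' = st) ∨ L < L' := by
  obtain ⟨l1, l2, h1, h2⟩ := List.lookup_eq_some_iff.1 h
  rw [h1] at hm
  rcases List.mem_append.1 hm with hm | hm
  · have := h2 _ hm
    simp at this
  · rcases List.mem_cons.1 hm with hm | hm
    · simp only [Prod.mk.injEq, true_and] at hm
      exact Or.inl hm
    · exact Or.inr (hi.dec l1 v L st l2 h1 L' st' hm)

/-- The placements of one node have distinct levels. -/
theorem AInv.uniq {A : Cells} {al : Alloc} (hi : AInv A al) {v : List Bool} {L st st' : ℕ}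
    (h : (v, (L, st)) ∈ al) (h' : (v, (L, st')) ∈ al) : st = st' := by
  obtain ⟨l1, l2, h1⟩ := List.append_of_mem h
  have hd := hi.dec l1 v L st l2 h1
  rw [h1] at h'
  rcases List.mem_append.1 h' with h' | h'
  · obtain ⟨m1, m2, h3⟩ := List.append_of_mem h'
    have := hi.dec m1 v L st' (m2 ++ (v, (L, st)) :: l2) (by rw [h1, h3]; simp) L st (by simp)
    omega
  · rcases List.mem_cons.1 h' with h' | h'
    · simp only [Prod.mk.injEq, true_and] at h'
      exact h'.symm
    · exact absurd (hd L st' h') (lt_irrefl _)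

/-- Two placements at the same level whose intervals meet are equal. -/
theorem AInv.disj {A : Cells} {al : Alloc} (hi : AInv A al) {v w : List Bool} {L st st' : ℕ}
    (h : (v, (L, st)) ∈ al) (h' : (w, (L, st')) ∈ al) {j : ℕ} (h1 : st ≤ j)
    (h2 : j < st + rD v.length) (h3 : st' ≤ j) (h4 : j < st' + rD w.length) :
    v = w ∧ st = st' := by
  obtain ⟨l1, l2, e⟩ := List.append_of_mem h
  have hb := hi.bump l1 v L st l2 e
  rw [e] at h'
  rcases List.mem_append.1 h' with h' | h'
  · obtain ⟨m1, m2, e'⟩ := List.append_of_mem h'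
    have hb' := hi.bump m1 w L st' (m2 ++ (v, (L, st)) :: l2) (by rw [e, e']; simp)
    rw [vol_append, vol_cons, if_pos rfl, ← hb] at hb'
    omega
  · rcases List.mem_cons.1 h' with h' | h'
    · simp only [Prod.mk.injEq, true_and] at h'
      exact ⟨h'.1.symm, h'.2.symm⟩
    · obtain ⟨m1, m2, e'⟩ := List.append_of_mem h'
      have hb' := hi.bump (l1 ++ (v, (L, st)) :: m1) w L st' m2 (by rw [e, e']; simp)
      rw [e', vol_append, vol_cons, if_pos rfl, ← hb'] at hb
      omega

theorem AInv.end_le {A : Cells} {al : Alloc} (hi : AInv A al) {v : List Bool} {L st : ℕ}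
    (h : (v, (L, st)) ∈ al) : st + rD v.length ≤ vol al L := by
  obtain ⟨l1, l2, e⟩ := List.append_of_mem h
  have hb := hi.bump l1 v L st l2 e
  rw [e, vol_append, vol_cons, if_pos rfl, ← hb]
  omega

theorem bump_tail {x : List Bool × (ℕ × ℕ)} {al : Alloc}
    (hb : ∀ l1 v L st l2, x :: al = l1 ++ (v, (L, st)) :: l2 → st = vol l2 L) :
    ∀ l1 v L st l2, al = l1 ++ (v, (L, st)) :: l2 → st = vol l2 L :=
  fun l1 v L st l2 h => hb (x :: l1) v L st l2 (by rw [h]; rfl)

/-- The regions of one level partition the initial segment of cells. -/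
theorem sum_count (p : ℕ → Prop) [DecidablePred p] (L : ℕ) : ∀ al : Alloc,
    (∀ l1 v M st l2, al = l1 ++ (v, (M, st)) :: l2 → st = vol l2 M) →
    (al.map (fun e => if e.2.1 = L then
      Nat.count (fun j => p (e.2.2 + j)) (rD e.1.length) else 0)).sum = Nat.count p (vol al L)
  | [], _ => by simp
  | (v, (M, st)) :: al, hb => by
    have ih := sum_count p L al (bump_tail hb)
    have hst := hb [] v M st al rfl
    rw [List.map_cons, List.sum_cons, ih, vol_cons]
    by_cases h : M = L
    · subst h
      simp only [if_true]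
      rw [hst, add_comm (rD v.length), Nat.count_add, add_comm]
    · simp [h]

theorem AInv.nodup {A : Cells} {al : Alloc} (hi : AInv A al) : al.Nodup := by
  rw [List.nodup_iff_sublist]
  intro x hx
  obtain ⟨v, L, st⟩ := x
  obtain ⟨l1, l2, e, h1⟩ : ∃ l1 l2, al = l1 ++ (v, (L, st)) :: l2 ∧ (v, (L, st)) ∈ l2 := by
    clear hi
    induction al with
    | nil => simp at hx
    | cons y al ih =>
      by_cases h : List.Sublist [(v, (L, st)), (v, (L, st))] al
      · obtain ⟨l1, l2, e, h1⟩ := ih h
        exact ⟨y :: l1, l2, by rw [e]; rfl, h1⟩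
      · rcases List.sublist_cons_iff.1 hx with h2 | ⟨r, h2, h3⟩
        · exact absurd h2 h
        · simp only [List.cons.injEq] at h2
          obtain ⟨rfl, rfl⟩ := h2
          exact ⟨[], al, rfl, List.singleton_sublist.1 h3⟩
  exact absurd (hi.dec l1 v L st l2 e L st h1) (lt_irrefl _)

/-- The hypothesis on the adversary: at level `L` it owns less than `2 ^ (L - 64)` cells. -/
def Few (A : Cells) : Prop :=
  ∀ L m, Nat.count (fun j => (L, j) ∈ A) m * 2 ^ 64 < 2 ^ L

/-- Level of the placements at level `L` whose node was created there. -/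
theorem card_length (d : ℕ) (F : Finset (List Bool)) (h : ∀ v ∈ F, v.length = d) :
    F.card ≤ 2 ^ d := by
  have h1 : F ⊆ (Finset.univ : Finset (Fin d → Bool)).image List.ofFn := by
    intro v hv
    have hl := h v hv
    subst hl
    exact Finset.mem_image.2 ⟨fun i => v.get i, Finset.mem_univ _, List.ofFn_get v⟩
  calc F.card ≤ _ := Finset.card_le_card h1
    _ ≤ (Finset.univ : Finset (Fin d → Bool)).card := Finset.card_image_le
    _ = 2 ^ d := by simp

theorem AInv.vol_le {A : Cells} {al : Alloc} (hi : AInv A al) (hA : Few A) (L : ℕ) :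
    2 * vol al L ≤ 2 ^ L := by
  classical
  -- the finite set of placements at a level
  let E : ℕ → Finset (List Bool × (ℕ × ℕ)) := fun M => al.toFinset.filter (fun e => e.2.1 = M)
  have hsum : ∀ f : List Bool × (ℕ × ℕ) → ℕ, ∀ M,
      (al.map (fun e => if e.2.1 = M then f e else 0)).sum = ∑ e ∈ E M, f e := by
    intro f M
    rw [← List.sum_toFinset _ hi.nodup, Finset.sum_filter]
  have hvol : vol al L = ∑ e ∈ E L, rD e.1.length := hsum (fun e => rD e.1.length) L
  let C := (E L).filter (fun e => L = top e.1.length)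
  let M := (E L).filter (fun e => ¬ L = top e.1.length)
  have hsplit : ∑ e ∈ E L, rD e.1.length = ∑ e ∈ C, rD e.1.length + ∑ e ∈ M, rD e.1.length :=
    (Finset.sum_filter_add_sum_filter_not _ _ _).symm
  -- created regions
  have hC : 4 * ∑ e ∈ C, rD e.1.length ≤ 2 ^ L := by
    rcases C.eq_empty_or_nonempty with h0 | ⟨e0, he0⟩
    · rw [h0]; simp
    · have htop : ∀ e ∈ C, e.1.length = e0.1.length := by
        intro e he
        have h1 := (Finset.mem_filter.1 he).2
        have h2 := (Finset.mem_filter.1 he0).2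
        unfold top at h1 h2
        omega
      have hcard : C.card ≤ 2 ^ e0.1.length := by
        have hinj : Set.InjOn Prod.fst (C : Set (List Bool × (ℕ × ℕ))) := by
          intro x hx y hy hxy
          have hx' := Finset.mem_coe.1 hx
          have hy' := Finset.mem_coe.1 hy
          have hx1 := Finset.mem_filter.1 (Finset.mem_filter.1 hx').1
          have hy1 := Finset.mem_filter.1 (Finset.mem_filter.1 hy').1
          obtain ⟨v, K, st⟩ := x
          obtain ⟨w, K', st'⟩ := y
          simp only at hxy hx1 hy1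
          obtain ⟨hx1, rfl⟩ := hx1
          obtain ⟨hy1, rfl⟩ := hy1
          subst hxy
          rw [List.mem_toFinset] at hx1 hy1
          rw [hi.uniq hx1 hy1]
        rw [← Finset.card_image_of_injOn hinj]
        refine card_length _ _ ?_
        intro v hv
        obtain ⟨e, he, rfl⟩ := Finset.mem_image.1 hv
        exact htop e he
      have hs : ∑ e ∈ C, rD e.1.length ≤ 2 ^ e0.1.length * rD e0.1.length := by
        calc ∑ e ∈ C, rD e.1.length = ∑ e ∈ C, rD e0.1.length :=
              Finset.sum_congr rfl fun e he => by rw [htop e he]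
          _ = C.card * rD e0.1.length := by rw [Finset.sum_const, smul_eq_mul]
          _ ≤ _ := Nat.mul_le_mul_right _ hcard
      have hL : L = top e0.1.length := (Finset.mem_filter.1 he0).2
      calc 4 * ∑ e ∈ C, rD e.1.length ≤ 4 * (2 ^ e0.1.length * rD e0.1.length) :=
            Nat.mul_le_mul_left _ hs
        _ ≤ 2 ^ top e0.1.length := four_pow_rD_le _
        _ = 2 ^ L := by rw [← hL]
  -- moved regions
  have hM : 4 * ∑ e ∈ M, rD e.1.length ≤ 2 ^ L := by
    have hex : ∀ e ∈ M, ∃ st', (e.1, (L + 1, st')) ∈ al ∧ spent A (L + 1) st' e.1.length := by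
      intro e he
      obtain ⟨he1, he2⟩ := Finset.mem_filter.1 he
      obtain ⟨he3, he4⟩ := Finset.mem_filter.1 he1
      obtain ⟨v, K, st⟩ := e
      simp only at he4
      subst he4
      rcases hi.mv v K st (List.mem_toFinset.1 he3) with h | h
      · exact absurd h he2
      · exact h
    choose! g hg1 hg2 using hex
    let G : List Bool × (ℕ × ℕ) → List Bool × (ℕ × ℕ) := fun e => (e.1, (L + 1, g e))
    have hGinj : Set.InjOn G (M : Set (List Bool × (ℕ × ℕ))) := by
      intro x hx y hy hxy
      have hx1 := Finset.mem_filter.1 (Finset.mem_filter.1 (Finset.mem_coe.1 hx)).1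
      have hy1 := Finset.mem_filter.1 (Finset.mem_filter.1 (Finset.mem_coe.1 hy)).1
      obtain ⟨v, K, st⟩ := x
      obtain ⟨w, K', st'⟩ := y
      simp only [G, Prod.mk.injEq] at hxy hx1 hy1
      obtain ⟨hx1, rfl⟩ := hx1
      obtain ⟨hy1, rfl⟩ := hy1
      obtain ⟨rfl, _⟩ := hxy
      rw [List.mem_toFinset] at hx1 hy1
      rw [hi.uniq hx1 hy1]
    have hsub : M.image G ⊆ E (L + 1) := by
      intro x hx
      obtain ⟨e, he, rfl⟩ := Finset.mem_image.1 hx
      refine Finset.mem_filter.2 ⟨List.mem_toFinset.2 (hg1 e he), rfl⟩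
    have h1 : ∑ e ∈ M, rD e.1.length ≤
        16 * Nat.count (fun j => (L + 1, j) ∈ A) (vol al (L + 1)) := by
      calc ∑ e ∈ M, rD e.1.length
          ≤ ∑ e ∈ M, 16 * Nat.count (fun j => (L + 1, (G e).2.2 + j) ∈ A) (rD (G e).1.length) :=
            Finset.sum_le_sum fun e he => (spent_count (hg2 e he)).le
        _ = ∑ e ∈ M.image G, 16 * Nat.count (fun j => (L + 1, e.2.2 + j) ∈ A) (rD e.1.length) :=
            (Finset.sum_image (f := fun e : List Bool × (ℕ × ℕ) =>
              16 * Nat.count (fun j => (L + 1, e.2.2 + j) ∈ A) (rD e.1.length)) hGinj).symm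
        _ ≤ ∑ e ∈ E (L + 1), 16 * Nat.count (fun j => (L + 1, e.2.2 + j) ∈ A) (rD e.1.length) :=
            Finset.sum_le_sum_of_subset hsub
        _ = 16 * Nat.count (fun j => (L + 1, j) ∈ A) (vol al (L + 1)) := by
            rw [← Finset.mul_sum, ← hsum (fun e => Nat.count (fun j => (L + 1, e.2.2 + j) ∈ A)
              (rD e.1.length)) (L + 1), sum_count (fun j => (L + 1, j) ∈ A) (L + 1) al hi.bump]
    have h2 := hA (L + 1) (vol al (L + 1))
    rw [pow_succ 2 L] at h2
    have h3 : (2 : ℕ) ^ 64 = 2 ^ 57 * 128 := by norm_num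
    rw [h3] at h2
    have h4 : 1 ≤ (2 : ℕ) ^ 57 := Nat.one_le_two_pow
    have h5 : Nat.count (fun j => (L + 1, j) ∈ A) (vol al (L + 1)) * 128 ≤
        Nat.count (fun j => (L + 1, j) ∈ A) (vol al (L + 1)) * (2 ^ 57 * 128) := by
      refine Nat.mul_le_mul_left _ ?_
      omega
    omega
  rw [hvol, hsplit]
  omega

end Pool.Agent.H544R2
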