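import Mathlib

/-!
# Universal machines, random strings and polynomial time relative to an oracle
-/

namespace Pool.Agent.H544R2

open Turing

/-- A universal machine: a computable (not everywhere defined) function on strings such that for
every such function `M` there is a string `d` with `U (d p) = M p` for all `p`. -/
def IsUniversal (U : List Bool →. List Bool) : Prop :=
  Partrec U ∧ ∀ M : List Bool →. List Bool, Partrec M → ∃ d : List Bool, ∀ p, U (d ++ p) = M p

/-- Plain Kolmogorov complexity relative to `U`: the least length of a program of `x`. -/
noncomputable def plainC (U : List Bool →. List Bool) (x : List Bool) : ℕ∞ :=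
  ⨅ (p : List Bool) (_ : x ∈ U p), (p.length : ℕ∞)

/-- The set of random strings: the strings `x` with `C_U(x) ≥ |x|`. -/
def randomStrings (U : List Bool →. List Bool) : Set (List Bool) :=
  {x | (x.length : ℕ∞) ≤ plainC U x}

/-- The pair of two strings: each bit of `u` is preceded by a `true`, then comes a `false`,
then `w`. -/
def pairStr (u w : List Bool) : List Bool := u.flatMap (fun b => [true, b]) ++ false :: w

/-- The halting problem: the pairs `⟨c, w⟩` such that the program `c` halts on `w`; the program
is given by the binary expansion of its number. -/
def HALT : Set (List Bool) :=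
  {x | ∃ (c : Nat.Partrec.Code) (w : List Bool),
    x = pairStr (Nat.bits (Encodable.encode c)) w ∧ (c.eval (Encodable.encode w)).Dom}

/-- Deterministic oracle Turing machines, in Mathlib's multi-stack model `Turing.TM2`: finitely
many binary stacks, finitely many labels and internal states; `ask l = some l'` means that `l` is
a query label, after which the machine goes on at `l'`. -/
structure OracleTM where
  /-- the stacks -/
  K : Type
  [decK : DecidableEq K]
  [finK : Fintype K]
  /-- the input stack -/
  input : K
  /-- the output stack -/
  output : K
  /-- the query stack -/
  query : K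
  /-- the labels -/
  Λ : Type
  [finΛ : Fintype Λ]
  /-- the initial label -/
  main : Λ
  /-- the internal states -/
  σ : Type
  [finσ : Fintype σ]
  /-- the initial internal state -/
  init : σ
  /-- the program -/
  prog : Λ → TM2.Stmt (fun _ : K => Bool) Λ σ
  /-- the query labels -/
  ask : Λ → Option Λ

attribute [instance] OracleTM.decK OracleTM.finK OracleTM.finΛ OracleTM.finσ

namespace OracleTM

/-- The configurations. -/
abbrev Cfg (M : OracleTM) : Type := TM2.Cfg (fun _ : M.K => Bool) M.Λ M.σ

open Classical in
/-- One step of the machine with oracle `A`. At a query label, the contents `q` of the query stack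
is replaced by the single bit that tells whether `q` is in `A`. At all other labels, the statement
of this label is executed. -/
noncomputable def step (M : OracleTM) (A : Set (List Bool)) : M.Cfg → Option M.Cfg
  | ⟨none, _, _⟩ => none
  | ⟨some l, v, S⟩ =>
    match M.ask l with
    | none => some (TM2.stepAux (M.prog l) v S)
    | some l' => some ⟨some l', v, Function.update S M.query [decide (S M.query ∈ A)]⟩

/-- `n` steps of the machine lead from `c` to `c'`. -/
def Reach (M : OracleTM) (A : Set (List Bool)) (n : ℕ) (c c' : M.Cfg) : Prop :=
  (fun o : Option M.Cfg => o.bind (M.step A))^[n] (some c) = some c'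

/-- The initial configuration on input `x`. -/
def start (M : OracleTM) (x : List Bool) : M.Cfg :=
  ⟨some M.main, M.init, Function.update (fun _ => []) M.input x⟩

open Classical in
/-- The machine, with oracle `A`, decides the language `L` in time `T`. -/
def DecidesIn (M : OracleTM) (A L : Set (List Bool)) (T : ℕ → ℕ) : Prop :=
  ∀ x, ∃ n ≤ T x.length, ∃ (v : M.σ) (S : M.K → List Bool),
    M.Reach A n (M.start x) ⟨none, v, S⟩ ∧ S M.output = [decide (x ∈ L)]

end OracleTM

/-- The class `P^A`. -/
def PRel (A : Set (List Bool)) : Set (Set (List Bool)) :=
  {L | ∃ (M : OracleTM) (p : Polynomial ℕ), M.DecidesIn A L (fun n => p.eval n)}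

end Pool.Agent.H544R2
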