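import Pool.Agent.H544R2.Limit

/-!
# Reading the trie
-/

namespace Pool.Agent.H544R2

/-- block `k` of the region with contents `f` is close to the codeword of the symbol `x` -/
def valid (d : ℕ) (f : ℕ → Bool) (k x : ℕ) : Bool :=
  decide (8 * Nat.count (fun r => f (k * bR d + r) ≠ ip (ex d) x r) (bR d) < bR d)

/-- some block of the region is close to the codeword of the symbol `x` -/
def pres (d : ℕ) (f : ℕ → Bool) (x : ℕ) : Bool := (List.range (bR d)).any (fun k => valid d f k x)

/-- the level of the child `b` according to the region with contents `f` -/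
def levOf (d : ℕ) (f : ℕ → Bool) (b : Bool) : Option ℕ :=
  (List.range (top (d + 1) + 1)).find? (fun l => pres d f (sym d b l l))

/-- the start address of the child `b` at level `l` according to the region -/
def ptr (d : ℕ) (f : ℕ → Bool) (b : Bool) (l : ℕ) : ℕ :=
  ∑ i ∈ Finset.range l, if pres d f (sym d b l i) then 2 ^ i else 0

/-- the walk down the trie along a path -/
def walk (m : ℕ → ℕ → Bool) : ℕ → ℕ → ℕ → List Bool → Bool
  | _, _, _, [] => true
  | d, L, st, b :: p =>
    match levOf d (fun j => m L (st + j)) b with
    | none => false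
    | some l => walk m (d + 1) l (ptr d (fun j => m L (st + j)) b l) p

section

variable {a : ℕ → Option (ℕ × ℕ)} {t : ℕ → Option (List Bool)}

theorem start_lt (hA : FewE a) {n : ℕ} {v : List Bool} {L st : ℕ} (h : (v, (L, st)) ∈ al a t n) :
    st + rD v.length ≤ 2 ^ L := by
  have h1 := (ainv hA n).end_le h
  have h2 := (ainv (t := t) hA n).vol_le (few_cA hA n) L
  omega

theorem valid_iff (hA : FewE a) {m : ℕ → ℕ → Bool}
    (hm : ∀ L j, j < 2 ^ L → (m L j = true ↔ Am a L j ∨ Um a t L j)) {u : List Bool} {L st : ℕ}
    (h : Fin a t u L st) {k x : ℕ} (hk : k < bR u.length) (hx : 0 < x)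
    (hx' : x < 2 ^ ex u.length) :
    valid u.length (fun j => m L (st + j)) k x = true ↔
      ¬ Sp a L (st + k * bR u.length) (bR u.length) ∧
        Wr a t L (st + k * bR u.length) (ex u.length) x := by
  classical
  set d := u.length with hd
  set R := bR d with hR
  have hR16 : 16 ≤ R := sixteen_le_bR d
  have hlt : ∀ r < R, st + k * R + r < 2 ^ L := by
    intro r hr
    obtain ⟨N, hN⟩ := h.mem
    have h1 : st + rD d ≤ 2 ^ L := start_lt hA (hN N le_rfl)
    have h2 : st + k * R + r < st + rD d := (cell_in (st := st) hk hr).2
    omega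
  unfold valid
  rw [decide_eq_true_iff]
  have hwt := ip_weight hx' hx
  change 2 * Nat.count (fun r => ip (ex d) x r = true) R = R at hwt
  set cnt := Nat.count (fun r => m L (st + (k * R + r)) ≠ ip (ex d) x r) R with hcnt
  by_cases hs : Sp a L (st + k * R) R
  · have e : cnt = Nat.count (fun r => ¬ (ip (ex d) x r = true)) R := by
      rw [hcnt, Nat.count_eq_card_filter_range, Nat.count_eq_card_filter_range]
      congr 1
      apply Finset.filter_congr
      intro r hr
      have h1 : m L (st + (k * R + r)) = true := by
        rw [← add_assoc]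
        exact (hm _ _ (hlt r (Finset.mem_range.1 hr))).2
          (Or.inr (Um_of_sp h hk hs (Finset.mem_range.1 hr)))
      rw [h1]
      cases ip (ex d) x r <;> simp
    have h2 := count_not (fun r => ip (ex d) x r = true) R
    rw [← e] at h2
    constructor
    · intro h3; omega
    · intro h3; exact absurd hs h3.1
  · have hAc : 8 * Nat.count (fun r => Am a L (st + k * R + r)) R < R := by
      unfold Sp at hs
      omega
    have hU := fun r (hr : r < R) => Um_iff hA h hk hs hr
    by_cases hw : ∃ y, Wr a t L (st + k * R) (ex d) y
    · obtain ⟨y, hy⟩ := hw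
      have hmr : ∀ r < R, (m L (st + (k * R + r)) = true ↔
          Am a L (st + k * R + r) ∨ ip (ex d) y r = true) := by
        intro r hr
        rw [← add_assoc, hm _ _ (hlt r hr), hU r hr]
        constructor
        · rintro (h1 | ⟨z, hz1, hz2⟩)
          · exact Or.inl h1
          · obtain ⟨_, rfl⟩ := hy.unique hA hz1
            exact Or.inr hz2
        · rintro (h1 | h1)
          · exact Or.inl h1
          · exact Or.inr ⟨y, hy, h1⟩
      by_cases hxy : x = y
      · subst hxy
        have h1 : cnt ≤ Nat.count (fun r => Am a L (st + k * R + r)) R := by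
          refine Nat.count_mono_left fun r hr hne => ?_
          by_contra hc
          apply hne
          have := hmr r hr
          cases h2 : ip (ex d) x r with
          | true => rw [h2] at this; simpa using this
          | false =>
            rw [h2] at this
            simp only [hc, Bool.false_eq_true, or_self, iff_false, Bool.not_eq_true] at this
            exact this
        constructor
        · intro _; exact ⟨hs, hy⟩
        · intro _; omega
      · -- different codeword
        have hy2 : y < 2 ^ ex d := by
          obtain ⟨n, hn⟩ := hy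
          obtain ⟨w, st', k', g1, g2, g3, g4, g5⟩ := (winv hA n).src _ _ _ _ hn
          obtain ⟨b, K, i, st3, t1, t2, rfl⟩ := g5
          have hK := (ainv hA n).le _ _ _ t1
          rw [List.length_append, List.length_singleton] at hK
          have hK' := level_lt hK
          rw [g4]
          exact sym_lt _ hK' (by omega)
        have h3 := ip_dist (ex d) x y hx' hy2 hxy
        change 2 * Nat.count (fun r => ip (ex d) x r ≠ ip (ex d) y r) R = R at h3
        have h4 : Nat.count (fun r => ip (ex d) x r ≠ ip (ex d) y r) R ≤
            cnt + Nat.count (fun r => Am a L (st + k * R + r)) R := by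
          rw [hcnt, Nat.count_eq_card_filter_range, Nat.count_eq_card_filter_range,
            Nat.count_eq_card_filter_range]
          refine (Finset.card_le_card ?_).trans (Finset.card_union_le _ _)
          intro r hr
          obtain ⟨hr1, hr2⟩ := Finset.mem_filter.1 hr
          rw [Finset.mem_union, Finset.mem_filter, Finset.mem_filter]
          by_cases hc : Am a L (st + k * R + r)
          · exact Or.inr ⟨hr1, hc⟩
          · left
            refine ⟨hr1, ?_⟩
            have := hmr r (Finset.mem_range.1 hr1)
            simp only [hc, false_or] at this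
            have h5 : m L (st + (k * R + r)) = ip (ex d) y r := Bool.eq_iff_iff.2 this
            rw [h5]
            exact fun h6 => hr2 h6.symm
        constructor
        · intro h5; omega
        · rintro ⟨_, h5⟩
          exact absurd (hy.unique hA h5).2.symm hxy
    · have hmr : ∀ r < R, (m L (st + (k * R + r)) = true ↔ Am a L (st + k * R + r)) := by
        intro r hr
        rw [← add_assoc, hm _ _ (hlt r hr), hU r hr]
        constructor
        · rintro (h1 | ⟨z, hz1, hz2⟩)
          · exact h1
          · exact absurd ⟨z, hz1⟩ hw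
        · exact Or.inl
      have h4 : Nat.count (fun r => ip (ex d) x r = true) R ≤
          cnt + Nat.count (fun r => Am a L (st + k * R + r)) R := by
        rw [hcnt, Nat.count_eq_card_filter_range, Nat.count_eq_card_filter_range,
          Nat.count_eq_card_filter_range]
        refine (Finset.card_le_card ?_).trans (Finset.card_union_le _ _)
        intro r hr
        obtain ⟨hr1, hr2⟩ := Finset.mem_filter.1 hr
        rw [Finset.mem_union, Finset.mem_filter, Finset.mem_filter]
        by_cases hc : Am a L (st + k * R + r)
        · exact Or.inr ⟨hr1, hc⟩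
        · left
          refine ⟨hr1, ?_⟩
          have := hmr r (Finset.mem_range.1 hr1)
          simp only [hc, iff_false, Bool.not_eq_true] at this
          rw [this, hr2]
          simp
      constructor
      · intro h5; omega
      · rintro ⟨_, h5⟩
        exact absurd ⟨x, h5⟩ hw

theorem pres_iff (hA : FewE a) {m : ℕ → ℕ → Bool}
    (hm : ∀ L j, j < 2 ^ L → (m L j = true ↔ Am a L j ∨ Um a t L j)) {u : List Bool} {L st : ℕ}
    (h : Fin a t u L st) {x : ℕ} (hx : 0 < x) (hx' : x < 2 ^ ex u.length) :
    pres u.length (fun j => m L (st + j)) x = true ↔ Held a t u.length L st x := by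
  unfold pres Held
  rw [List.any_eq_true]
  constructor
  · rintro ⟨k, hk, hv⟩
    have hk := List.mem_range.1 hk
    exact ⟨k, hk, (valid_iff hA hm h hk hx hx').1 hv⟩
  · rintro ⟨k, hk, hv⟩
    exact ⟨k, List.mem_range.2 hk, (valid_iff hA hm h hk hx hx').2 hv⟩

/-- If the child has a region then the piece `(b, l, i)` is present only as it should be. -/
theorem pres_sym_iff (hA : FewE a) {m : ℕ → ℕ → Bool}
    (hm : ∀ L j, j < 2 ^ L → (m L j = true ↔ Am a L j ∨ Um a t L j)) {u : List Bool} {b : Bool}
    {L st L' st' : ℕ} (h : Fin a t u L st) (h' : Fin a t (u ++ [b]) L' st') {i : ℕ}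
    (hi : i ≤ L') :
    pres u.length (fun j => m L (st + j)) (sym u.length b L' i) = true ↔
      (i = L' ∨ (i < L' ∧ st' / 2 ^ i % 2 = 1)) := by
  obtain ⟨N', hN'⟩ := h'.mem
  have hL' : L' < 2 ^ lam u.length := by
    have hK := (ainv hA N').le _ _ _ (hN' N' le_rfl)
    rw [List.length_append, List.length_singleton] at hK
    exact level_lt hK
  rw [pres_iff hA hm h (sym_pos _ _ _ _) (sym_lt _ hL' (by omega))]
  constructor
  · intro hh
    obtain ⟨n, b', K, i', st3, t1, t2, t3⟩ := hh.truth hA h
    have hK := (ainv hA n).le _ _ _ t1
    rw [List.length_append, List.length_singleton] at hK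
    obtain ⟨rfl, rfl, rfl⟩ := sym_inj hL' (level_lt hK) t3
    have := (ainv hA (max n N')).uniq (al_mono (le_max_left _ _) _ t1) (hN' _ (le_max_right _ _))
    rw [← this]
    exact t2
  · exact held_of_truth hA h h'

theorem pres_lower (hA : FewE a) {m : ℕ → ℕ → Bool}
    (hm : ∀ L j, j < 2 ^ L → (m L j = true ↔ Am a L j ∨ Um a t L j)) {u : List Bool} {b : Bool}
    {L st : ℕ} (h : Fin a t u L st) {l i : ℕ} (hl : l ≤ top (u.length + 1)) (hi : i ≤ l)
    (hp : pres u.length (fun j => m L (st + j)) (sym u.length b l i) = true) :
    ∃ n s, (u ++ [b], (l, s)) ∈ al a t n := by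
  have hl' := level_lt hl
  rw [pres_iff hA hm h (sym_pos _ _ _ _) (sym_lt _ hl' (by omega))] at hp
  obtain ⟨n, b', K, i', st3, t1, t2, t3⟩ := hp.truth hA h
  have hK := (ainv hA n).le _ _ _ t1
  rw [List.length_append, List.length_singleton] at hK
  obtain ⟨rfl, rfl, rfl⟩ := sym_inj hl' (level_lt hK) t3
  exact ⟨n, st3, t1⟩

theorem sum_bits (n x : ℕ) : ∑ i ∈ Finset.range n, (if x / 2 ^ i % 2 = 1 then 2 ^ i else 0) =
    x % 2 ^ n := by
  induction n with
  | zero => simp [Nat.mod_one]
  | succ n ih =>
    rw [Finset.sum_range_succ, ih, Nat.mod_pow_succ]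
    have : x / 2 ^ n % 2 = 0 ∨ x / 2 ^ n % 2 = 1 := by omega
    rcases this with h | h <;> simp [h]

/-- The parent's region tells the final placement of the child. -/
theorem decode_child (hA : FewE a) {m : ℕ → ℕ → Bool}
    (hm : ∀ L j, j < 2 ^ L → (m L j = true ↔ Am a L j ∨ Um a t L j)) {u : List Bool} {b : Bool}
    {L st L' st' : ℕ} (h : Fin a t u L st) (h' : Fin a t (u ++ [b]) L' st') :
    levOf u.length (fun j => m L (st + j)) b = some L' ∧
      ptr u.length (fun j => m L (st + j)) b L' = st' := by
  obtain ⟨N', hN'⟩ := h'.mem
  have hK := (ainv hA N').le _ _ _ (hN' N' le_rfl)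
  rw [List.length_append, List.length_singleton] at hK
  constructor
  · unfold levOf
    rw [List.find?_range_eq_some]
    refine ⟨(pres_sym_iff hA hm h h' le_rfl).2 (Or.inl rfl), List.mem_range.2 (by omega), ?_⟩
    intro l hl
    by_contra hc
    have hc' : pres u.length (fun j => m L (st + j)) (sym u.length b l l) = true := by
      simpa using hc
    obtain ⟨n, s, hn⟩ := pres_lower hA hm h (by omega) le_rfl hc'
    rcases h'.le hA hn with h1 | h1 <;> omega
  · unfold ptr
    have hst := start_lt hA (hN' N' le_rfl)
    have hpos := rD_pos (u ++ [b]).length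
    rw [← Nat.mod_eq_of_lt (a := st') (b := 2 ^ L') (by omega), ← sum_bits]
    refine Finset.sum_congr rfl fun i hi => ?_
    have hi := Finset.mem_range.1 hi
    have := pres_sym_iff hA hm h h' (i := i) (by omega)
    by_cases hb : st' / 2 ^ i % 2 = 1
    · rw [if_pos hb, if_pos (this.2 (Or.inr ⟨hi, hb⟩))]
    · rw [if_neg hb, if_neg]
      intro hc
      rcases this.1 hc with h1 | h1
      · omega
      · exact hb h1.2

theorem al_source {n : ℕ} {v : List Bool} {p : ℕ × ℕ} (h : (v, p) ∈ al a t n) :
    v = [] ∨ ∃ k, t k = some v := by
  induction n generalizing p with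
  | zero =>
    simp only [al, run, List.mem_singleton, Prod.mk.injEq] at h
    exact Or.inl h.1
  | succ n ih =>
    rw [al_succ] at h
    have key : ∀ q : ℕ × ℕ, (v, q) ∈ create (t n) (al a t n) → v = [] ∨ ∃ k, t k = some v := by
      intro q hq
      unfold create at hq
      cases ht : t n with
      | none => rw [ht] at hq; exact ih hq
      | some w =>
        rw [ht] at hq
        simp only at hq
        split_ifs at hq
        · exact ih hq
        · rcases List.mem_cons.1 hq with hq | hq
          · simp only [Prod.mk.injEq] at hq
            exact Or.inr ⟨n, by rw [ht, hq.1]⟩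
          · exact ih hq
    unfold move at h
    split at h
    · exact key _ h
    · rename_i q hq
      split_ifs at h
      · rcases List.mem_cons.1 h with h | h
        · simp only [Prod.mk.injEq] at h
          obtain ⟨rfl, _⟩ := h
          exact key _ (lookup_mem hq)
        · exact key _ h
      · exact key _ h

theorem al_of_t {n : ℕ} {v : List Bool} (h : t n = some v) : ∃ p, (v, p) ∈ al a t (n + 1) := by
  have : ∃ p, (v, p) ∈ create (t n) (al a t n) := by
    unfold create
    rw [h]
    simp only
    split_ifs with hc
    · obtain ⟨p, hp⟩ := Option.isSome_iff_exists.1 hc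
      exact ⟨p, lookup_mem hp⟩
    · exact ⟨_, List.mem_cons_self⟩
  obtain ⟨p, hp⟩ := this
  exact ⟨p, by rw [al_succ]; exact move_mem hp⟩

theorem root_fin (hA : FewE a) : Fin a t [] 64 0 := by
  have h0 : ([], (64, 0)) ∈ al a t 0 := by simp [al, run]
  have hall : ∀ n L st, ([], (L, st)) ∈ al a t n → L = 64 := by
    intro n L st h
    have h1 := (ainv hA n).le _ _ _ h
    have h2 : top ([] : List Bool).length = 64 := rfl
    rw [h2] at h1
    -- a root below level 64 would come from an over-spoiled region at a level at most 64
    rcases (ainv hA n).mv _ _ _ h with h3 | ⟨s, h3, h4⟩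
    · rw [h3, h2]
    · have := spent_level (few_cA hA n) h4
      omega
  refine ⟨0, fun n _ => ?_⟩
  have h1 : ([], (64, 0)) ∈ al a t n := al_mono (Nat.zero_le n) _ h0
  obtain ⟨⟨L, st⟩, hq⟩ := lookup_of_al h1
  have h2 := hall n L st (lookup_mem hq)
  subst h2
  rw [hq, (ainv hA n).uniq (lookup_mem hq) h1]

/-- The walk finds exactly the enumerated nodes. -/
theorem walk_iff (hA : FewE a) {m : ℕ → ℕ → Bool}
    (hm : ∀ L j, j < 2 ^ L → (m L j = true ↔ Am a L j ∨ Um a t L j))
    (hpre : ∀ n u b, t n = some (u ++ [b]) → u = [] ∨ ∃ k, t k = some u) :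
    ∀ (p u : List Bool) (L st : ℕ), Fin a t u L st →
      (walk m u.length L st p = true ↔ p = [] ∨ ∃ k, t k = some (u ++ p))
  | [], u, L, st, _ => by simp [walk]
  | b :: p, u, L, st, h => by
    have hfin : (∃ n q, (u ++ [b], q) ∈ al a t n) → ∃ L' st', Fin a t (u ++ [b]) L' st' := by
      rintro ⟨n, ⟨L', st'⟩, hq⟩
      exact exists_fin hA hq
    by_cases hc : ∃ n q, (u ++ [b], q) ∈ al a t n
    · obtain ⟨L', st', h'⟩ := hfin hc
      obtain ⟨h1, h2⟩ := decode_child hA hm h h'
      have ih := walk_iff hA hm hpre p (u ++ [b]) L' st' h'
      rw [List.length_append, List.length_singleton] at ih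
      simp only [walk, h1, h2]
      rw [ih]
      have hub : ∃ k, t k = some (u ++ [b]) := by
        obtain ⟨n, q, hq⟩ := hc
        rcases al_source hq with h3 | h3
        · simp at h3
        · exact h3
      constructor
      · rintro (rfl | h3)
        · exact Or.inr hub
        · right
          simpa using h3
      · rintro (h3 | h3)
        · simp at h3
        · right
          simpa using h3
    · have h1 : levOf u.length (fun j => m L (st + j)) b = none := by
        unfold levOf
        rw [List.find?_eq_none]
        intro l hl hp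
        have hl := List.mem_range.1 hl
        obtain ⟨n, s, hn⟩ := pres_lower hA hm h (by omega) le_rfl hp
        exact hc ⟨n, _, hn⟩
      simp only [walk, h1]
      constructor
      · intro h3; simp at h3
      · rintro (h3 | ⟨k, hk⟩)
        · simp at h3
        · exfalso
          -- all prefixes are enumerated
          have key : ∀ q : List Bool, (∃ k, t k = some (u ++ [b] ++ q)) →
              ∃ k, t k = some (u ++ [b]) := by
            intro q
            induction q using List.reverseRecOn with
            | nil => intro h4; simpa using h4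
            | append_singleton q c ih =>
              rintro ⟨k, hk⟩
              rw [← List.append_assoc] at hk
              rcases hpre k _ c hk with h5 | h5
              · simp at h5
              · exact ih h5
          obtain ⟨k', hk'⟩ := key p ⟨k, by rw [hk]; simp⟩
          obtain ⟨q, hq⟩ := al_of_t (a := a) hk'
          exact hc ⟨_, q, hq⟩

/-- The main combinatorial theorem. -/
theorem walk_root (hA : FewE a) {m : ℕ → ℕ → Bool}
    (hm : ∀ L j, j < 2 ^ L → (m L j = true ↔ Am a L j ∨ Um a t L j))
    (hpre : ∀ n u b, t n = some (u ++ [b]) → u = [] ∨ ∃ k, t k = some u) (p : List Bool) :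
    walk m 0 64 0 p = true ↔ p = [] ∨ ∃ k, t k = some p := by
  simpa using walk_iff hA hm hpre p [] 64 0 (root_fin hA)

end

end Pool.Agent.H544R2
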