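import Pool.Agent.H544R2.Univ
import Pool.Agent.H544R2.Walk
import Pool.Agent.H544R2.Defs

/-!
# The machine is universal, and its random strings encode the trie
-/

namespace Pool.Agent.H544R2

open Pool.Agent.NPC (valB)

theorem mem_randomStrings {V : List Bool →. List Bool} {x : List Bool} :
    x ∈ randomStrings V ↔ ∀ p, x ∈ V p → x.length ≤ p.length := by
  unfold randomStrings plainC
  simp [le_iInf_iff]

/-- the string of the cell `(L, j)` -/
def cellStr (L j : ℕ) : List Bool := false :: false :: fb L j

theorem cellStr_length (L j : ℕ) : (cellStr L j).length = L + 2 := by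
  simp [cellStr, fb_length]

theorem isUniversal_U : IsUniversal U := by
  refine ⟨partrec_U, fun M hM => ?_⟩
  obtain ⟨e, he⟩ := Vn_universal hM
  refine ⟨List.replicate 66 true ++ (List.replicate e false ++ [true]), fun p => ?_⟩
  apply Part.ext
  intro x
  rw [mem_U, he]
  have h1 : List.replicate 66 true ++ (List.replicate e false ++ [true]) ++ p =
      List.replicate 66 true ++ (List.replicate e false ++ true :: p) := by simp
  constructor
  · rintro ⟨k, hk⟩
    refine ⟨k, ?_⟩
    unfold Un at hk
    rw [h1, List.take_left' (by simp), if_pos rfl, List.drop_left' (by simp)] at hk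
    exact hk
  · rintro ⟨k, hk⟩
    refine ⟨k, ?_⟩
    unfold Un
    rw [h1, List.take_left' (by simp), if_pos rfl, List.drop_left' (by simp)]
    exact hk

theorem not_random_iff {L j : ℕ} (hj : j < 2 ^ L) :
    cellStr L j ∉ randomStrings U ↔ Am enA L j ∨ Um enA enT L j := by
  rw [mem_randomStrings]
  push Not
  constructor
  · rintro ⟨p, hp, hlen⟩
    rw [cellStr_length] at hlen
    obtain ⟨k, hk⟩ := mem_U.1 hp
    unfold Un at hk
    split_ifs at hk with h1 h2
    · left
      refine enA_iff.2 ⟨p.drop 66, k, cellStr L j, hk, ?_, rfl, ?_⟩
      · have h3 : 66 ≤ p.length := by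
          have := congrArg List.length h1
          rw [List.length_take, List.length_replicate] at this
          omega
        rw [List.length_drop, cellStr_length]
        omega
      · unfold cellOf
        rw [cellStr_length]
        simp [cellStr, valB_fb hj]
    · right
      rw [Option.mem_def, Option.some.injEq] at hk
      have h3 : p.drop 1 = fb L j := by simpa [cellStr] using hk
      have h4 := h2.2
      rw [h3, fb_length, valB_fb hj] at h4
      exact ⟨k, h4⟩
    · simp at hk
  · rintro (h | ⟨n, hn⟩)
    · obtain ⟨p, k, y, hy, h1, h2, h3⟩ := enA_iff.1 h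
      have hyc : y = cellStr L j := by
        unfold cellOf at h3
        simp only [Prod.mk.injEq] at h3
        have e : y = [false, false] ++ y.drop 2 := by
          conv_lhs => rw [← List.take_append_drop 2 y]
          rw [h2]
        rw [e, cellStr, ← h3.1, ← h3.2]
        have : y.length - 2 = (y.drop 2).length := by simp
        rw [this, fb_valB]
        rfl
      refine ⟨List.replicate 66 true ++ p, mem_U.2 ⟨k, ?_⟩, ?_⟩
      · unfold Un
        rw [List.take_left' (by simp), if_pos rfl, List.drop_left' (by simp), ← hyc]
        exact hy
      · rw [← hyc, List.length_append, List.length_replicate]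
        omega
    · refine ⟨false :: fb L j, mem_U.2 ⟨n, ?_⟩, ?_⟩
      · unfold Un
        rw [if_neg (by
          rw [List.take_succ_cons, List.replicate_succ]
          simp), if_pos ⟨by simp, by
            change mkd n (fb L j).length (valB (fb L j))
            rw [fb_length, valB_fb hj]
            exact hn⟩]
        rfl
      · rw [cellStr_length, List.length_cons, fb_length]
        omega

/-- the oracle read as a table of marks -/
noncomputable def marks (R : Set (List Bool)) (L j : ℕ) : Bool :=
  !(@decide (cellStr L j ∈ R) (Classical.propDecidable _))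

/-- The walk reads the domain of the reference machine off the random strings. -/
theorem walk_code (z : List Bool) :
    walk (marks (randomStrings U)) 0 64 0 (code z) = true ↔ ∃ k x, x ∈ Vn k z := by
  rw [walk_root (a := enA) (t := enT) few_enA (fun L j hj => by
    rw [← not_random_iff hj]
    simp [marks]) enT_prefix, enT_code]
  simp [code_ne_nil]

/-- Every recursively enumerable set is a slice of the domain of the reference machine. -/
theorem exists_slice {H : Set (List Bool)} (hH : REPred (· ∈ H)) :
    ∃ d : List Bool, ∀ x, (x ∈ H ↔ ∃ k y, y ∈ Vn k (d ++ x)) := by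
  have h1 : Partrec (fun x : List Bool => (Part.assert (x ∈ H) fun _ => Part.some ()).map
      (fun _ => ([] : List Bool))) := Partrec.map hH (Computable.const []).to₂
  obtain ⟨e, he⟩ := Vn_universal h1
  refine ⟨List.replicate e false ++ [true], fun x => ?_⟩
  have h2 : ∀ x : List Bool, x ∈ H ↔ ∃ y : List Bool, y ∈ (Part.assert (x ∈ H) fun _ =>
      Part.some ()).map (fun _ => ([] : List Bool)) := by
    intro x
    simp
  rw [h2 x]
  constructor
  · rintro ⟨y, hy⟩
    obtain ⟨k, hk⟩ := (he x y).1 hy
    exact ⟨k, y, by simpa using hk⟩
  · rintro ⟨k, y, hy⟩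
    exact ⟨y, (he x y).2 ⟨k, by simpa using hy⟩⟩

end Pool.Agent.H544R2
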