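import Pool.Agent.H544R2.Reader
import Pool.Agent.H544R2.Rand

/-!
# Every recursively enumerable set is in `P` relative to the random strings
-/

namespace Pool.Agent.H544R2

open Pool.Agent.NPC

theorem valid_congr {d : ℕ} {f g : ℕ → Bool} (h : ∀ j < rD d, f j = g j) {k : ℕ} (hk : k < bR d)
    (x : ℕ) : valid d f k x = valid d g k x := by
  have key : Nat.count (fun r => f (k * bR d + r) ≠ ip (ex d) x r) (bR d) =
      Nat.count (fun r => g (k * bR d + r) ≠ ip (ex d) x r) (bR d) := by
    have h1 : ∀ r < bR d, f (k * bR d + r) = g (k * bR d + r) := by
      intro r hr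
      apply h
      unfold rD
      calc k * bR d + r < k * bR d + bR d := by omega
        _ = (k + 1) * bR d := by ring
        _ ≤ bR d * bR d := Nat.mul_le_mul_right _ hk
    refine le_antisymm (Nat.count_mono_left fun r hr h2 => ?_)
      (Nat.count_mono_left fun r hr h2 => ?_)
    · rw [← h1 r hr]; exact h2
    · rw [h1 r hr]; exact h2
  unfold valid
  rw [key]

theorem pres_congr {d : ℕ} {f g : ℕ → Bool} (h : ∀ j < rD d, f j = g j) (x : ℕ) :
    pres d f x = pres d g x := by
  unfold pres
  rw [Bool.eq_iff_iff, List.any_eq_true, List.any_eq_true]
  constructor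
  · rintro ⟨k, hk, h1⟩
    exact ⟨k, hk, by rw [← valid_congr h (List.mem_range.1 hk)]; exact h1⟩
  · rintro ⟨k, hk, h1⟩
    exact ⟨k, hk, by rw [valid_congr h (List.mem_range.1 hk)]; exact h1⟩

theorem levOf_congr {d : ℕ} {f g : ℕ → Bool} (h : ∀ j < rD d, f j = g j) (b : Bool) :
    levOf d f b = levOf d g b := by
  unfold levOf
  congr 1
  funext l
  exact pres_congr h _

theorem ptr_congr {d : ℕ} {f g : ℕ → Bool} (h : ∀ j < rD d, f j = g j) (b : Bool) (l : ℕ) :
    ptr d f b l = ptr d g b l := by
  unfold ptr
  refine Finset.sum_congr rfl fun i _ => ?_
  rw [pres_congr h]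

theorem foldl_inr (ans y : List Bool) (p : List Bool) :
    p.foldl (rstep' ans) (Sum.inr y) = Sum.inr y := by
  induction p with
  | nil => rfl
  | cons b p ih => rw [List.foldl_cons]; exact ih

section

open Classical

/-- the answers of the oracle on the cells of a region -/
noncomputable def tab (R : Set (List Bool)) (d L a : ℕ) : List Bool :=
  (List.range (rD d)).map (fun j => decide (cellStr L (a + j) ∈ R))

theorem tab_length (R : Set (List Bool)) (d L a : ℕ) : (tab R d L a).length = rD d := by
  simp [tab]

theorem tab_take_succ (R : Set (List Bool)) (d L a k : ℕ) (hk : k < rD d) :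
    (tab R d L a).take (k + 1) = (tab R d L a).take k ++ [decide (cellStr L (a + k) ∈ R)] := by
  have h1 : k < (tab R d L a).length := by rwa [tab_length]
  rw [← List.take_append_getElem h1]
  simp [tab]

theorem tb_eq {R : Set (List Bool)} {d L a : ℕ} {pre ans : List Bool}
    (h : pre ++ tab R d L a <+: ans) {j : ℕ} (hj : j < rD d) :
    tb ans pre.length j = marks R L (a + j) := by
  obtain ⟨s, rfl⟩ := h
  unfold tb marks
  congr 1
  rw [List.getD_eq_getElem?_getD, List.append_assoc, List.getElem?_append_right (by omega),
    Nat.add_sub_cancel_left, List.getElem?_append_left (by rwa [tab_length])]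
  simp [tab, hj]

theorem rounds_aux {R : Set (List Bool)} {out : List Bool × List Bool → List Bool}
    {x : List Bool} : ∀ (p : List Bool) (D Ls : List Unit) (a : ℕ) (pre : List Bool) (K : ℕ),
    (∀ e < D.length + p.length, rD e ≤ K) →
    (∀ ans, pre <+: ans →
      out (x, ans) = rout (p.foldl (rstep' ans) (Sum.inl (D, Ls, a, pre.length)))) →
    ∃ N ≤ p.length * K, Rounds out R x pre N (walk (marks R) D.length Ls.length a p) := by
  intro p
  induction p with
  | nil =>
    intro D Ls a pre K _ hout
    refine ⟨0, by simp, Rounds.done ?_⟩
    rw [hout pre (List.prefix_refl _)]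
    simp [rout, walk]
  | cons b p ih =>
    intro D Ls a pre K hK hout
    set d := D.length with hd
    set L := Ls.length with hL
    set T := tab R d L a with hT
    have hTl : T.length = rD d := tab_length _ _ _ _
    have hd0 : rD D.length = rD d := rfl
    have hd1 : top (D.length + 1) = top (d + 1) := rfl
    -- the queries
    have hq : ∀ k < rD d, out (x, pre ++ T.take k) = true :: cellStr L (a + k) := by
      intro k hk
      rw [hout _ (List.prefix_append _ _), List.foldl_cons]
      have h1 : rstep' (pre ++ T.take k) (Sum.inl (D, Ls, a, pre.length)) b =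
          Sum.inr (rquery (pre ++ T.take k) (D, Ls, a, pre.length)) := by
        unfold rstep'
        simp only
        unfold rstep
        rw [if_pos]
        simp only [List.length_append, List.length_take, hTl]
        omega
      rw [h1, foldl_inr]
      unfold rout rquery cellStr
      simp only [List.length_append, List.length_take, hTl]
      rw [Nat.add_sub_cancel_left, min_eq_left hk.le]
    have hback : ∀ (i : ℕ), i ≤ rD d → ∀ N c, Rounds out R x (pre ++ T) N c →
        Rounds out R x (pre ++ T.take (rD d - i)) (N + i) c := by
      intro i
      induction i with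
      | zero =>
        intro _ N c h
        rw [Nat.sub_zero, List.take_of_length_le (by omega)]
        exact h
      | succ i ihi =>
        intro hi N c h
        have h1 := ihi (by omega) N c h
        have h2 : rD d - i = (rD d - (i + 1)) + 1 := by omega
        rw [h2, hT, tab_take_succ R d L a _ (by omega), ← hT, ← List.append_assoc] at h1
        exact Rounds.more (hq _ (by omega)) h1
    have hall : ∀ N c, Rounds out R x (pre ++ T) N c → Rounds out R x pre (N + rD d) c := by
      intro N c h
      have h1 := hback (rD d) le_rfl N c h
      simpa using h1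
    have hrd : rD d ≤ K := hK d (by simp [hd])
    -- after the queries
    have hstep : ∀ ans, pre ++ T <+: ans → rstep' ans (Sum.inl (D, Ls, a, pre.length)) b =
        match levOf d (fun j => marks R L (a + j)) b with
        | none => Sum.inr [false, false]
        | some l => Sum.inl (() :: D, List.replicate l (),
            ptr d (fun j => marks R L (a + j)) b l, (pre ++ T).length) := by
      intro ans hans
      have hlen := hans.length_le
      rw [List.length_append, hTl] at hlen
      unfold rstep'
      simp only
      unfold rstep
      have hcg : ∀ j < rD d, tb ans pre.length j = marks R L (a + j) := fun j hj => tb_eq hans hj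
      rw [if_neg (by simp only; omega)]
      simp only
      rw [levOf_congr hcg b]
      cases hlv : levOf D.length (fun j => marks R L (a + j)) b with
      | none => rfl
      | some l =>
        have hl : l ≤ top (d + 1) := by
          unfold levOf at hlv
          have := List.mem_of_find?_eq_some hlv
          rw [List.mem_range] at this
          omega
        simp only [rnext]
        rw [min_eq_left hl, ptr_congr hcg b l, List.length_append, hTl]
    cases hlv : levOf d (fun j => marks R L (a + j)) b with
    | none =>
      refine ⟨0 + rD d, ?_, hall _ _ (Rounds.done ?_)⟩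
      · rw [zero_add, List.length_cons]
        nlinarith
      · rw [hout _ (List.prefix_append _ _), List.foldl_cons, hstep _ (List.prefix_refl _), hlv]
        simp only [foldl_inr, rout, walk, hlv]
    | some l =>
      obtain ⟨N, hN, hr⟩ := ih (() :: D) (List.replicate l ())
        (ptr d (fun j => marks R L (a + j)) b l) (pre ++ T) K (by
          intro e he
          apply hK
          simp only [List.length_cons] at he ⊢
          omega) (by
          intro ans hans
          rw [hout ans ((List.prefix_append _ _).trans hans), List.foldl_cons, hstep ans hans,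
            hlv])
      refine ⟨N + rD d, ?_, hall _ _ ?_⟩
      · rw [List.length_cons, add_mul, one_mul]
        omega
      · rw [List.length_cons, List.length_replicate] at hr
        have e : walk (marks R) d L a (b :: p) = walk (marks R) (d + 1) l
            (ptr d (fun j => marks R L (a + j)) b l) p := by
          simp only [walk, hlv]
        rw [e]
        exact hr

end

theorem rD_le {e n : ℕ} (h : e ≤ n) : rD e ≤ (bPol.eval n) ^ 2 := by
  have h1 : bR e ≤ bPol.eval n := (bR_le e).trans (eval_mono bPol h)
  unfold rD
  rw [sq]
  exact Nat.mul_le_mul h1 h1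

theorem code_length (x : List Bool) : (code x).length = 2 * x.length + 1 := by
  unfold code
  rw [List.length_append]
  have : (x.flatMap fun b => [true, b]).length = 2 * x.length := by
    induction x with
    | nil => rfl
    | cons b x ih => rw [List.flatMap_cons, List.length_append, ih]; simp; omega
  rw [this]
  rfl

/-- Every recursively enumerable set is in `P` relative to the random strings. -/
theorem re_mem_PRel {H : Set (List Bool)} (hH : REPred (· ∈ H)) :
    H ∈ PRel (randomStrings U) := by
  classical
  obtain ⟨d, hd⟩ := exists_slice hH
  let out : List Bool × List Bool → List Bool := fun q => reader (code (d ++ q.1)) q.2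
  have hout : PC (bits : List Bool × List Bool → List Bool) (fun y : List Bool => y) out := by
    have h1 : NPC.Poly (fun q : List Bool × List Bool => code (d ++ q.1)) :=
      NPC.Poly.append (NPC.Poly.flatMap (F := fun _ b => [true, b])
        (NPC.Poly.append (NPC.Poly.const d) (NPC.Poly.fst NPC.Poly.id))
        (NPC.Poly.cons (NPC.Poly.const true) (NPC.Poly.cons (NPC.Poly.snd NPC.Poly.id)
          (NPC.Poly.const [])))) (NPC.Poly.const [false])
    have h2 : NPC.Poly out := NPC.Poly.h_reader h1 (NPC.Poly.snd NPC.Poly.id)
    exact PC.comp (eb := bits) (g := fun y : List Bool => y) PC.toRaw h2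
  let n : Polynomial ℕ := Polynomial.C 2 * (Polynomial.C d.length + Polynomial.X) +
    Polynomial.C 1
  refine mem_PRel hout (n * (bPol.comp n) ^ 2) fun x => ?_
  have hn : (code (d ++ x)).length = n.eval x.length := by
    rw [code_length, List.length_append]
    simp [n]
  obtain ⟨N, hN, hr⟩ := rounds_aux (R := randomStrings U) (out := out) (x := x)
    (code (d ++ x)) [] (List.replicate 64 ()) 0 [] ((bPol.eval (n.eval x.length)) ^ 2)
    (fun e he => rD_le (by
      rw [List.length_nil, zero_add, hn] at he
      exact he.le)) (fun ans _ => rfl)
  refine ⟨N, ?_, ?_⟩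
  · rw [hn] at hN
    simpa using hN
  · have e : walk (marks (randomStrings U)) 0 64 0 (code (d ++ x)) = decide (x ∈ H) := by
      rw [Bool.eq_iff_iff, walk_code, decide_eq_true_iff]
      exact (hd x).symm
    rw [List.length_nil, List.length_replicate, e] at hr
    exact hr

end Pool.Agent.H544R2
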