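import Pool.Agent.H544R2.Final

/-!
# The halting problem is recursively enumerable
-/

namespace Pool.Agent.H544R2
open Primrec
open Nat.Partrec (Code)

theorem bits_eq_map (n : ℕ) : n.bits = (List.range n.size).map (fun i => n / 2 ^ i % 2 == 1) := by
  apply List.ext_getElem
  · rw [List.length_map, List.length_range, Nat.size_eq_bits_len]
  · intro i h1 h2
    have h3 := Nat.testBit_eq_inth n i
    rw [List.getI_eq_getElem _ h1] at h3
    rw [← h3, List.getElem_map, List.getElem_range, Nat.testBit_eq_decide_div_mod_eq]
    rfl

theorem prim_bits : Primrec Nat.bits := by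
  have h : Primrec (fun n : ℕ => (List.range n.size).map (fun i => n / 2 ^ i % 2 == 1)) := by
    refine list_map (list_range.comp nat_size) ?_
    exact (prim_mod2 (Primrec.nat_div.comp fst (nat_pow.comp (Primrec.const 2) snd)))
  exact h.of_eq fun n => (bits_eq_map n).symm

theorem prim_pairStr : Primrec₂ pairStr := by
  unfold pairStr
  exact list_append.comp (list_flatMap fst (list_cons.comp (Primrec.const true)
    (list_cons.comp snd (Primrec.const []))).to₂) (list_cons.comp (Primrec.const false) snd)

/-- The halting problem is recursively enumerable. -/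
theorem re_HALT : REPred (· ∈ HALT) := by
  classical
  let Q : List Bool → ℕ → Bool := fun x k =>
    ((Encodable.decode k : Option (Code × List Bool × ℕ)).bind (fun y =>
      if x = pairStr (Nat.bits (Encodable.encode y.1)) y.2.1 then
        Code.evaln y.2.2 y.1 (Encodable.encode y.2.1) else none)).isSome
  have hQ : Primrec₂ Q := by
    refine option_isSome.comp (option_bind (Primrec.decode.comp snd) ?_)
    refine Primrec.ite (Primrec.eq.comp (fst.comp fst) (prim_pairStr.comp (prim_bits.comp
      (Primrec.encode.comp (fst.comp snd))) (fst.comp (snd.comp snd)))) ?_ (Primrec.const none)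
    exact Code.primrec_evaln.comp (Primrec.pair (Primrec.pair (snd.comp (snd.comp snd))
      (fst.comp snd)) (Primrec.encode.comp (fst.comp (snd.comp snd))))
  have h1 : Partrec (fun x : List Bool => Nat.rfind (fun k => (Part.some (Q x k) : Part Bool))) :=
    Partrec.rfind hQ.to_comp.partrec₂
  refine (h1.dom_re).of_eq fun x => ?_
  refine Iff.trans Nat.rfind_dom ?_
  constructor
  · rintro ⟨k, hk, _⟩
    simp only [Part.mem_some_iff] at hk
    have hk' : Q x k = true := hk.symm
    simp only [Q] at hk'
    obtain ⟨r, hr⟩ := Option.isSome_iff_exists.1 hk'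
    rw [Option.bind_eq_some_iff] at hr
    obtain ⟨⟨c, w, m⟩, _, hr⟩ := hr
    split_ifs at hr with hx
    exact ⟨c, w, hx, Part.dom_iff_mem.2 ⟨r, Code.evaln_sound hr⟩⟩
  · rintro ⟨c, w, hx, hdom⟩
    obtain ⟨r, hr⟩ := Part.dom_iff_mem.1 hdom
    obtain ⟨m, hm⟩ := Code.evaln_complete.1 hr
    refine ⟨Encodable.encode (c, w, m), ?_, fun _ => trivial⟩
    rw [Part.mem_some_iff]
    simp only [Q]
    rw [Encodable.encodek, Option.bind_some]
    simp only
    rw [if_pos hx, hm]
    rfl

end Pool.Agent.H544R2
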