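import Pool.Agent.H544R2.Strat

/-!
# The limit of the strategy
-/

namespace Pool.Agent.H544R2

section

variable (a : ℕ → Option (ℕ × ℕ)) (t : ℕ → Option (List Bool))

/-- The hypothesis on the enumerated cells. -/
def FewE : Prop :=
  ∀ (L : ℕ) (F : Finset ℕ), (∀ j ∈ F, ∃ n, a n = some (L, j)) → F.card * 2 ^ 64 < 2 ^ L

/-- placements at stage `n` -/
abbrev al (n : ℕ) : Alloc := (run a t n).2.1
/-- adversary's cells at stage `n` -/
abbrev cA (n : ℕ) : Cells := (run a t n).1
/-- written blocks at stage `n` -/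
abbrev wr (n : ℕ) : Writes := (run a t n).2.2.1
/-- killed blocks at stage `n` -/
abbrev kl (n : ℕ) : Kills := (run a t n).2.2.2

variable {a t}

theorem cA_succ (n : ℕ) : cA a t (n + 1) = (a n).toList ++ cA a t n := rfl

theorem al_succ (n : ℕ) :
    al a t (n + 1) = move (cA a t (n + 1)) (task n).1 (create (t n) (al a t n)) := rfl

theorem wr_succ (n : ℕ) :
    wr a t (n + 1) = write (cA a t (n + 1)) (al a t (n + 1)) (task n).1 (task n).2 (wr a t n) := rfl

theorem kl_succ (n : ℕ) :
    kl a t (n + 1) = kill (cA a t (n + 1)) (al a t (n + 1)) (task n).1 (task n).2 (kl a t n) := rfl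

theorem mem_cA {n : ℕ} {c : ℕ × ℕ} : c ∈ cA a t n ↔ ∃ k < n, a k = some c := by
  induction n with
  | zero => simp [cA, run]
  | succ n ih =>
    rw [cA_succ, List.mem_append, ih]
    constructor
    · rintro (h | ⟨k, hk, h⟩)
      · exact ⟨n, Nat.lt_succ_self n, by simpa using h⟩
      · exact ⟨k, by omega, h⟩
    · rintro ⟨k, hk, h⟩
      rcases Nat.lt_succ_iff_lt_or_eq.1 hk with hk | rfl
      · exact Or.inr ⟨k, hk, h⟩
      · left; simp [h]

theorem cA_mono {m n : ℕ} (h : m ≤ n) : ∀ c ∈ cA a t m, c ∈ cA a t n := by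
  intro c hc
  obtain ⟨k, hk, e⟩ := mem_cA.1 hc
  exact mem_cA.2 ⟨k, by omega, e⟩

theorem few_cA (hA : FewE a) (n : ℕ) : Few (cA a t n) := by
  intro L m
  rw [Nat.count_eq_card_filter_range]
  refine hA L _ fun j hj => ?_
  obtain ⟨k, _, e⟩ := mem_cA.1 (Finset.mem_filter.1 hj).2
  exact ⟨k, e⟩

theorem al_mono {m n : ℕ} (h : m ≤ n) : ∀ x ∈ al a t m, x ∈ al a t n := by
  induction n, h using Nat.le_induction with
  | base => exact fun x hx => hx
  | succ n _ ih => exact fun x hx => move_mem (create_mem (ih x hx))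

theorem wr_succ_sub (n : ℕ) : ∀ x ∈ wr a t n, x ∈ wr a t (n + 1) := by
  intro x hx
  rw [wr_succ]
  unfold write
  split
  · exact hx
  · split_ifs
    · exact hx
    · exact List.mem_cons_of_mem _ hx
    · exact hx

theorem wr_mono {m n : ℕ} (h : m ≤ n) : ∀ x ∈ wr a t m, x ∈ wr a t n := by
  induction n, h using Nat.le_induction with
  | base => exact fun x hx => hx
  | succ n _ ih => exact fun x hx => wr_succ_sub n x (ih x hx)

theorem kl_succ_sub (n : ℕ) : ∀ x ∈ kl a t n, x ∈ kl a t (n + 1) := by
  intro x hx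
  rw [kl_succ]
  unfold kill
  split
  · exact hx
  · split_ifs
    · exact List.mem_cons_of_mem _ hx
    · exact hx

theorem kl_mono {m n : ℕ} (h : m ≤ n) : ∀ x ∈ kl a t m, x ∈ kl a t n := by
  induction n, h using Nat.le_induction with
  | base => exact fun x hx => hx
  | succ n _ ih => exact fun x hx => kl_succ_sub n x (ih x hx)

theorem inv_run (hA : FewE a) (n : ℕ) :
    AInv (cA a t n) (al a t n) ∧ WInv (cA a t n) (al a t n) (wr a t n) (kl a t n) := by
  induction n with
  | zero =>
    refine ⟨⟨?_, ?_, ?_, ?_⟩, ⟨?_, ?_, ?_, ?_⟩⟩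
    · intro l1 v L st l2 h
      rcases l1 with _ | ⟨x, l1⟩
      · simp only [al, run, List.nil_append, List.cons.injEq, Prod.mk.injEq] at h
        obtain ⟨⟨_, rfl, rfl⟩, rfl⟩ := h
        rfl
      · simp only [al, run, List.cons_append, List.cons.injEq] at h
        have := h.2
        simp at this
    · intro l1 v L st l2 h L' st' hm
      rcases l1 with _ | ⟨x, l1⟩
      · simp only [al, run, List.nil_append, List.cons.injEq, Prod.mk.injEq] at h
        obtain ⟨⟨_, rfl, rfl⟩, rfl⟩ := h
        simp at hm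
      · simp only [al, run, List.cons_append, List.cons.injEq] at h
        have := h.2
        simp at this
    · intro v L st h
      simp only [al, run, List.mem_singleton, Prod.mk.injEq] at h
      obtain ⟨rfl, rfl, rfl⟩ := h
      left; rfl
    · intro v L st h
      simp only [al, run, List.mem_singleton, Prod.mk.injEq] at h
      obtain ⟨rfl, rfl, rfl⟩ := h
      exact le_rfl
    · simp [wr, run]
    · intro L b s a h; simp [wr, run] at h
    · intro u L st _ k k' s a _ _ h; simp [wr, run] at h
    · intro L b s h; simp [kl, run] at h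
  | succ n ih =>
    obtain ⟨i1, i2⟩ := ih
    have hF := few_cA (t := t) hA (n + 1)
    have hm := cA_mono (a := a) (t := t) (Nat.le_succ n)
    have j1 : AInv (cA a t (n + 1)) (al a t (n + 1)) := move_inv hF (create_inv (i1.mono hm) _) _
    have j2 : WInv (cA a t (n + 1)) (al a t (n + 1)) (wr a t n) (kl a t n) :=
      (i2.mono hm).alloc_mono (al_mono (Nat.le_succ n)) j1
    refine ⟨j1, ?_⟩
    rw [wr_succ, kl_succ]
    exact kill_inv (write_inv j1 j2 _ _) _ _

theorem ainv (hA : FewE a) (n : ℕ) : AInv (cA a t n) (al a t n) := (inv_run hA n).1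
theorem winv (hA : FewE a) (n : ℕ) : WInv (cA a t n) (al a t n) (wr a t n) (kl a t n) :=
  (inv_run hA n).2

theorem lookup_of_al {al : Alloc} {v : List Bool} {p : ℕ × ℕ} (h : (v, p) ∈ al) :
    ∃ q, al.lookup v = some q := by
  cases hc : al.lookup v with
  | none => exact absurd h (lookup_none hc p)
  | some q => exact ⟨q, rfl⟩

/-- the node `v` has, from stage `N` on, its region at level `L` and start `st` -/
def Fin (a : ℕ → Option (ℕ × ℕ)) (t : ℕ → Option (List Bool)) (v : List Bool) (L st : ℕ) : Prop :=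
  ∃ N, ∀ n ≥ N, (al a t n).lookup v = some (L, st)

theorem Fin.mem {v : List Bool} {L st : ℕ} (h : Fin a t v L st) :
    ∃ N, ∀ n ≥ N, (v, (L, st)) ∈ al a t n := by
  obtain ⟨N, h⟩ := h
  exact ⟨N, fun n hn => lookup_mem (h n hn)⟩

theorem Fin.le (hA : FewE a) {v : List Bool} {L st : ℕ} (h : Fin a t v L st) {n L' st' : ℕ}
    (hm : (v, (L', st')) ∈ al a t n) : (L' = L ∧ st' = st) ∨ L < L' := by
  obtain ⟨N, h⟩ := h
  exact (ainv hA (max n N)).lookup_le (h _ (le_max_right _ _))
    (al_mono (le_max_left _ _) _ hm)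

theorem exists_fin (hA : FewE a) {v : List Bool} {N L st : ℕ} (h : (v, (L, st)) ∈ al a t N) :
    ∃ L' st', Fin a t v L' st' := by
  classical
  have hex : ∃ K, ∃ n ≥ N, ∃ s, (al a t n).lookup v = some (K, s) := by
    obtain ⟨q, hq⟩ := lookup_of_al h
    exact ⟨q.1, N, le_rfl, q.2, by rw [hq]⟩
  obtain ⟨n, hn, s, e⟩ := Nat.find_spec hex
  have hmin := fun K hK => Nat.find_min hex (m := K) hK
  refine ⟨Nat.find hex, s, n, fun m hm => ?_⟩
  have h1 : (v, (Nat.find hex, s)) ∈ al a t m := al_mono hm _ (lookup_mem e)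
  obtain ⟨⟨K, s'⟩, hq⟩ := lookup_of_al h1
  rcases (ainv hA m).lookup_le hq h1 with ⟨h2, h3⟩ | h2
  · rw [hq, h2, h3]
  · exact absurd ⟨m, hn.trans hm, s', hq⟩ (hmin K h2)

theorem Fin.unique {v : List Bool} {L st L' st' : ℕ} (h : Fin a t v L st)
    (h' : Fin a t v L' st') : L = L' ∧ st = st' := by
  obtain ⟨N, h⟩ := h
  obtain ⟨N', h'⟩ := h'
  have := (h (max N N') (le_max_left _ _)).symm.trans (h' (max N N') (le_max_right _ _))
  simpa using this

theorem create_lookup {o : Option (List Bool)} {al : Alloc} {v : List Bool} {p : ℕ × ℕ}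
    (h : al.lookup v = some p) : (create o al).lookup v = some p := by
  unfold create
  cases o with
  | none => exact h
  | some w =>
    by_cases hw : (al.lookup w).isSome
    · simpa only [hw, if_true] using h
    · simp only [hw, Bool.false_eq_true, if_false]
      rw [List.lookup_cons]
      have : (v == w) = false := by
        simp only [beq_eq_false_iff_ne, ne_eq]
        rintro rfl
        rw [h] at hw
        simp at hw
      rw [this]
      exact h

theorem exists_task (u : List Bool) (i N : ℕ) : ∃ m ≥ N, task m = (u, i) :=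
  ⟨Nat.pair (Encodable.encode (u, i)) N, Nat.right_le_pair _ _, task_pair u i N⟩

/-- The final region of a node is never over-spoiled. -/
theorem Fin.not_spent (hA : FewE a) {u : List Bool} {L st : ℕ} (h : Fin a t u L st) (n : ℕ) :
    ¬ spent (cA a t n) L st u.length := by
  intro hs
  obtain ⟨N, h⟩ := h
  obtain ⟨m, hm, e⟩ := exists_task u 0 (max n N)
  have h1 : spent (cA a t (m + 1)) L st u.length :=
    spent_mono (cA_mono (by omega)) hs
  have h2 : (create (t m) (al a t m)).lookup u = some (L, st) := create_lookup (h m (by omega))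
  have h3 := h (m + 1) (by omega)
  rw [al_succ, e] at h3
  simp only [move, h2, h1, if_true, List.lookup_cons, beq_self_eq_true] at h3
  have := spent_level (few_cA hA _) h1
  simp only [Option.some.injEq, Prod.mk.injEq] at h3
  omega

/-- the adversary eventually owns the cell -/
def Am (a : ℕ → Option (ℕ × ℕ)) (L j : ℕ) : Prop := ∃ n, a n = some (L, j)

/-- the strategy eventually marks the cell -/
def Um (a : ℕ → Option (ℕ × ℕ)) (t : ℕ → Option (List Bool)) (L j : ℕ) : Prop :=
  ∃ n, marked (wr a t n) (kl a t n) L j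

theorem exists_stage_cells (L b : ℕ) : ∀ n : ℕ,
    ∃ N, ∀ m ≥ N, ∀ r < n, ((L, b + r) ∈ cA a t m ↔ Am a L (b + r))
  | 0 => ⟨0, by simp⟩
  | n + 1 => by
    obtain ⟨N, hN⟩ := exists_stage_cells L b n
    by_cases h : Am a L (b + n)
    · obtain ⟨k, hk⟩ := h
      refine ⟨max N (k + 1), fun m hm r hr => ?_⟩
      rcases Nat.lt_succ_iff_lt_or_eq.1 hr with hr | rfl
      · exact hN m (by omega) r hr
      · exact ⟨fun _ => ⟨k, hk⟩, fun _ => mem_cA.2 ⟨k, by omega, hk⟩⟩
    · refine ⟨N, fun m hm r hr => ?_⟩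
      rcases Nat.lt_succ_iff_lt_or_eq.1 hr with hr | rfl
      · exact hN m hm r hr
      · exact ⟨fun hc => (by
          obtain ⟨k, _, e⟩ := mem_cA.1 hc
          exact ⟨k, e⟩), fun hc => absurd hc h⟩

open Classical in
/-- the block is eventually spoiled -/
def Sp (a : ℕ → Option (ℕ × ℕ)) (L base n : ℕ) : Prop :=
  n ≤ 8 * Nat.count (fun r => Am a L (base + r)) n

theorem sp_iff {L st d N : ℕ} (h : ∀ m ≥ N, ∀ r < rD d, ((L, st + r) ∈ cA a t m ↔ Am a L (st + r)))
    {m k : ℕ} (hm : N ≤ m) (hk : k < bR d) :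
    spoiled (cA a t m) L (st + k * bR d) (bR d) ↔ Sp a L (st + k * bR d) (bR d) := by
  classical
  unfold spoiled Sp
  have : Nat.count (fun r => (L, st + k * bR d + r) ∈ cA a t m) (bR d) =
      Nat.count (fun r => Am a L (st + k * bR d + r)) (bR d) := by
    rw [Nat.count_eq_card_filter_range, Nat.count_eq_card_filter_range]
    congr 1
    apply Finset.filter_congr
    intro r hr
    have := h m hm (k * bR d + r) (by
      have := (cell_in (st := 0) hk (Finset.mem_range.1 hr)).2
      omega)
    rw [add_assoc]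
    exact this
  rw [this]

theorem sp_of_spoiled {L base n m : ℕ} (h : spoiled (cA a t m) L base n) : Sp a L base n := by
  classical
  unfold spoiled at h
  unfold Sp
  refine h.trans (Nat.mul_le_mul_left _ ?_)
  refine Nat.count_mono_left fun r _ hr => ?_
  obtain ⟨k, _, e⟩ := mem_cA.1 hr
  exact ⟨k, e⟩

/-- the block is eventually written with the symbol -/
def Wr (a : ℕ → Option (ℕ × ℕ)) (t : ℕ → Option (List Bool)) (L base s x : ℕ) : Prop :=
  ∃ n, ((L, base), (s, x)) ∈ wr a t n

theorem Wr.unique (hA : FewE a) {L base s x s' x' : ℕ} (h : Wr a t L base s x)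
    (h' : Wr a t L base s' x') : s = s' ∧ x = x' := by
  obtain ⟨n, h⟩ := h
  obtain ⟨n', h'⟩ := h'
  have h1 := lookup_of_mem (winv hA (max n n')).keys (wr_mono (le_max_left _ _) _ h)
  have h2 := lookup_of_mem (winv hA (max n n')).keys (wr_mono (le_max_right _ _) _ h')
  simpa using h1.symm.trans h2

/-- spoiled blocks of a final region are completely marked -/
theorem Um_of_sp {u : List Bool} {L st : ℕ} (h : Fin a t u L st) {k : ℕ}
    (hk : k < bR u.length) (hs : Sp a L (st + k * bR u.length) (bR u.length)) {r : ℕ}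
    (hr : r < bR u.length) : Um a t L (st + k * bR u.length + r) := by
  obtain ⟨N, hN⟩ := h
  obtain ⟨M, hM⟩ := exists_stage_cells (a := a) (t := t) L st (rD u.length)
  obtain ⟨m, hm, e⟩ := exists_task u k (max N M)
  have h1 := (sp_iff (t := t) hM (m := m + 1) (by omega) hk).2 hs
  refine ⟨m + 1, Or.inr ⟨((L, st + k * bR u.length), ex u.length), ?_, rfl, by simp, ?_⟩⟩
  · rw [kl_succ, e]
    simp only [kill, hN (m + 1) (by omega)]
    rw [if_pos ⟨hk, h1⟩]
    simp
  · exact Nat.add_lt_add_left hr _

/-- in an unspoiled block of a final region the marks are those of the written symbol -/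
theorem Um_iff (hA : FewE a) {u : List Bool} {L st : ℕ} (h : Fin a t u L st) {k : ℕ}
    (hk : k < bR u.length) (hs : ¬ Sp a L (st + k * bR u.length) (bR u.length)) {r : ℕ}
    (hr : r < bR u.length) : Um a t L (st + k * bR u.length + r) ↔
      ∃ x, Wr a t L (st + k * bR u.length) (ex u.length) x ∧ ip (ex u.length) x r = true := by
  obtain ⟨N, hN⟩ := h.mem
  constructor
  · rintro ⟨n, hn⟩
    have hi := ainv (t := t) hA (max n N)
    have hw := winv (t := t) hA (max n N)
    have hu := hN (max n N) (le_max_right _ _)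
    rcases hn with ⟨⟨⟨M, b⟩, ⟨s, x⟩⟩, hw1, rfl, h2, h3, h4⟩ | ⟨⟨⟨M, b⟩, s⟩, hw1, rfl, h2, h3⟩
    · simp only at h2 h3 h4 hu
      have hw2 := wr_mono (le_max_left n N) _ hw1
      obtain ⟨w, st', k', g1, g2, rfl, rfl, g5⟩ := hw.src _ _ _ _ hw2
      have h3' : st + k * bR u.length + r < st' + k' * bR w.length + bR w.length := h3
      obtain ⟨rfl, rfl, rfl, e⟩ := hi.block hu g1 hk g2 hr (r' := st + k * bR u.length + r -
        (st' + k' * bR w.length)) (by omega) (by omega)
      refine ⟨x, ⟨n, hw1⟩, ?_⟩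
      rw [← e] at h4
      exact h4
    · simp only at h2 h3 hu
      have hw2 := kl_mono (le_max_left n N) _ hw1
      obtain ⟨w, st', k', g1, g2, rfl, rfl, g5⟩ := hw.kills _ _ _ hw2
      have h3' : st + k * bR u.length + r < st' + k' * bR w.length + bR w.length := h3
      obtain ⟨rfl, rfl, rfl, e⟩ := hi.block hu g1 hk g2 hr (r' := st + k * bR u.length + r -
        (st' + k' * bR w.length)) (by omega) (by omega)
      exact absurd (sp_of_spoiled g5) hs
  · rintro ⟨x, ⟨n, hn⟩, hx⟩
    refine ⟨n, Or.inl ⟨_, hn, rfl, by simp, ?_, ?_⟩⟩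
    · exact Nat.add_lt_add_left hr _
    · simpa using hx

/-- the final region of `u` holds the symbol `x` -/
def Held (a : ℕ → Option (ℕ × ℕ)) (t : ℕ → Option (List Bool)) (d L st x : ℕ) : Prop :=
  ∃ k < bR d, ¬ Sp a L (st + k * bR d) (bR d) ∧ Wr a t L (st + k * bR d) (ex d) x

theorem Held.truth (hA : FewE a) {u : List Bool} {L st x : ℕ} (h : Fin a t u L st)
    (hh : Held a t u.length L st x) : ∃ n, Truth (al a t n) u x := by
  obtain ⟨k, hk, _, n, hn⟩ := hh
  obtain ⟨N, hN⟩ := h.mem
  have hi := ainv (t := t) hA (max n N)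
  have hw := winv (t := t) hA (max n N)
  have hu := hN (max n N) (le_max_right _ _)
  obtain ⟨w, st', k', g1, g2, g3, _, g5⟩ := hw.src _ _ _ _ (wr_mono (le_max_left n N) _ hn)
  obtain ⟨rfl, _, _, _⟩ := hi.block hu g1 hk g2 (bR_pos _) (bR_pos _) (by rw [g3])
  exact ⟨_, g5⟩

theorem level_lt {d L : ℕ} (h : L ≤ top (d + 1)) : L < 2 ^ lam d := by
  have := lam_lt d
  unfold top at h
  omega

/-- All true symbols are held. -/
theorem held_of_truth (hA : FewE a) {u : List Bool} {b : Bool} {L st L' st' i : ℕ}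
    (h : Fin a t u L st) (h' : Fin a t (u ++ [b]) L' st')
    (hi : i = L' ∨ (i < L' ∧ st' / 2 ^ i % 2 = 1)) :
    Held a t u.length L st (sym u.length b L' i) := by
  have hns := h.not_spent hA
  obtain ⟨N, hN⟩ := h
  obtain ⟨N', hN'⟩ := h'
  obtain ⟨M, hM⟩ := exists_stage_cells (a := a) (t := t) L st (rD u.length)
  obtain ⟨m, hm, e⟩ := exists_task u (2 * i + b.toNat) (max (max N N') M)
  have l1 := hN (m + 1) (by omega)
  have l2 := hN' (m + 1) (by omega)
  have hL' : L' ≤ top (u.length + 1) := by
    have := (ainv hA (m + 1)).le _ _ _ (lookup_mem l2)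
    simpa using this
  have hi2 : (2 * i + b.toNat) / 2 = i := by
    have := Bool.toNat_le b
    omega
  have hb2 : ((2 * i + b.toNat) % 2 == 1) = b := by cases b <;> simp
  have htar : target (al a t (m + 1)) u (2 * i + b.toNat) =
      some ((L, st), sym u.length b L' i) := by
    unfold target
    rw [hb2, hi2, l1, l2]
    simp only
    rw [if_pos hi]
  set σ := sym u.length b L' i with hσ
  have hsp : ∀ k < bR u.length, (spoiled (cA a t (m + 1)) L (st + k * bR u.length) (bR u.length) ↔
      Sp a L (st + k * bR u.length) (bR u.length)) := fun k hk => sp_iff hM (by omega) hk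
  by_cases hh : held (cA a t (m + 1)) (wr a t m) (L, st) u.length σ
  · obtain ⟨k, hk, h1, h2⟩ := hh
    exact ⟨k, hk, fun hc => h1 ((hsp k hk).2 hc), m, mem_of_lookup h2⟩
  · -- there is a free block
    have hw0 : WInv (cA a t (m + 1)) (al a t (m + 1)) (wr a t m) (kl a t m) :=
      ((winv (t := t) hA m).mono (cA_mono (Nat.le_succ m))).alloc_mono (al_mono (Nat.le_succ m))
        (ainv hA (m + 1))
    have hfree : freeIdx (cA a t (m + 1)) (wr a t m) (L, st) u.length < bR u.length := by
      apply freeIdx_lt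
      by_contra hcon
      push Not at hcon
      -- unspoiled blocks
      let G := (Finset.range (bR u.length)).filter
        (fun k => ¬ spoiled (cA a t (m + 1)) L (st + k * bR u.length) (bR u.length))
      have hG : bR u.length ≤ 2 * G.card := by
        have h1 := hns (m + 1)
        unfold spent at h1
        rw [Nat.count_eq_card_filter_range] at h1
        have h2 := Finset.card_filter_add_card_filter_not (s := Finset.range (bR u.length))
          (fun k => spoiled (cA a t (m + 1)) L (st + k * bR u.length) (bR u.length))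
        rw [Finset.card_range] at h2
        change _ + G.card = _ at h2
        omega
      have hval : ∀ k ∈ G, ∃ x, (wr a t m).lookup (L, st + k * bR u.length) = some (ex u.length, x) ∧
          0 < x ∧ 2 * x ≤ bR u.length ∧ x ≠ σ := by
        intro k hk
        obtain ⟨hk1, hk2⟩ := Finset.mem_filter.1 hk
        have hk1 := Finset.mem_range.1 hk1
        have h3 := hcon k hk1 hk2
        obtain ⟨⟨s, x⟩, hx⟩ := Option.ne_none_iff_exists'.1 h3
        simp only at hx
        obtain ⟨w, st2, k2, g1, g2, g3, g4, g5⟩ := hw0.src _ _ _ _ (mem_of_lookup hx)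
        obtain ⟨rfl, _, _, _⟩ := (ainv (t := t) hA (m + 1)).block (lookup_mem l1) g1 hk1 g2
          (bR_pos _) (bR_pos _) (by rw [g3])
        subst g4
        refine ⟨x, hx, ?_, ?_, ?_⟩
        · obtain ⟨b', K, i', st3, _, _, rfl⟩ := g5
          exact sym_pos _ _ _ _
        · obtain ⟨b', K, i', st3, t1, t2, rfl⟩ := g5
          have hK := (ainv hA (m + 1)).le _ _ _ t1
          rw [List.length_append, List.length_singleton] at hK
          have hK' := level_lt hK
          exact sym_le _ hK' (by omega)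
        · rintro rfl
          exact hh ⟨k, hk1, hk2, hx⟩
      choose! f hf using hval
      have hinj : Set.InjOn f (G : Set ℕ) := by
        intro k hk k' hk' hkk
        have h1 := hf k (Finset.mem_coe.1 hk)
        have h2 := hf k' (Finset.mem_coe.1 hk')
        obtain ⟨g1, g2⟩ := Finset.mem_filter.1 (Finset.mem_coe.1 hk)
        obtain ⟨g3, g4⟩ := Finset.mem_filter.1 (Finset.mem_coe.1 hk')
        refine hw0.once u L st (lookup_mem l1) k k' (ex u.length) (f k) (Finset.mem_range.1 g1)
          (Finset.mem_range.1 g3) h1.1 ?_ g2 g4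
        rw [hkk]
        exact h2.1
      have hmaps : ∀ k ∈ G, f k ∈ (Finset.Icc 1 (bR u.length / 2)).erase σ := by
        intro k hk
        obtain ⟨_, h1, h2, h3⟩ := hf k hk
        refine Finset.mem_erase.2 ⟨h3, Finset.mem_Icc.2 ⟨h1, by omega⟩⟩
      have hcard := Finset.card_le_card_of_injOn f hmaps hinj
      have hσm : σ ∈ Finset.Icc 1 (bR u.length / 2) := by
        have h1 := sym_pos u.length b L' i
        have hL2 := level_lt hL'
        have h2 := sym_le b hL2 (i := i) (by omega)
        exact Finset.mem_Icc.2 ⟨h1, by omega⟩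
      rw [Finset.card_erase_of_mem hσm, Nat.card_Icc] at hcard
      have := sixteen_le_bR u.length
      omega
    obtain ⟨f1, f2⟩ := freeIdx_spec hfree
    refine ⟨_, hfree, fun hc => f1 ((hsp _ hfree).2 hc), m + 1, ?_⟩
    rw [wr_succ, e]
    simp only [write, htar, hh, hfree, if_true, if_false]
    simp

end

end Pool.Agent.H544R2
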