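import Pool.Agent.H544R2.Oracle

/-!
# Polynomial-time next-query functions give polynomial-time oracle machines
-/

namespace Pool.Agent.H544R2

open Turing Pool.Agent.NPC

open Classical in
/-- The rounds of an oracle computation whose next query, or final answer, is computed by `out`
from the input and the list of the earlier answers of the oracle. -/
inductive Rounds (out : List Bool × List Bool → List Bool) (A : Set (List Bool)) (x : List Bool) :
    List Bool → ℕ → Bool → Prop
  | done {ans b} (h : out (x, ans) = [false, b]) : Rounds out A x ans 0 b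
  | more {ans q N b} (h : out (x, ans) = true :: q)
      (h' : Rounds out A x (ans ++ [decide (q ∈ A)]) N b) : Rounds out A x ans (N + 1) b

theorem sz_listBool_le (l : List Bool) : sz l ≤ 4 * l.length + 1 := by
  have := sz_le_length_mul l 3 (fun a _ => sz_bool_le a)
  omega

theorem mem_PRel {A L : Set (List Bool)} {out : List Bool × List Bool → List Bool}
    (hout : PC (bits : List Bool × List Bool → List Bool) (fun y : List Bool => y) out)
    (B : Polynomial ℕ)
    (h : ∀ x, ∃ N ≤ B.eval x.length, Rounds out A x [] N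
      (@decide (x ∈ L) (Classical.propDecidable _))) : L ∈ PRel A := by
  classical
  have h0 : PC (fun x : List Bool => x) (bits : List Bool × List Bool → List Bool)
      (fun x => (x, [])) := by
    have h1 : Poly (fun x : List Bool => (x, ([] : List Bool))) :=
      NPC.Poly.pair NPC.Poly.id (NPC.Poly.const [])
    have h2 : PC (fun x : List Bool => x) (bits : List Bool → List Bool) (fun x => x) :=
      PC.ofBits
    exact PC.comp (g := fun x : List Bool => (x, ([] : List Bool))) (eb := bits) (ec := bits) h1 h2
  have hu : ∀ a : Bool, PC (bits : List Bool × List Bool → List Bool)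
      (bits : List Bool × List Bool → List Bool) (fun p => (p.1, p.2 ++ [a])) := fun a =>
    NPC.Poly.pair (NPC.Poly.fst NPC.Poly.id) (NPC.Poly.append (NPC.Poly.snd NPC.Poly.id) (NPC.Poly.const [a]))
  obtain ⟨c0, p0, h0⟩ := h0
  obtain ⟨c1, p1, h1⟩ := hout
  obtain ⟨cf, pf, hf⟩ := hu false
  obtain ⟨ct, pt, ht⟩ := hu true
  let P : Loop := ⟨c0, Cmd.seq (Cmd.seq (mv 0 2) (cp 2 0 1)) (ev c1),
    Cmd.seq (mv 1 2) (Cmd.seq (mv 2 0) cf), Cmd.seq (mv 1 2) (Cmd.seq (mv 2 0) ct)⟩
  -- the time of a round
  let W : Polynomial ℕ := Polynomial.C 17 * Polynomial.X + p1 + pf + pt + Polynomial.C 10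
  have eW : ∀ n, W.eval n = 17 * n + p1.eval n + pf.eval n + pt.eval n + 10 := by
    intro n; simp [W]
  have hc1 : ∀ a : List Bool × List Bool, Runs P.c1 (NPC.st (bits a) [] [])
      (NPC.st (out a) (bits a) []) (9 * sz a + 2 + p1.eval (sz a)) := fun a =>
    (dup_runs (bits a)).seq (ev_runs (h1 a) (bits a))
  have hmv : ∀ y : List Bool, Runs (Cmd.seq (mv 1 2) (mv 2 0)) (NPC.st [] y []) (NPC.st y [] [])
      (8 * y.length + 2) := by
    intro y
    have g1 := mv_runs (i := 1) (j := 2) (by decide) y (NPC.st [] y []) (NPC.st [] [] y.reverse)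
      (by simp) (by simp)
    have g2 := mv_runs (i := 2) (j := 0) (by decide) y.reverse (NPC.st [] [] y.reverse)
      (NPC.st y [] []) (by simp) (by simp)
    refine (g1.seq g2).mono ?_
    rw [List.length_reverse]
    omega
  have hcf : ∀ a : List Bool × List Bool, Runs P.cf (NPC.st [] (bits a) [])
      (NPC.st (bits (a.1, a.2 ++ [false])) [] []) (8 * sz a + 2 + pf.eval (sz a)) := by
    intro a
    have g1 := mv_runs (i := 1) (j := 2) (by decide) (bits a) (NPC.st [] (bits a) [])
      (NPC.st [] [] (bits a).reverse) (by simp) (by simp)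
    have g2 := mv_runs (i := 2) (j := 0) (by decide) (bits a).reverse
      (NPC.st [] [] (bits a).reverse) (NPC.st (bits a) [] []) (by simp) (by simp)
    have g3 := hf a
    rw [inp_eq_st, inp_eq_st] at g3
    refine (g1.seq (g2.seq g3)).mono ?_
    rw [List.length_reverse]
    change 4 * sz a + 1 + (4 * sz a + 1 + pf.eval (sz a)) ≤ _
    omega
  have hct : ∀ a : List Bool × List Bool, Runs P.ct (NPC.st [] (bits a) [])
      (NPC.st (bits (a.1, a.2 ++ [true])) [] []) (8 * sz a + 2 + pt.eval (sz a)) := by
    intro a
    have g1 := mv_runs (i := 1) (j := 2) (by decide) (bits a) (NPC.st [] (bits a) [])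
      (NPC.st [] [] (bits a).reverse) (by simp) (by simp)
    have g2 := mv_runs (i := 2) (j := 0) (by decide) (bits a).reverse
      (NPC.st [] [] (bits a).reverse) (NPC.st (bits a) [] []) (by simp) (by simp)
    have g3 := ht a
    rw [inp_eq_st, inp_eq_st] at g3
    refine (g1.seq (g2.seq g3)).mono ?_
    rw [List.length_reverse]
    change 4 * sz a + 1 + (4 * sz a + 1 + pt.eval (sz a)) ≤ _
    omega
  -- the rounds
  have key : ∀ (x : List Bool) (D : ℕ) (ans : List Bool) (N : ℕ) (b : Bool),
      Rounds out A x ans N b → ans.length + N ≤ D → ∀ v : Option Bool,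
      ∃ t ≤ (N + 1) * W.eval (4 * x.length + 4 * D + 3), ∃ v' S,
        P.toOracle.Reach A t
          ⟨some (.inr (.inl (P.r P.c1).entry)), v, Loop.rs P (NPC.st (bits (x, ans)) [] [])⟩
          ⟨none, v', Loop.rs P S⟩ ∧ S 0 = [b] := by
    intro x D ans N b hr
    induction hr with
    | @done ans b hq =>
      intro hD v
      have hsz : sz (x, ans) ≤ 4 * x.length + 4 * D + 3 := by
        rw [sz_pair]
        have := sz_listBool_le x
        have := sz_listBool_le ans
        omega
      obtain ⟨t1, ht1, v1, g1⟩ := Loop.reach_c1 (A := A) (hc1 (x, ans)) v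
      rw [hq] at g1
      obtain ⟨v2, g2⟩ := Loop.reach_done (P := P) (A := A)
        (NPC.st [false, b] (bits (x, ans)) []) v1 (y := [b]) (by simp)
      refine ⟨t1 + 1, ?_, v2, _, g1.trans g2, by simp⟩
      rw [eW]
      have e1 := eval_mono p1 hsz
      omega
    | @more ans q N b hq hr' ih =>
      intro hD v
      have hsz : sz (x, ans) ≤ 4 * x.length + 4 * D + 3 := by
        rw [sz_pair]
        have := sz_listBool_le x
        have := sz_listBool_le ans
        omega
      obtain ⟨t1, ht1, v1, g1⟩ := Loop.reach_c1 (A := A) (hc1 (x, ans)) v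
      rw [hq] at g1
      obtain ⟨v2, g2⟩ := Loop.reach_more (P := P) (A := A)
        (NPC.st (true :: q) (bits (x, ans)) []) v1 (y := q) (by simp)
      have g3 := Loop.reach_ask (P := P) (A := A)
        (Function.update (NPC.st (true :: q) (bits (x, ans)) []) 0 q) v2
      rw [update_st_zero, st_zero, update_st_zero] at g3
      rw [update_st_zero] at g2
      have hD' : (ans ++ [decide (q ∈ A)]).length + N ≤ D := by
        rw [List.length_append, List.length_singleton]
        omega
      have e1 := eval_mono p1 hsz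
      have e2 := eval_mono pf hsz
      have e3 := eval_mono pt hsz
      by_cases hqA : q ∈ A
      · have hdec : decide (q ∈ A) = true := decide_eq_true hqA
        simp only [hdec] at g3 hD' ih
        obtain ⟨v4, g4⟩ := Loop.reach_after_true (P := P) (A := A)
          (NPC.st [true] (bits (x, ans)) []) v2 (by simp)
        rw [update_st_zero] at g4
        obtain ⟨t5, ht5, v5, g5⟩ := Loop.reach_ct (A := A) (hct (x, ans)) v4
        obtain ⟨t6, ht6, v6, S, g6, hS⟩ := ih hD' v5
        refine ⟨t1 + (1 + (1 + (1 + (t5 + t6)))), ?_, v6, S,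
          g1.trans (g2.trans (g3.trans (g4.trans (g5.trans g6)))), hS⟩
        rw [add_mul, one_mul] at ht6 ⊢
        rw [add_mul, one_mul]
        set w := W.eval (4 * x.length + 4 * D + 3) with hw
        rw [eW] at hw
        omega
      · have hdec : decide (q ∈ A) = false := decide_eq_false hqA
        simp only [hdec] at g3 hD' ih
        obtain ⟨v4, g4⟩ := Loop.reach_after_false (P := P) (A := A)
          (NPC.st [false] (bits (x, ans)) []) v2 (by simp)
        rw [update_st_zero] at g4
        obtain ⟨t5, ht5, v5, g5⟩ := Loop.reach_cf (A := A) (hcf (x, ans)) v4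
        obtain ⟨t6, ht6, v6, S, g6, hS⟩ := ih hD' v5
        refine ⟨t1 + (1 + (1 + (1 + (t5 + t6)))), ?_, v6, S,
          g1.trans (g2.trans (g3.trans (g4.trans (g5.trans g6)))), hS⟩
        rw [add_mul, one_mul] at ht6 ⊢
        rw [add_mul, one_mul]
        set w := W.eval (4 * x.length + 4 * D + 3) with hw
        rw [eW] at hw
        omega
  refine ⟨P.toOracle, p0 + (B + 1) * W.comp (Polynomial.C 4 * Polynomial.X +
    Polynomial.C 4 * B + Polynomial.C 3), fun x => ?_⟩
  obtain ⟨N, hN, hr⟩ := h x
  have g0 := h0 x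
  rw [inp_eq_st, inp_eq_st] at g0
  obtain ⟨t0, ht0, v0, k0⟩ := Loop.reach_c0 (P := P) (A := A) g0 none
  obtain ⟨t1, ht1, v1, S, k1, hS⟩ := key x (B.eval x.length) [] N _ hr (by simpa using hN) v0
  refine ⟨t0 + t1, ?_, v1, Loop.rs P S, ?_, ?_⟩
  · simp only [Polynomial.eval_add, Polynomial.eval_mul, Polynomial.eval_comp, Polynomial.eval_C,
      Polynomial.eval_X, Polynomial.eval_one]
    refine Nat.add_le_add ht0 (ht1.trans ?_)
    exact Nat.mul_le_mul_right _ (by omega)
  · refine OracleTM.Reach.trans ?_ k1
    have e : P.toOracle.start x = ⟨some (.inl (P.r P.c0).entry), none,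
        Loop.rs P (NPC.st x [] [])⟩ := by
      unfold OracleTM.start
      rw [← inp_eq_st, inp, Loop.rs_update_zero]
      rfl
    rw [e]
    exact k0
  · exact hS

end Pool.Agent.H544R2
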