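import Pool.Agent.H544R2.Defs
import Pool.Agent.NPC.Enc

/-!
# Oracle machines from programs

A polynomial-time computable function that computes, from the input and the list of the answers
to the earlier queries, the next query or the final answer, gives an oracle Turing machine.
-/

namespace Pool.Agent.H544R2

open Turing Pool.Agent.NPC

namespace OracleTM

variable {M : OracleTM} {A : Set (List Bool)}

theorem Reach.trans {m n : ℕ} {a b c : M.Cfg} (h1 : M.Reach A m a b) (h2 : M.Reach A n b c) :
    M.Reach A (m + n) a c := by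
  unfold Reach at *
  rw [add_comm, Function.iterate_add_apply, h1, h2]

theorem Reach.one {a b : M.Cfg} (h : M.step A a = some b) : M.Reach A 1 a b := by
  unfold Reach
  simpa using h

theorem step_of_none {l : M.Λ} (h : M.ask l = none) (v : M.σ) (S : M.K → List Bool) :
    M.step A ⟨some l, v, S⟩ = some (TM2.stepAux (M.prog l) v S) := by
  simp only [step, h]

end OracleTM

/-- a run from a halted configuration stays halted -/
theorem halted_iterate {K L : Type} [DecidableEq K] (P : L → Cmd.Stm K L) :
    ∀ (n : ℕ) (v : Option Bool) (S : K → List Bool)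
      (b : TM2.Cfg (fun _ : K => Bool) L (Option Bool)),
      Steps P n ⟨none, v, S⟩ b → b.l = none := by
  intro n
  induction n with
  | zero =>
    intro v S b h
    unfold Steps at h
    simp only [Function.iterate_zero, id_eq, Option.some.injEq] at h
    rw [← h]
  | succ n ih =>
    intro v S b h
    exfalso
    unfold Steps at h
    rw [Function.iterate_succ_apply] at h
    have h1 : flip bind (TM2.step P) (some (⟨none, v, S⟩ : TM2.Cfg (fun _ : K => Bool) L
        (Option Bool))) = none := rfl
    rw [h1] at h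
    have h2 : ∀ k : ℕ, (flip bind (TM2.step P))^[k] none = none := by
      intro k
      induction k with
      | zero => rfl
      | succ k ihk => rw [Function.iterate_succ_apply]; exact ihk
    rw [h2] at h
    simp at h

/-- The programs of an oracle loop: initialisation, computation of the query or answer, and the
updates after a negative and a positive answer. -/
structure Loop where
  /-- initialisation -/
  c0 : Cmd ℕ
  /-- computation of the query -/
  c1 : Cmd ℕ
  /-- update after a negative answer -/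
  cf : Cmd ℕ
  /-- update after a positive answer -/
  ct : Cmd ℕ

namespace Loop

variable (P : Loop)

/-- the number of stacks, minus one -/
def n : ℕ := max P.c0.bd (max P.c1.bd (max P.cf.bd P.ct.bd))

/-- restriction of a program to finitely many stacks -/
abbrev r (c : Cmd ℕ) : Cmd (Fin (P.n + 1)) := c.map (Fin.ofNat (P.n + 1))

/-- the labels -/
abbrev L : Type :=
  (P.r P.c0).Lbl ⊕ (P.r P.c1).Lbl ⊕ (P.r P.cf).Lbl ⊕ (P.r P.ct).Lbl ⊕ Fin 3

/-- the program -/
def prog : P.L → Cmd.Stm (Fin (P.n + 1)) P.L
  | .inl l => (P.r P.c0).code (fun l => .inl l) (.inr (.inl (P.r P.c1).entry)) l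
  | .inr (.inl l) => (P.r P.c1).code (fun l => .inr (.inl l)) (.inr (.inr (.inr (.inr 0)))) l
  | .inr (.inr (.inl l)) =>
    (P.r P.cf).code (fun l => .inr (.inr (.inl l))) (.inr (.inl (P.r P.c1).entry)) l
  | .inr (.inr (.inr (.inl l))) =>
    (P.r P.ct).code (fun l => .inr (.inr (.inr (.inl l)))) (.inr (.inl (P.r P.c1).entry)) l
  | .inr (.inr (.inr (.inr i))) =>
    if i = 0 then
      TM2.Stmt.pop 0 (fun _ a => a) (TM2.Stmt.branch (fun v => v == some true)
        (TM2.Stmt.goto fun _ => .inr (.inr (.inr (.inr 1)))) TM2.Stmt.halt)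
    else if i = 2 then
      TM2.Stmt.pop 0 (fun _ a => a) (TM2.Stmt.branch (fun v => v == some true)
        (TM2.Stmt.goto fun _ => .inr (.inr (.inr (.inl (P.r P.ct).entry))))
        (TM2.Stmt.goto fun _ => .inr (.inr (.inl (P.r P.cf).entry))))
    else TM2.Stmt.halt

/-- the query labels -/
def ask : P.L → Option P.L
  | .inr (.inr (.inr (.inr i))) => if i = 1 then some (.inr (.inr (.inr (.inr 2)))) else none
  | _ => none

/-- the oracle machine -/
def toOracle : OracleTM where
  K := Fin (P.n + 1)
  input := 0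
  output := 0
  query := 0
  Λ := P.L
  main := .inl (P.r P.c0).entry
  σ := Option Bool
  init := none
  prog := P.prog
  ask := P.ask

variable {P} {A : Set (List Bool)}

theorem prog_of_ask {l l' : P.L} (h : P.ask l = some l') : P.prog l = TM2.Stmt.halt := by
  rcases l with l | l | l | l | i
  · simp [ask] at h
  · simp [ask] at h
  · simp [ask] at h
  · simp [ask] at h
  · unfold ask at h
    simp only at h
    split_ifs at h with hi
    subst hi
    rfl

theorem reach_of_steps : ∀ (n : ℕ) (a b : P.toOracle.Cfg), Steps P.prog n a b → b.l ≠ none →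
    P.toOracle.Reach A n a b := by
  intro n
  induction n with
  | zero => exact fun a b h _ => h
  | succ n ih =>
    intro a b h hb
    obtain ⟨l, v, S⟩ := a
    rw [add_comm]
    cases l with
    | none => exact absurd (halted_iterate P.prog _ v S b h) hb
    | some l =>
      have h' : Steps P.prog n (TM2.stepAux (P.prog l) v S) b := by
        unfold Steps at h
        rw [Function.iterate_succ_apply] at h
        exact h
      cases hl : P.ask l with
      | none =>
        exact OracleTM.Reach.trans (OracleTM.Reach.one (OracleTM.step_of_none (M := P.toOracle)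
          hl v S)) (ih _ b h' hb)
      | some l' =>
        rw [prog_of_ask hl] at h'
        exact absurd (halted_iterate P.prog _ v S b h') hb

theorem bd_le (P : Loop) : P.c0.bd ≤ P.n + 1 ∧ P.c1.bd ≤ P.n + 1 ∧ P.cf.bd ≤ P.n + 1 ∧
    P.ct.bd ≤ P.n + 1 := by
  unfold n
  omega

/-- the stacks of the machine from stacks indexed by numbers -/
def rs (P : Loop) (s : ℕ → List Bool) : Fin (P.n + 1) → List Bool := fun i => s i

theorem rs_update_zero (s : ℕ → List Bool) (x : List Bool) :
    rs P (Function.update s 0 x) = Function.update (rs P s) 0 x := by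
  funext i
  by_cases hi : i = 0
  · subst hi; simp [rs]
  · have : (i : ℕ) ≠ 0 := fun h => hi (Fin.ext h)
    simp [rs, hi, this]

/-- running the initialisation -/
theorem reach_c0 {s s' : ℕ → List Bool} {m : ℕ} (h : Runs P.c0 s s' m) (v : Option Bool) :
    ∃ t ≤ m, ∃ v', P.toOracle.Reach A t ⟨some (.inl (P.r P.c0).entry), v, rs P s⟩
      ⟨some (.inr (.inl (P.r P.c1).entry)), v', rs P s'⟩ := by
  obtain ⟨t, ht, h⟩ := h
  obtain ⟨v', hv⟩ := code_correct (h.restrict (bd_le P).1) P.prog (fun l => .inl l)
    (.inr (.inl (P.r P.c1).entry)) (fun l => rfl) v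
  exact ⟨t, ht, v', reach_of_steps t _ _ hv (by simp)⟩

theorem reach_c1 {s s' : ℕ → List Bool} {m : ℕ} (h : Runs P.c1 s s' m) (v : Option Bool) :
    ∃ t ≤ m, ∃ v', P.toOracle.Reach A t ⟨some (.inr (.inl (P.r P.c1).entry)), v, rs P s⟩
      ⟨some (.inr (.inr (.inr (.inr 0)))), v', rs P s'⟩ := by
  obtain ⟨t, ht, h⟩ := h
  obtain ⟨v', hv⟩ := code_correct (h.restrict (bd_le P).2.1) P.prog (fun l => .inr (.inl l))
    (.inr (.inr (.inr (.inr 0)))) (fun l => rfl) v
  exact ⟨t, ht, v', reach_of_steps t _ _ hv (by simp)⟩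

theorem reach_cf {s s' : ℕ → List Bool} {m : ℕ} (h : Runs P.cf s s' m) (v : Option Bool) :
    ∃ t ≤ m, ∃ v', P.toOracle.Reach A t
      ⟨some (.inr (.inr (.inl (P.r P.cf).entry))), v, rs P s⟩
      ⟨some (.inr (.inl (P.r P.c1).entry)), v', rs P s'⟩ := by
  obtain ⟨t, ht, h⟩ := h
  obtain ⟨v', hv⟩ := code_correct (h.restrict (bd_le P).2.2.1) P.prog
    (fun l => .inr (.inr (.inl l))) (.inr (.inl (P.r P.c1).entry)) (fun l => rfl) v
  exact ⟨t, ht, v', reach_of_steps t _ _ hv (by simp)⟩

theorem reach_ct {s s' : ℕ → List Bool} {m : ℕ} (h : Runs P.ct s s' m) (v : Option Bool) :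
    ∃ t ≤ m, ∃ v', P.toOracle.Reach A t
      ⟨some (.inr (.inr (.inr (.inl (P.r P.ct).entry)))), v, rs P s⟩
      ⟨some (.inr (.inl (P.r P.c1).entry)), v', rs P s'⟩ := by
  obtain ⟨t, ht, h⟩ := h
  obtain ⟨v', hv⟩ := code_correct (h.restrict (bd_le P).2.2.2) P.prog
    (fun l => .inr (.inr (.inr (.inl l)))) (.inr (.inl (P.r P.c1).entry)) (fun l => rfl) v
  exact ⟨t, ht, v', reach_of_steps t _ _ hv (by simp)⟩

/-- the test: final answer -/
theorem reach_done (s : ℕ → List Bool) (v : Option Bool) {y : List Bool} (h : s 0 = false :: y) :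
    ∃ v', P.toOracle.Reach A 1 ⟨some (.inr (.inr (.inr (.inr 0)))), v, rs P s⟩
      ⟨none, v', rs P (Function.update s 0 y)⟩ := by
  refine ⟨some false, OracleTM.Reach.one ?_⟩
  rw [rs_update_zero]
  have e : rs P s 0 = false :: y := h
  change some (TM2.stepAux (P.prog (.inr (.inr (.inr (.inr 0))))) v (rs P s)) = _
  have e2 : P.prog (.inr (.inr (.inr (.inr 0)))) =
      TM2.Stmt.pop 0 (fun _ a => a) (TM2.Stmt.branch (fun v => v == some true)
        (TM2.Stmt.goto fun _ => .inr (.inr (.inr (.inr 1)))) TM2.Stmt.halt) := rfl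
  rw [e2]
  simp only [TM2.stepAux, e, List.head?_cons, List.tail_cons, beq_self_eq_true, cond_true,
    Option.some.injEq]
  rfl

/-- the test: query -/
theorem reach_more (s : ℕ → List Bool) (v : Option Bool) {y : List Bool} (h : s 0 = true :: y) :
    ∃ v', P.toOracle.Reach A 1 ⟨some (.inr (.inr (.inr (.inr 0)))), v, rs P s⟩
      ⟨some (.inr (.inr (.inr (.inr 1)))), v', rs P (Function.update s 0 y)⟩ := by
  refine ⟨some true, OracleTM.Reach.one ?_⟩
  rw [rs_update_zero]
  have e : rs P s 0 = true :: y := h
  change some (TM2.stepAux (P.prog (.inr (.inr (.inr (.inr 0))))) v (rs P s)) = _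
  have e2 : P.prog (.inr (.inr (.inr (.inr 0)))) =
      TM2.Stmt.pop 0 (fun _ a => a) (TM2.Stmt.branch (fun v => v == some true)
        (TM2.Stmt.goto fun _ => .inr (.inr (.inr (.inr 1)))) TM2.Stmt.halt) := rfl
  rw [e2]
  simp only [TM2.stepAux, e, List.head?_cons, List.tail_cons, beq_self_eq_true, cond_true,
    Option.some.injEq]
  rfl

open Classical in
/-- the query -/
theorem reach_ask (s : ℕ → List Bool) (v : Option Bool) :
    P.toOracle.Reach A 1 ⟨some (.inr (.inr (.inr (.inr 1)))), v, rs P s⟩
      ⟨some (.inr (.inr (.inr (.inr 2)))), v,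
        rs P (Function.update s 0 [decide (s 0 ∈ A)])⟩ := by
  refine OracleTM.Reach.one ?_
  rw [rs_update_zero]
  rfl

/-- after the query -/
theorem reach_after_true (s : ℕ → List Bool) (v : Option Bool) (h : s 0 = [true]) :
    ∃ v', P.toOracle.Reach A 1 ⟨some (.inr (.inr (.inr (.inr 2)))), v, rs P s⟩
      ⟨some (.inr (.inr (.inr (.inl (P.r P.ct).entry)))), v', rs P (Function.update s 0 [])⟩ := by
  refine ⟨some true, OracleTM.Reach.one ?_⟩
  rw [rs_update_zero]
  have e : rs P s 0 = [true] := h
  change some (TM2.stepAux (P.prog (.inr (.inr (.inr (.inr 2))))) v (rs P s)) = _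
  have e2 : P.prog (.inr (.inr (.inr (.inr 2)))) =
      TM2.Stmt.pop 0 (fun _ a => a) (TM2.Stmt.branch (fun v => v == some true)
        (TM2.Stmt.goto fun _ => .inr (.inr (.inr (.inl (P.r P.ct).entry))))
        (TM2.Stmt.goto fun _ => .inr (.inr (.inl (P.r P.cf).entry)))) := rfl
  rw [e2]
  simp only [TM2.stepAux, e, List.head?_cons, List.tail_cons, beq_self_eq_true, cond_true,
    Option.some.injEq]
  rfl

theorem reach_after_false (s : ℕ → List Bool) (v : Option Bool) (h : s 0 = [false]) :
    ∃ v', P.toOracle.Reach A 1 ⟨some (.inr (.inr (.inr (.inr 2)))), v, rs P s⟩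
      ⟨some (.inr (.inr (.inl (P.r P.cf).entry))), v', rs P (Function.update s 0 [])⟩ := by
  refine ⟨some false, OracleTM.Reach.one ?_⟩
  rw [rs_update_zero]
  have e : rs P s 0 = [false] := h
  change some (TM2.stepAux (P.prog (.inr (.inr (.inr (.inr 2))))) v (rs P s)) = _
  have e2 : P.prog (.inr (.inr (.inr (.inr 2)))) =
      TM2.Stmt.pop 0 (fun _ a => a) (TM2.Stmt.branch (fun v => v == some true)
        (TM2.Stmt.goto fun _ => .inr (.inr (.inr (.inl (P.r P.ct).entry))))
        (TM2.Stmt.goto fun _ => .inr (.inr (.inl (P.r P.cf).entry)))) := rfl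
  rw [e2]
  simp only [TM2.stepAux, e, List.head?_cons, List.tail_cons, beq_self_eq_true, cond_true,
    Option.some.injEq]
  rfl

end Loop

end Pool.Agent.H544R2
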