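import Pool.Agent.H544R2.Walk
import Pool.Agent.H544R2.Univ
import Pool.Agent.NPC.Num

/-!
# The reading of the trie is polynomial-time computable
-/

namespace Pool.Agent.H544R2

theorem bits_cons {n : ℕ} (h : n ≠ 0) : n.bits = (n % 2 == 1) :: (n / 2).bits := by
  have e : n = Nat.bit (n % 2 == 1) (n / 2) := by
    rcases Nat.mod_two_eq_zero_or_one n with h1 | h1
    · rw [h1]; simp [Nat.bit]; omega
    · rw [h1]; simp [Nat.bit]; omega
  conv_lhs => rw [e]
  rw [Nat.bits_append_bit]
  intro h0
  have : n = 1 := by omega
  subst this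
  rfl

theorem ip_zero_right : ∀ (s a : ℕ), ip s a 0 = false
  | 0, _ => rfl
  | s + 1, a => by simp [ip, ip_zero_right s]

theorem ip_eq_foldl (s : ℕ) : ∀ (a r : ℕ) (acc : Bool),
    (((a.bits.zip r.bits).zip (List.replicate s ())).foldl
      (fun acc (p : (Bool × Bool) × Unit) => (acc ^^ (p.1.1 && p.1.2))) acc) =
        (acc ^^ ip s a r) := by
  induction s with
  | zero => intro a r acc; simp [ip]
  | succ s ih =>
    intro a r acc
    by_cases ha : a = 0
    · subst ha; simp [ip_zero_left]
    by_cases hr : r = 0
    · subst hr; simp [ip_zero_right]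
    rw [bits_cons ha, bits_cons hr, List.zip_cons_cons, List.replicate_succ, List.zip_cons_cons,
      List.foldl_cons, ih, ip, Bool.xor_assoc]

theorem sum_eq_valB (g : ℕ → Bool) (l : ℕ) : (∑ i ∈ Finset.range l, if g i then 2 ^ i else 0) =
    NPC.valB ((List.range l).map g) := by
  induction l with
  | zero => rfl
  | succ l ih =>
    rw [Finset.sum_range_succ, ih, List.range_succ, List.map_append, NPC.valB_append]
    simp

theorem count_eq_filter (p : ℕ → Bool) (n : ℕ) :
    Nat.count (fun r => p r = true) n = ((List.range n).filter p).length := by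
  induction n with
  | zero => rfl
  | succ n ih =>
    rw [Nat.count_succ, ih, List.range_succ, List.filter_append, List.length_append]
    by_cases h : p n = true
    · simp [h]
    · simp [h]

theorem two_pow_size_le {n : ℕ} (h : 0 < n) : 2 ^ n.size ≤ 2 * n := by
  have h1 : 0 < n.size := Nat.size_pos.2 h
  have h2 : n.size - 1 < n.size := by omega
  have h3 := Nat.lt_size.1 h2
  calc 2 ^ n.size = 2 ^ (n.size - 1 + 1) := by congr 1; omega
    _ = 2 * 2 ^ (n.size - 1) := by rw [pow_succ]; ring
    _ ≤ 2 * n := by omega

/-- a polynomial bounding the block size -/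
noncomputable def bPol : Polynomial ℕ :=
  Polynomial.C 4 * (Polynomial.C 128 * (Polynomial.X + Polynomial.C 2)) ^ 2

theorem bR_le (d : ℕ) : bR d ≤ bPol.eval d := by
  have h1 : 2 ^ lam d ≤ 128 * (d + 2) := by
    have := two_pow_size_le (n := 64 * (d + 2)) (by omega)
    unfold lam
    omega
  have h2 : bR d = 4 * (2 ^ lam d) ^ 2 := by
    unfold bR ex
    rw [pow_add, two_mul, pow_add]
    ring
  rw [h2]
  simp only [bPol, Polynomial.eval_mul, Polynomial.eval_C, Polynomial.eval_pow,
    Polynomial.eval_add, Polynomial.eval_X]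
  exact Nat.mul_le_mul_left _ (Nat.pow_le_pow_left h1 2)

/-- the table of marks given by the answers from position `off` on -/
def tb (ans : List Bool) (off : ℕ) (j : ℕ) : Bool := !(ans.getD (off + j) false)

/-- The state of the reader: depth and level in unary, start address, offset. -/
abbrev RS : Type := List Unit × List Unit × ℕ × ℕ

/-- the next state of the reader after a child at level `l` has been read -/
def rnext (ans : List Bool) (s : RS) (b : Bool) (l : ℕ) : RS :=
  (() :: s.1, List.replicate (min l (top (s.1.length + 1))) (),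
    ptr s.1.length (tb ans s.2.2.2) b (min l (top (s.1.length + 1))), s.2.2.2 + rD s.1.length)

/-- the next query of the reader -/
def rquery (ans : List Bool) (s : RS) : List Bool :=
  true :: false :: false :: fb s.2.1.length (s.2.2.1 + (ans.length - s.2.2.2))

/-- one step of the reader -/
def rstep (ans : List Bool) (s : RS) (b : Bool) : RS ⊕ List Bool :=
  if ans.length < s.2.2.2 + rD s.1.length then
    Sum.inr (rquery ans s)
  else
    match levOf s.1.length (tb ans s.2.2.2) b with
    | none => Sum.inr [false, false]
    | some l => Sum.inl (rnext ans s b l)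

/-- one step of the reader, extended to finished states -/
def rstep' (ans : List Bool) (s : RS ⊕ List Bool) (b : Bool) : RS ⊕ List Bool :=
  match s with
  | Sum.inl s => rstep ans s b
  | Sum.inr y => Sum.inr y

/-- the output of the reader -/
def rout (s : RS ⊕ List Bool) : List Bool :=
  match s with
  | Sum.inl _ => [false, true]
  | Sum.inr y => y

/-- the output of the reader on the path `p` -/
def reader (p ans : List Bool) : List Bool :=
  rout (p.foldl (rstep' ans) (Sum.inl ([], List.replicate 64 (), 0, 0)))

end Pool.Agent.H544R2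

namespace Pool.Agent.NPC

open Pool.Agent.H544R2 (lam ex bR rD top sym ip valid pres levOf ptr tb fb rstep rstep' rout reader
  rnext rquery
  bPol bR_le ip_eq_foldl sum_eq_valB count_eq_filter RS)

namespace Poly

variable {α : Type} [TEnc α]

theorem pow_size {n : α → ℕ} (hn : Poly n) : Poly (fun a => 2 ^ (n a).size) := by
  have h1 : Poly (fun a => valB ((n a).bits.map (fun _ => false) ++ [true])) :=
    valBits (append (map (F := fun _ _ => false) (natBits hn) (const false)) (const [true]))
  refine h1.congr fun a => ?_
  rw [List.map_const', valB_replicate_false, Nat.size_eq_bits_len]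
  simp

theorem pow_lam {d : α → ℕ} (hd : Poly d) : Poly (fun a => 2 ^ lam (d a)) :=
  pow_size (mul (const 64) (add hd (const 2)))

theorem h_bR {d : α → ℕ} (hd : Poly d) : Poly (fun a => bR (d a)) := by
  refine (mul (const 4) (mul (pow_lam hd) (pow_lam hd))).congr fun a => ?_
  unfold bR ex
  rw [pow_add, two_mul, pow_add]
  ring

theorem h_rD {d : α → ℕ} (hd : Poly d) : Poly (fun a => rD (d a)) := mul (h_bR hd) (h_bR hd)

theorem u_bR {d : α → ℕ} (hd : UPoly d) : UPoly (fun a => bR (d a)) :=
  UPoly.of_le (h_bR hd.toPoly) (UPoly.eval hd bPol) (fun a => bR_le (d a))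

theorem h_size {n : α → ℕ} (hn : Poly n) : UPoly (fun a => (n a).size) :=
  (UPoly.length (natBits hn)).congr fun a => by
    change List.replicate (n a).bits.length () = List.replicate (n a).size ()
    rw [Nat.size_eq_bits_len]

theorem u_ex {d : α → ℕ} (hd : Poly d) : UPoly (fun a => ex (d a)) :=
  UPoly.add (UPoly.mul (UPoly.const 2) (h_size (mul (const 64) (add hd (const 2)))))
    (UPoly.const 2)

theorem h_toNat {b : α → Bool} (hb : Poly b) : Poly (fun a => (b a).toNat) :=
  (cond hb (const 1) (const 0)).congr fun a => by cases b a <;> rfl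

theorem h_sym {d l i : α → ℕ} {b : α → Bool} (hd : Poly d) (hb : Poly b) (hl : Poly l)
    (hi : Poly i) : Poly (fun a => sym (d a) (b a) (l a) (i a)) :=
  add (add (const 1) (h_toNat hb)) (mul (const 2) (add hl (mul (pow_lam hd) hi)))

theorem h_ip {s x r : α → ℕ} (hs : UPoly s) (hx : Poly x) (hr : Poly r) :
    Poly (fun a => ip (s a) (x a) (r a)) := by
  have h1 : Poly (fun a => (((x a).bits.zip (r a).bits).zip (List.replicate (s a) ())).foldl
      (fun acc (p : (Bool × Bool) × Unit) => (acc ^^ (p.1.1 && p.1.2))) false) := by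
    refine foldl (F := fun _ acc (p : (Bool × Bool) × Unit) => (acc ^^ (p.1.1 && p.1.2)))
      (zip (zip (natBits hx) (natBits hr)) hs) (const false)
      (xor (fst (snd id)) (and (fst (fst (snd (snd id)))) (snd (fst (snd (snd id))))))
      (Polynomial.C 3) fun a k _ => ?_
    rw [Polynomial.eval_C]
    exact sz_bool_le _
  refine h1.congr fun a => ?_
  rw [ip_eq_foldl, Bool.false_xor]

theorem h_tb {ans : α → List Bool} {off j : α → ℕ} (hans : Poly ans) (hoff : Poly off)
    (hj : Poly j) : Poly (fun a => tb (ans a) (off a) (j a)) :=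
  not (getD hans (add hoff hj) (const false))

theorem h_valid {ans : α → List Bool} {off d k x : α → ℕ} (hans : Poly ans) (hoff : Poly off)
    (hd : UPoly d) (hk : Poly k) (hx : Poly x) :
    Poly (fun a => valid (d a) (tb (ans a) (off a)) (k a) (x a)) := by
  have h1 : Poly (fun a => decide (8 * ((List.range (bR (d a))).filter (fun r =>
      (tb (ans a) (off a) (k a * bR (d a) + r) ^^ ip (ex (d a)) (x a) r))).length < bR (d a))) := by
    refine decide_lt (mul (const 8) (length (filter (p := fun a r =>
      (tb (ans a) (off a) (k a * bR (d a) + r) ^^ ip (ex (d a)) (x a) r))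
        (u_bR hd).range ?_))) (h_bR hd.toPoly)
    have hf : Poly (fun p : α × ℕ => p.1) := fst id
    exact xor (h_tb (hans.comp hf) (hoff.comp hf) (add (mul (hk.comp hf)
      ((h_bR hd.toPoly).comp hf)) (snd id))) (h_ip ((u_ex hd.toPoly).comp hf) (hx.comp hf)
        (snd id))
  refine h1.congr fun a => ?_
  unfold valid
  rw [← count_eq_filter]
  have key : ∀ r, ((tb (ans a) (off a) (k a * bR (d a) + r) ^^ ip (ex (d a)) (x a) r) = true ↔
      tb (ans a) (off a) (k a * bR (d a) + r) ≠ ip (ex (d a)) (x a) r) := by
    intro r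
    cases tb (ans a) (off a) (k a * bR (d a) + r) <;> cases ip (ex (d a)) (x a) r <;> simp
  have e : Nat.count (fun r => (tb (ans a) (off a) (k a * bR (d a) + r) ^^
      ip (ex (d a)) (x a) r) = true) (bR (d a)) = Nat.count (fun r =>
      tb (ans a) (off a) (k a * bR (d a) + r) ≠ ip (ex (d a)) (x a) r) (bR (d a)) :=
    le_antisymm (Nat.count_mono_left fun r _ h => (key r).1 h)
      (Nat.count_mono_left fun r _ h => (key r).2 h)
  rw [e]

theorem h_pres {ans : α → List Bool} {off d x : α → ℕ} (hans : Poly ans) (hoff : Poly off)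
    (hd : UPoly d) (hx : Poly x) :
    Poly (fun a => pres (d a) (tb (ans a) (off a)) (x a)) := by
  have hf : Poly (fun p : α × ℕ => p.1) := fst id
  exact any (p := fun a k => valid (d a) (tb (ans a) (off a)) k (x a)) (u_bR hd).range
    (h_valid (hans.comp hf) (hoff.comp hf) (hd.comp hf) (snd id) (hx.comp hf))

theorem u_top {d : α → ℕ} (hd : UPoly d) : UPoly (fun a => top (d a)) :=
  UPoly.mul (UPoly.const 64) (UPoly.add hd (UPoly.const 1))

theorem h_levOf {ans : α → List Bool} {off d : α → ℕ} {b : α → Bool} (hans : Poly ans)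
    (hoff : Poly off) (hd : UPoly d) (hb : Poly b) :
    Poly (fun a => levOf (d a) (tb (ans a) (off a)) (b a)) := by
  have hf : Poly (fun p : α × ℕ => p.1) := fst id
  have h1 : Poly (fun a => ((List.range (top (d a + 1) + 1)).filter (fun l =>
      pres (d a) (tb (ans a) (off a)) (sym (d a) (b a) l l))).head?) :=
    head? (filter (p := fun a l => pres (d a) (tb (ans a) (off a)) (sym (d a) (b a) l l))
      (UPoly.add (u_top (UPoly.add hd (UPoly.const 1))) (UPoly.const 1)).range
      (h_pres (hans.comp hf) (hoff.comp hf) (hd.comp hf) (h_sym (hd.toPoly.comp hf) (hb.comp hf)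
        (snd id) (snd id))))
  refine h1.congr fun a => ?_
  unfold levOf
  rw [List.head?_filter]

theorem h_ptr {ans : α → List Bool} {off d l : α → ℕ} {b : α → Bool} (hans : Poly ans)
    (hoff : Poly off) (hd : UPoly d) (hb : Poly b) (hl : UPoly l) :
    Poly (fun a => ptr (d a) (tb (ans a) (off a)) (b a) (l a)) := by
  have hf : Poly (fun p : α × ℕ => p.1) := fst id
  have h1 : Poly (fun a => valB ((List.range (l a)).map (fun i =>
      pres (d a) (tb (ans a) (off a)) (sym (d a) (b a) (l a) i)))) :=
    valBits (map (F := fun a i => pres (d a) (tb (ans a) (off a)) (sym (d a) (b a) (l a) i))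
      hl.range (h_pres (hans.comp hf) (hoff.comp hf) (hd.comp hf) (h_sym (hd.toPoly.comp hf)
        (hb.comp hf) (hl.toPoly.comp hf) (snd id))))
  refine h1.congr fun a => ?_
  rw [← sum_eq_valB]
  rfl

theorem h_take {β : Type} [TEnc β] {l : α → List β} {n : α → ℕ} (hl : Poly l) (hn : UPoly n) :
    Poly (fun a => (l a).take (n a)) := by
  have h1 : Poly (fun a => ((l a).zip (List.replicate (n a) ())).map (fun p => p.1)) :=
    map (F := fun _ (p : β × Unit) => p.1) (zip hl hn) (fst (snd id))
  refine h1.congr fun a => ?_
  generalize l a = l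
  generalize n a = n
  induction l generalizing n with
  | nil => simp
  | cons b l ih =>
    cases n with
    | zero => simp
    | succ n => rw [List.replicate_succ, List.zip_cons_cons, List.map_cons, ih,
        List.take_succ_cons]

theorem h_fb {L j : α → ℕ} (hL : UPoly L) (hj : Poly j) : Poly (fun a => fb (L a) (j a)) :=
  h_take (append (natBits hj) ((map (F := fun _ _ => false) hL (const false)).congr
    fun a => by rw [List.map_const', List.length_replicate])) hL

theorem min_u {l m : α → ℕ} (hl : Poly l) (hm : UPoly m) : UPoly (fun a => Min.min (l a) (m a)) :=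
  UPoly.of_le (min hl hm.toPoly) hm (fun _ => min_le_right _ _)

theorem h_rnext {ans : α → List Bool} {s : α → RS} {b : α → Bool} {l : α → ℕ} (hans : Poly ans)
    (hs : Poly s) (hb : Poly b) (hl : Poly l) :
    Poly (fun a => rnext (ans a) (s a) (b a) (l a)) := by
  have hd : UPoly (fun a => (s a).1.length) := UPoly.length (fst hs)
  have hoff : Poly (fun a => (s a).2.2.2) := snd (snd (snd hs))
  have hm : UPoly (fun a => Min.min (l a) (top ((s a).1.length + 1))) :=
    min_u hl (u_top (UPoly.add hd (UPoly.const 1)))
  have h1 : Poly (fun a => ptr (s a).1.length (tb (ans a) (s a).2.2.2) (b a)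
      (Min.min (l a) (top ((s a).1.length + 1)))) := h_ptr hans hoff hd hb hm
  have h2 : Poly (fun a => (s a).2.2.2 + rD (s a).1.length) := add hoff (h_rD hd.toPoly)
  have h3 : Poly (fun a => () :: (s a).1) := cons (const ()) (fst hs)
  exact pair h3 (pair hm (pair h1 h2))

theorem h_rquery {ans : α → List Bool} {s : α → RS} (hans : Poly ans) (hs : Poly s) :
    Poly (fun a => rquery (ans a) (s a)) := by
  have hL : UPoly (fun a => (s a).2.1.length) := UPoly.length (fst (snd hs))
  have hst : Poly (fun a => (s a).2.2.1) := fst (snd (snd hs))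
  have hoff : Poly (fun a => (s a).2.2.2) := snd (snd (snd hs))
  exact cons (const true) (cons (const false) (cons (const false)
    (h_fb hL (add hst (sub (length hans) hoff)))))

attribute [local irreducible] rquery rnext levOf tb rD

theorem h_rstep {ans : α → List Bool} {s : α → RS} {b : α → Bool} (hans : Poly ans)
    (hs : Poly s) (hb : Poly b) : Poly (fun a => rstep (ans a) (s a) (b a)) := by
  have hd : UPoly (fun a => (s a).1.length) := UPoly.length (fst hs)
  have hoff : Poly (fun a => (s a).2.2.2) := snd (snd (snd hs))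
  have hf : Poly (fun p : α × ℕ => p.1) := fst id
  have h1 : Poly (fun a => (Sum.inr (rquery (ans a) (s a)) : RS ⊕ List Bool)) :=
    inr (h_rquery hans hs)
  have h2 : Poly (fun _ : α => (Sum.inr [false, false] : RS ⊕ List Bool)) := const _
  have h3 : Poly (fun p : α × ℕ =>
      (Sum.inl (rnext (ans p.1) (s p.1) (b p.1) p.2) : RS ⊕ List Bool)) :=
    inl (h_rnext (hans.comp hf) (hs.comp hf) (hb.comp hf) (snd id))
  have h4 := optCases (h := fun a l => (Sum.inl (rnext (ans a) (s a) (b a) l) : RS ⊕ List Bool))
      (h_levOf hans hoff hd hb) h2 h3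
  refine (ite (decide_lt (length hans) (add hoff (h_rD hd.toPoly))) h1 h4).congr fun a => ?_
  unfold rstep
  cases levOf (s a).1.length (tb (ans a) (s a).2.2.2) (b a) <;> rfl

end Poly

end Pool.Agent.NPC
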