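import Mathlib

/-!
# Parameters of the robust trie, and the Hadamard code
-/

namespace Pool.Agent.H544R2

/-- bit length used for one coordinate of a symbol at depth `d` -/
def lam (d : ℕ) : ℕ := Nat.size (64 * (d + 2))

/-- exponent of the block size at depth `d` -/
def ex (d : ℕ) : ℕ := 2 * lam d + 2

/-- block size (and number of blocks of a region) at depth `d` -/
def bR (d : ℕ) : ℕ := 2 ^ ex d

/-- region size at depth `d` -/
def rD (d : ℕ) : ℕ := bR d * bR d

/-- the level at which nodes of depth `d` are first placed -/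
def top (d : ℕ) : ℕ := 64 * (d + 1)

/-- The symbol number of the piece `(b, l, i)` of a node at depth `d`. -/
def sym (d : ℕ) (b : Bool) (l i : ℕ) : ℕ := 1 + b.toNat + 2 * (l + 2 ^ lam d * i)

theorem lam_lt (d : ℕ) : 64 * (d + 2) < 2 ^ lam d := Nat.size_le.1 le_rfl

theorem lam_le (d : ℕ) : lam d ≤ d + 9 := by
  refine Nat.size_le.2 ?_
  have h : d + 2 < 2 ^ (d + 2) := Nat.lt_two_pow_self
  have e : 2 ^ (d + 9) = 2 * (64 * 2 ^ (d + 2)) := by
    rw [show d + 9 = (d + 2) + 7 by ring, pow_add]; ring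
  rw [e]
  omega

theorem bR_pos (d : ℕ) : 0 < bR d := by unfold bR; positivity

theorem rD_pos (d : ℕ) : 0 < rD d := Nat.mul_pos (bR_pos d) (bR_pos d)

theorem sixteen_le_bR (d : ℕ) : 16 ≤ bR d := by
  have h : 1 ≤ lam d := by
    have h2 := lam_lt d
    by_contra hc
    have h3 : lam d = 0 := by omega
    rw [h3] at h2
    simp at h2
  have : ex d = (ex d - 4) + 4 := by unfold ex; omega
  unfold bR
  rw [this, pow_add]
  have : 1 ≤ 2 ^ (ex d - 4) := Nat.one_le_two_pow
  omega

theorem four_pow_rD_le (d : ℕ) : 4 * (2 ^ d * rD d) ≤ 2 ^ top d := by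
  have h := lam_le d
  have e : 4 * (2 ^ d * rD d) = 2 ^ (2 + d + 2 * ex d) := by
    unfold rD bR
    rw [pow_add, pow_add, two_mul, pow_add]
    ring
  rw [e]
  apply Nat.pow_le_pow_right (by norm_num)
  unfold ex top
  omega

theorem sym_pos (d : ℕ) (b : Bool) (l i : ℕ) : 0 < sym d b l i := by unfold sym; omega

theorem sym_lt {d : ℕ} (b : Bool) {l i : ℕ} (hl : l < 2 ^ lam d) (hi : i < 2 ^ lam d) :
    sym d b l i < 2 ^ ex d := by
  unfold sym
  have e : 2 ^ ex d = 4 * (2 ^ lam d * 2 ^ lam d) := by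
    unfold ex; rw [pow_add, two_mul, pow_add]; ring
  rw [e]
  have hb : b.toNat ≤ 1 := Bool.toNat_le b
  have h1 : l + 2 ^ lam d * i < 2 ^ lam d * 2 ^ lam d := by
    calc l + 2 ^ lam d * i < 2 ^ lam d + 2 ^ lam d * i := by omega
      _ = 2 ^ lam d * (i + 1) := by ring
      _ ≤ 2 ^ lam d * 2 ^ lam d := Nat.mul_le_mul_left _ hi
  omega

theorem sym_le {d : ℕ} (b : Bool) {l i : ℕ} (hl : l < 2 ^ lam d) (hi : i < 2 ^ lam d) :
    2 * (sym d b l i) ≤ bR d := by
  unfold sym bR
  have e : 2 ^ ex d = 4 * (2 ^ lam d * 2 ^ lam d) := by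
    unfold ex; rw [pow_add, two_mul, pow_add]; ring
  rw [e]
  have hb : b.toNat ≤ 1 := Bool.toNat_le b
  have h1 : l + 2 ^ lam d * i < 2 ^ lam d * 2 ^ lam d := by
    calc l + 2 ^ lam d * i < 2 ^ lam d + 2 ^ lam d * i := by omega
      _ = 2 ^ lam d * (i + 1) := by ring
      _ ≤ 2 ^ lam d * 2 ^ lam d := Nat.mul_le_mul_left _ hi
  omega

theorem sym_inj {d : ℕ} {b b' : Bool} {l l' i i' : ℕ} (hl : l < 2 ^ lam d) (hl' : l' < 2 ^ lam d)
    (h : sym d b l i = sym d b' l' i') : b = b' ∧ l = l' ∧ i = i' := by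
  unfold sym at h
  have hb : b.toNat ≤ 1 := Bool.toNat_le b
  have hb' : b'.toNat ≤ 1 := Bool.toNat_le b'
  have h1 : b.toNat = b'.toNat := by omega
  have h2 : l + 2 ^ lam d * i = l' + 2 ^ lam d * i' := by omega
  have hbb : b = b' := by cases b <;> cases b' <;> simp_all
  have h3 : l = l' := by
    have := congrArg (· % 2 ^ lam d) h2
    simpa [Nat.add_mul_mod_self_left, Nat.mod_eq_of_lt hl, Nat.mod_eq_of_lt hl'] using this
  subst h3
  have h4 : 2 ^ lam d * i = 2 ^ lam d * i' := by omega
  exact ⟨hbb, rfl, Nat.eq_of_mul_eq_mul_left (by positivity) h4⟩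

/-- Inner product of the first `s` binary digits, modulo 2. -/
def ip : ℕ → ℕ → ℕ → Bool
  | 0, _, _ => false
  | s + 1, a, r => ((a % 2 == 1) && (r % 2 == 1)) ^^ ip s (a / 2) (r / 2)

theorem ip_zero_left : ∀ (s r : ℕ), ip s 0 r = false
  | 0, _ => rfl
  | s + 1, r => by simp [ip, ip_zero_left s]

/-- Number of places `r < 2 ^ s` where two words differ. -/
def dist (s : ℕ) (f g : ℕ → Bool) : ℕ := Nat.count (fun r => f r ≠ g r) (2 ^ s)

theorem count_double (p : ℕ → Prop) [DecidablePred p] (n : ℕ) :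
    Nat.count p (2 * n) = Nat.count (fun q => p (2 * q)) n + Nat.count (fun q => p (2 * q + 1)) n := by
  induction n with
  | zero => simp
  | succ n ih =>
    rw [show 2 * (n + 1) = (2 * n + 1) + 1 by ring, Nat.count_succ, Nat.count_succ, ih,
      Nat.count_succ, Nat.count_succ]
    ring

theorem count_not (p : ℕ → Prop) [DecidablePred p] (n : ℕ) :
    Nat.count (fun q => ¬ p q) n + Nat.count p n = n := by
  induction n with
  | zero => simp
  | succ n ih =>
    rw [Nat.count_succ, Nat.count_succ]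
    by_cases h : p n <;> simp [h] <;> omega

/-- Distinct codewords of the Hadamard code differ in exactly half of the places. -/
theorem ip_dist : ∀ (s a b : ℕ), a < 2 ^ s → b < 2 ^ s → a ≠ b →
    2 * Nat.count (fun r => ip s a r ≠ ip s b r) (2 ^ s) = 2 ^ s
  | 0, a, b, ha, hb, hab => by simp at ha hb; omega
  | s + 1, a, b, ha, hb, hab => by
    rw [pow_succ] at ha hb
    rw [show 2 ^ (s + 1) = 2 * 2 ^ s by ring, count_double]
    have e0 : ∀ q, (2 * q) % 2 = 0 := fun q => by omega
    have e1 : ∀ q, (2 * q + 1) % 2 = 1 := fun q => by omega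
    have e2 : ∀ q, (2 * q) / 2 = q := fun q => by omega
    have e3 : ∀ q, (2 * q + 1) / 2 = q := fun q => by omega
    by_cases h : a / 2 = b / 2
    · have hne : a % 2 ≠ b % 2 := fun h' => hab (by omega)
      have c0 : Nat.count (fun q => ip (s + 1) a (2 * q) ≠ ip (s + 1) b (2 * q)) (2 ^ s) = 0 := by
        rw [Nat.count_eq_card_filter_range, Finset.card_eq_zero, Finset.filter_eq_empty_iff]
        intro q _
        simp [ip, e0, e2, h]
      have c1 : Nat.count (fun q => ip (s + 1) a (2 * q + 1) ≠ ip (s + 1) b (2 * q + 1)) (2 ^ s)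
          = 2 ^ s := by
        have : Nat.count (fun q => ¬ (ip (s + 1) a (2 * q + 1) ≠ ip (s + 1) b (2 * q + 1)))
            (2 ^ s) = 0 := by
          rw [Nat.count_eq_card_filter_range, Finset.card_eq_zero, Finset.filter_eq_empty_iff]
          intro q _
          have ha2 : a % 2 = 0 ∨ a % 2 = 1 := by omega
          have hb2 : b % 2 = 0 ∨ b % 2 = 1 := by omega
          rcases ha2 with ha2 | ha2 <;> rcases hb2 with hb2 | hb2 <;>
            simp [ip, e1, e3, h, ha2, hb2] at hne ⊢
        have h2 := count_not (fun q => ip (s + 1) a (2 * q + 1) ≠ ip (s + 1) b (2 * q + 1)) (2 ^ s)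
        omega
      rw [c0, c1]; ring
    · have ih := ip_dist s (a / 2) (b / 2) (by omega) (by omega) h
      have c0 : Nat.count (fun q => ip (s + 1) a (2 * q) ≠ ip (s + 1) b (2 * q)) (2 ^ s) =
          Nat.count (fun r => ip s (a / 2) r ≠ ip s (b / 2) r) (2 ^ s) := by
        congr 1
        funext q
        simp [ip, e0, e2]
      have c1 : 2 * Nat.count (fun q => ip (s + 1) a (2 * q + 1) ≠ ip (s + 1) b (2 * q + 1)) (2 ^ s)
          = 2 ^ s := by
        by_cases hp : (a % 2 == 1) = (b % 2 == 1)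
        · have : Nat.count (fun q => ip (s + 1) a (2 * q + 1) ≠ ip (s + 1) b (2 * q + 1)) (2 ^ s)
            = Nat.count (fun r => ip s (a / 2) r ≠ ip s (b / 2) r) (2 ^ s) := by
            congr 1
            funext q
            simp [ip, e1, e3, hp]
          rw [this, ih]
        · have : Nat.count (fun q => ip (s + 1) a (2 * q + 1) ≠ ip (s + 1) b (2 * q + 1)) (2 ^ s)
            = Nat.count (fun r => ¬ (ip s (a / 2) r ≠ ip s (b / 2) r)) (2 ^ s) := by
            congr 1
            funext q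
            have : ∀ x y u v : Bool, x ≠ y → (((x ^^ u) ≠ (y ^^ v)) = (¬ (u ≠ v))) := by decide
            simpa [ip, e1, e3] using this _ _ _ _ hp
          have h2 := count_not (fun r => ip s (a / 2) r ≠ ip s (b / 2) r) (2 ^ s)
          rw [this]
          omega
      rw [c0]
      omega

/-- A nonzero codeword has exactly half of its places equal to `true`. -/
theorem ip_weight {s a : ℕ} (ha : a < 2 ^ s) (h0 : 0 < a) :
    2 * Nat.count (fun r => ip s a r = true) (2 ^ s) = 2 ^ s := by
  have h := ip_dist s a 0 ha (by positivity) (by omega)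
  simpa [ip_zero_left] using h

end Pool.Agent.H544R2
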