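import Pool.Agent.H544R2.Walk

/-!
# The strategy is primitive recursive
-/

namespace Pool.Agent.H544R2

open Primrec

section Gen

variable {α β σ : Type*} [Primcodable α] [Primcodable β] [Primcodable σ]

theorem prim_exists_mem {l : α → List β} {p : α → β → Prop} (hl : Primrec l)
    (hp : PrimrecRel p) : PrimrecPred fun a => ∃ b ∈ l a, p a b := by
  have h : PrimrecRel (fun (b : β) (a : α) => p a b) := hp.comp₂ Primrec₂.right Primrec₂.left
  exact (PrimrecRel.exists_mem_list h).comp hl Primrec.id

theorem prim_exists_lt {n : α → ℕ} {p : α → ℕ → Prop} (hn : Primrec n)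
    (hp : PrimrecRel p) : PrimrecPred fun a => ∃ k < n a, p a k :=
  (prim_exists_mem (list_range.comp hn) hp).of_eq fun a => by simp

theorem prim_count {n : α → ℕ} {p : α → ℕ → Prop} [∀ a, DecidablePred (p a)] (hn : Primrec n)
    (hp : PrimrecRel p) : Primrec fun a => Nat.count (p a) (n a) := by
  have hp' : Primrec₂ (fun a k => decide (p a k)) := PrimrecRel.decide (R := p) hp
  refine (Primrec.nat_rec' (h := fun a (x : ℕ × ℕ) => x.2 + bif decide (p a x.1) then 1 else 0)
    hn (Primrec.const 0) ?_).of_eq fun a => ?_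
  · exact Primrec.nat_add.comp (snd.comp snd) (Primrec.cond (hp'.comp fst (fst.comp snd))
      (Primrec.const 1) (Primrec.const 0))
  · induction n a with
    | zero => simp
    | succ k ih =>
      rw [Nat.count_succ, ← ih]
      by_cases h : p a k <;> simp [h]

theorem lookup_congr {α' β' : Type*} (i1 i2 : BEq α') (h1 : @LawfulBEq α' i1)
    (h2 : @LawfulBEq α' i2) (k : α') (l : List (α' × β')) :
    @List.lookup α' β' i1 k l = @List.lookup α' β' i2 k l := by
  induction l with
  | nil => rfl
  | cons x l ih =>
    rw [@List.lookup_cons, @List.lookup_cons, ih]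
    have : (@BEq.beq α' i1 k x.1) = (@BEq.beq α' i2 k x.1) := by
      rw [Bool.eq_iff_iff, @beq_iff_eq _ i1, @beq_iff_eq _ i2]
    rw [this]

theorem prim_lookup [i1 : BEq α] [h1 : LawfulBEq α] {k : σ → α} {l : σ → List (α × β)}
    (hk : Primrec k) (hl : Primrec l) : Primrec (fun x => (l x).lookup (k x)) := by
  classical
  exact (Primrec.listLookup.comp hk hl).of_eq fun x => lookup_congr _ _ inferInstance h1 _ _

theorem nat_pow : Primrec₂ (fun (a b : ℕ) => a ^ b) := by
  have := Nat.Primrec.pow
  exact Primrec₂.unpaired'.1 this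

theorem nat_size : Primrec Nat.size := by
  have h : Primrec fun n : ℕ => (List.range (n + 1)).findIdx (fun k => decide (n < 2 ^ k)) :=
    list_findIdx (list_range.comp succ) (PrimrecRel.decide
      (Primrec.nat_lt.comp fst (nat_pow.comp (Primrec.const 2) snd)))
  refine h.of_eq fun n => ?_
  have h1 : (List.range (n + 1)).findIdx (fun k => decide (n < 2 ^ k)) < n + 1 := by
    have : (List.range (n + 1)).findIdx (fun k => decide (n < 2 ^ k)) <
        (List.range (n + 1)).length := by
      apply List.findIdx_lt_length_of_exists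
      exact ⟨n, List.mem_range.2 (Nat.lt_succ_self n), decide_eq_true Nat.lt_two_pow_self⟩
    rwa [List.length_range] at this
  have h2 := findIdx_range h1
  simp only [decide_eq_true_eq] at h2
  apply le_antisymm
  · by_contra hc
    push Not at hc
    have h3 := List.not_of_lt_findIdx hc
    rw [List.getElem_range] at h3
    have h4 : n < 2 ^ n.size := Nat.size_le.1 le_rfl
    simp [h4] at h3
  · exact Nat.size_le.2 h2

end Gen

theorem prim_lam : Primrec lam :=
  nat_size.comp (Primrec.nat_mul.comp (Primrec.const 64) (Primrec.nat_add.comp Primrec.id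
    (Primrec.const 2)))

theorem prim_ex : Primrec ex :=
  Primrec.nat_add.comp (Primrec.nat_mul.comp (Primrec.const 2) prim_lam) (Primrec.const 2)

theorem prim_bR : Primrec bR := nat_pow.comp (Primrec.const 2) prim_ex

theorem prim_rD : Primrec rD := Primrec.nat_mul.comp prim_bR prim_bR

theorem prim_top : Primrec top :=
  Primrec.nat_mul.comp (Primrec.const 64) Primrec.succ

theorem prim_toNat : Primrec Bool.toNat := Primrec.dom_bool _

/-- `sym` as a function of a tuple -/
theorem prim_sym : Primrec (fun x : ℕ × Bool × ℕ × ℕ => sym x.1 x.2.1 x.2.2.1 x.2.2.2) := by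
  unfold sym
  exact Primrec.nat_add.comp (Primrec.nat_add.comp (Primrec.const 1)
    (prim_toNat.comp (fst.comp snd))) (Primrec.nat_mul.comp (Primrec.const 2)
    (Primrec.nat_add.comp (fst.comp (snd.comp snd)) (Primrec.nat_mul.comp
      (nat_pow.comp (Primrec.const 2) (prim_lam.comp fst)) (snd.comp (snd.comp snd)))))

/-- the inner product by iteration -/
def ipStep (x : ℕ × ℕ × Bool) : ℕ × ℕ × Bool :=
  (x.1 / 2, x.2.1 / 2, x.2.2 ^^ ((x.1 % 2 == 1) && (x.2.1 % 2 == 1)))

theorem ipStep_iterate : ∀ (s a r : ℕ) (c : Bool),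
    (ipStep^[s] (a, r, c)).2.2 = (c ^^ ip s a r)
  | 0, a, r, c => by simp [ip]
  | s + 1, a, r, c => by
    rw [Function.iterate_succ_apply]
    simp only [ipStep]
    rw [ipStep_iterate s]
    simp [ip]

theorem prim_mod2 {α : Type*} [Primcodable α] {f : α → ℕ} (hf : Primrec f) :
    Primrec (fun a => (f a % 2 == 1)) :=
  Primrec.beq.comp (Primrec.nat_mod.comp hf (Primrec.const 2)) (Primrec.const 1)

theorem prim_xor : Primrec₂ xor := Primrec.dom_bool₂ _

theorem prim_ipStep : Primrec ipStep := by
  unfold ipStep
  exact Primrec.pair (Primrec.nat_div.comp fst (Primrec.const 2))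
    (Primrec.pair (Primrec.nat_div.comp (fst.comp snd) (Primrec.const 2))
      (prim_xor.comp (snd.comp snd) (Primrec.and.comp (prim_mod2 fst)
        (prim_mod2 (fst.comp snd)))))

theorem prim_ip : Primrec (fun x : ℕ × ℕ × ℕ => ip x.1 x.2.1 x.2.2) := by
  have h : Primrec (fun x : ℕ × ℕ × ℕ => (ipStep^[x.1] (x.2.1, x.2.2, false)).2.2) :=
    (snd.comp snd).comp (Primrec.nat_iterate fst
      (Primrec.pair (fst.comp snd) (Primrec.pair (snd.comp snd) (Primrec.const false)))
      (prim_ipStep.comp snd).to₂)
  exact h.of_eq fun x => by rw [ipStep_iterate]; simp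

theorem prim_mem {α β : Type*} [Primcodable α] [Primcodable β] [DecidableEq β] {f : α → β}
    {l : α → List β} (hf : Primrec f) (hl : Primrec l) : PrimrecPred fun a => f a ∈ l a :=
  (prim_exists_mem (p := fun a b => b = f a) hl
    (Primrec.eq.comp snd (hf.comp fst))).of_eq fun a => by simp

theorem prim_spoiled : PrimrecPred (fun x : Cells × ℕ × ℕ × ℕ =>
    spoiled x.1 x.2.1 x.2.2.1 x.2.2.2) := by
  unfold spoiled
  refine Primrec.nat_le.comp (snd.comp (snd.comp snd)) (Primrec.nat_mul.comp (Primrec.const 8)
    (prim_count (snd.comp (snd.comp snd)) ?_))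
  exact prim_mem (Primrec.pair (fst.comp (snd.comp fst))
    (Primrec.nat_add.comp (fst.comp (snd.comp (snd.comp fst))) snd)) (fst.comp fst)

/-- block `k` of the region `p` of a node of depth `d` is spoiled -/
theorem prim_spoiledB {α : Type*} [Primcodable α] {A : α → Cells} {p : α → ℕ × ℕ} {d k : α → ℕ}
    (hA : Primrec A) (hp : Primrec p) (hd : Primrec d) (hk : Primrec k) :
    PrimrecPred (fun x => spoiled (A x) (p x).1 ((p x).2 + k x * bR (d x)) (bR (d x))) :=
  prim_spoiled.comp (Primrec.pair hA (Primrec.pair (fst.comp hp) (Primrec.pair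
    (Primrec.nat_add.comp (snd.comp hp) (Primrec.nat_mul.comp hk (prim_bR.comp hd)))
    (prim_bR.comp hd))))

theorem prim_spent {α : Type*} [Primcodable α] {A : α → Cells} {p : α → ℕ × ℕ} {d : α → ℕ}
    (hA : Primrec A) (hp : Primrec p) (hd : Primrec d) :
    PrimrecPred (fun x => spent (A x) (p x).1 (p x).2 (d x)) := by
  have h : PrimrecRel (fun (x : α) (k : ℕ) =>
      spoiled (A x) (p x).1 ((p x).2 + k * bR (d x)) (bR (d x))) :=
    prim_spoiledB (α := α × ℕ) (hA.comp fst) (hp.comp fst) (hd.comp fst) snd
  exact Primrec.nat_lt.comp (prim_bR.comp hd) (Primrec.nat_mul.comp (Primrec.const 2)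
    (prim_count (prim_bR.comp hd) h))

theorem prim_vol : Primrec₂ vol := by
  have h : Primrec₂ (fun (al : Alloc) (L : ℕ) => al.foldr (fun e acc =>
      (if e.2.1 = L then rD e.1.length else 0) + acc) 0) := by
    refine Primrec.list_foldr (α := Alloc × ℕ) (f := fun x => x.1) (g := fun _ => 0)
      (h := fun x (p : (List Bool × (ℕ × ℕ)) × ℕ) =>
        (if p.1.2.1 = x.2 then rD p.1.1.length else 0) + p.2) fst (Primrec.const 0) ?_
    refine Primrec.nat_add.comp (Primrec.ite (Primrec.eq.comp
      (fst.comp (snd.comp (fst.comp snd))) (snd.comp fst))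
      (prim_rD.comp (list_length.comp (fst.comp (fst.comp snd)))) (Primrec.const 0))
      (snd.comp snd)
  refine h.of_eq fun al L => ?_
  unfold vol
  induction al with
  | nil => rfl
  | cons e al ih => simp [ih]

theorem prim_create {α : Type*} [Primcodable α] {o : α → Option (List Bool)} {al : α → Alloc}
    (ho : Primrec o) (hal : Primrec al) : Primrec (fun x => create (o x) (al x)) := by
  have h : Primrec (fun x => (o x).casesOn (motive := fun _ => Alloc) (al x) (fun v =>
      if (((al x).lookup v).isSome = true) then al x else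
        (v, (top v.length, vol (al x) (top v.length))) :: al x)) := by
    refine Primrec.option_casesOn ho hal ?_
    refine Primrec.ite (Primrec.eq.comp (option_isSome.comp (prim_lookup snd (hal.comp fst)))
      (Primrec.const true)) (hal.comp fst) ?_
    have h1 : Primrec (fun x : α × List Bool => top x.2.length) :=
      prim_top.comp (list_length.comp snd)
    exact list_cons.comp (Primrec.pair snd (Primrec.pair h1 (prim_vol.comp (hal.comp fst) h1)))
      (hal.comp fst)
  refine h.of_eq fun x => ?_
  unfold create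
  cases o x <;> rfl

theorem prim_move {α : Type*} [Primcodable α] {A : α → Cells} {v : α → List Bool} {al : α → Alloc}
    (hA : Primrec A) (hv : Primrec v) (hal : Primrec al) :
    Primrec (fun x => move (A x) (v x) (al x)) := by
  have h : Primrec (fun x => ((al x).lookup (v x)).casesOn (motive := fun _ => Alloc) (al x)
      (fun p => if spent (A x) p.1 p.2 (v x).length then
        (v x, (p.1 - 1, vol (al x) (p.1 - 1))) :: al x else al x)) := by
    refine Primrec.option_casesOn (prim_lookup hv hal) hal ?_
    have h1 : Primrec (fun x : α × (ℕ × ℕ) => x.2.1 - 1) :=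
      Primrec.nat_sub.comp (fst.comp snd) (Primrec.const 1)
    refine Primrec.ite (prim_spent (hA.comp fst) snd (list_length.comp (hv.comp fst))) ?_
      (hal.comp fst)
    exact list_cons.comp (Primrec.pair (hv.comp fst) (Primrec.pair h1
      (prim_vol.comp (hal.comp fst) h1))) (hal.comp fst)
  refine h.of_eq fun x => ?_
  unfold move
  cases (al x).lookup (v x) <;> rfl

theorem prim_target {α : Type*} [Primcodable α] {al : α → Alloc} {u : α → List Bool} {i : α → ℕ}
    (hal : Primrec al) (hu : Primrec u) (hi : Primrec i) :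
    Primrec (fun x => target (al x) (u x) (i x)) := by
  have hb : Primrec (fun x => (i x % 2 == 1)) := prim_mod2 hi
  have hi2 : Primrec (fun x => i x / 2) := Primrec.nat_div.comp hi (Primrec.const 2)
  have h : Primrec (fun x => ((al x).lookup (u x)).casesOn
      (motive := fun _ => Option ((ℕ × ℕ) × ℕ)) none
      (fun p => ((al x).lookup (u x ++ [i x % 2 == 1])).casesOn
        (motive := fun _ => Option ((ℕ × ℕ) × ℕ)) none
        (fun q => if i x / 2 = q.1 ∨ (i x / 2 < q.1 ∧ q.2 / 2 ^ (i x / 2) % 2 = 1) then
          some (p, sym (u x).length (i x % 2 == 1) q.1 (i x / 2)) else none))) := by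
    refine Primrec.option_casesOn (prim_lookup hu hal) (Primrec.const none) ?_
    refine Primrec.option_casesOn ((prim_lookup (list_concat.comp hu hb) hal).comp fst)
      (Primrec.const none) ?_
    have hi2' : Primrec (fun x : (α × (ℕ × ℕ)) × (ℕ × ℕ) => i x.1.1 / 2) := hi2.comp (fst.comp fst)
    refine Primrec.ite (PrimrecPred.or (Primrec.eq.comp hi2' (fst.comp snd))
      (PrimrecPred.and (Primrec.nat_lt.comp hi2' (fst.comp snd))
        (Primrec.eq.comp (Primrec.nat_mod.comp (Primrec.nat_div.comp (snd.comp snd)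
          (nat_pow.comp (Primrec.const 2) hi2')) (Primrec.const 2)) (Primrec.const 1)))) ?_
      (Primrec.const none)
    exact option_some.comp (Primrec.pair (snd.comp fst) (prim_sym.comp (Primrec.pair
      (list_length.comp (hu.comp (fst.comp fst))) (Primrec.pair (hb.comp (fst.comp fst))
        (Primrec.pair (fst.comp snd) hi2')))))
  refine h.of_eq fun x => ?_
  unfold target
  cases (al x).lookup (u x) with
  | none => rfl
  | some p => cases (al x).lookup (u x ++ [i x % 2 == 1]) <;> rfl

theorem prim_held {α : Type*} [Primcodable α] {A : α → Cells} {wr : α → Writes}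
    {p : α → ℕ × ℕ} {d x : α → ℕ} (hA : Primrec A) (hwr : Primrec wr) (hp : Primrec p)
    (hd : Primrec d) (hx : Primrec x) :
    PrimrecPred (fun y => held (A y) (wr y) (p y) (d y) (x y)) := by
  unfold held
  refine prim_exists_lt (prim_bR.comp hd) ?_
  refine PrimrecPred.and (PrimrecPred.not (prim_spoiledB (hA.comp fst) (hp.comp fst)
    (hd.comp fst) snd)) ?_
  refine Primrec.eq.comp (prim_lookup (Primrec.pair ((fst.comp hp).comp fst)
    (Primrec.nat_add.comp ((snd.comp hp).comp fst) (Primrec.nat_mul.comp snd
      ((prim_bR.comp hd).comp fst)))) (hwr.comp fst)) ?_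
  exact option_some.comp (Primrec.pair ((prim_ex.comp hd).comp fst) (hx.comp fst))

theorem prim_freeIdx {α : Type*} [Primcodable α] {A : α → Cells} {wr : α → Writes}
    {p : α → ℕ × ℕ} {d : α → ℕ} (hA : Primrec A) (hwr : Primrec wr) (hp : Primrec p)
    (hd : Primrec d) : Primrec (fun y => freeIdx (A y) (wr y) (p y) (d y)) := by
  unfold freeIdx
  refine list_findIdx (list_range.comp (prim_bR.comp hd)) ?_
  refine PrimrecPred.decide (p := fun z : α × ℕ =>
    ¬ spoiled (A z.1) (p z.1).1 ((p z.1).2 + z.2 * bR (d z.1)) (bR (d z.1)) ∧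
      (wr z.1).lookup ((p z.1).1, (p z.1).2 + z.2 * bR (d z.1)) = none) ?_
  refine PrimrecPred.and (PrimrecPred.not (prim_spoiledB (hA.comp fst) (hp.comp fst)
    (hd.comp fst) snd)) ?_
  exact Primrec.eq.comp (prim_lookup (Primrec.pair ((fst.comp hp).comp fst)
    (Primrec.nat_add.comp ((snd.comp hp).comp fst) (Primrec.nat_mul.comp snd
      ((prim_bR.comp hd).comp fst)))) (hwr.comp fst)) (Primrec.const none)

theorem prim_write {α : Type*} [Primcodable α] {A : α → Cells} {al : α → Alloc}
    {u : α → List Bool} {i : α → ℕ} {wr : α → Writes}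
    (hA : Primrec A) (hal : Primrec al) (hu : Primrec u) (hi : Primrec i) (hwr : Primrec wr) :
    Primrec (fun x => write (A x) (al x) (u x) (i x) (wr x)) := by
  have h : Primrec (fun x => (target (al x) (u x) (i x)).casesOn
      (motive := fun _ => Writes) (wr x)
      (fun y => if held (A x) (wr x) y.1 (u x).length y.2 then wr x
        else if freeIdx (A x) (wr x) y.1 (u x).length < bR (u x).length then
          ((y.1.1, y.1.2 + freeIdx (A x) (wr x) y.1 (u x).length * bR (u x).length),
            (ex (u x).length, y.2)) :: wr x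
        else wr x)) := by
    refine Primrec.option_casesOn (prim_target hal hu hi) hwr ?_
    have hl : Primrec (fun x : α × ((ℕ × ℕ) × ℕ) => (u x.1).length) :=
      (list_length.comp hu).comp fst
    have hf := prim_freeIdx (hA.comp fst) (hwr.comp fst)
      (fst.comp (snd : Primrec (Prod.snd : α × ((ℕ × ℕ) × ℕ) → _))) hl
    refine Primrec.ite (prim_held (hA.comp fst) (hwr.comp fst) (fst.comp snd) hl (snd.comp snd))
      (hwr.comp fst) ?_
    refine Primrec.ite (Primrec.nat_lt.comp hf (prim_bR.comp hl)) ?_ (hwr.comp fst)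
    exact list_cons.comp (Primrec.pair (Primrec.pair (fst.comp (fst.comp snd))
      (Primrec.nat_add.comp (snd.comp (fst.comp snd)) (Primrec.nat_mul.comp hf (prim_bR.comp hl))))
      (Primrec.pair (prim_ex.comp hl) (snd.comp snd))) (hwr.comp fst)
  refine h.of_eq fun x => ?_
  unfold write
  cases target (al x) (u x) (i x) <;> rfl

theorem prim_kill {α : Type*} [Primcodable α] {A : α → Cells} {al : α → Alloc}
    {u : α → List Bool} {k : α → ℕ} {kl : α → Kills}
    (hA : Primrec A) (hal : Primrec al) (hu : Primrec u) (hk : Primrec k) (hkl : Primrec kl) :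
    Primrec (fun x => kill (A x) (al x) (u x) (k x) (kl x)) := by
  have h : Primrec (fun x => ((al x).lookup (u x)).casesOn (motive := fun _ => Kills) (kl x)
      (fun p => if k x < bR (u x).length ∧
          spoiled (A x) p.1 (p.2 + k x * bR (u x).length) (bR (u x).length) then
        ((p.1, p.2 + k x * bR (u x).length), ex (u x).length) :: kl x else kl x)) := by
    refine Primrec.option_casesOn (prim_lookup hu hal) hkl ?_
    have hl : Primrec (fun x : α × (ℕ × ℕ) => (u x.1).length) :=
      (list_length.comp hu).comp fst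
    refine Primrec.ite (PrimrecPred.and (Primrec.nat_lt.comp (hk.comp fst) (prim_bR.comp hl))
      (prim_spoiledB (hA.comp fst) snd hl (hk.comp fst))) ?_ (hkl.comp fst)
    exact list_cons.comp (Primrec.pair (Primrec.pair (fst.comp snd)
      (Primrec.nat_add.comp (snd.comp snd) (Primrec.nat_mul.comp (hk.comp fst)
        (prim_bR.comp hl)))) (prim_ex.comp hl)) (hkl.comp fst)
  refine h.of_eq fun x => ?_
  unfold kill
  cases (al x).lookup (u x) <;> rfl

theorem prim_step : Primrec (fun x : (Option (ℕ × ℕ) × Option (List Bool)) ×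
    (List Bool × ℕ) × State => step x.1.1 x.1.2 x.2.1.1 x.2.1.2 x.2.2) := by
  unfold step
  have hA : Primrec (fun x : (Option (ℕ × ℕ) × Option (List Bool)) ×
      (List Bool × ℕ) × State => x.1.1.toList ++ x.2.2.1) :=
    list_append.comp (optionToList.comp (fst.comp fst)) (fst.comp (snd.comp snd))
  have hu : Primrec (fun x : (Option (ℕ × ℕ) × Option (List Bool)) ×
      (List Bool × ℕ) × State => x.2.1.1) := fst.comp (fst.comp snd)
  have hi : Primrec (fun x : (Option (ℕ × ℕ) × Option (List Bool)) ×
      (List Bool × ℕ) × State => x.2.1.2) := snd.comp (fst.comp snd)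
  have hal := prim_move hA hu (prim_create (snd.comp
    (fst : Primrec (Prod.fst : (Option (ℕ × ℕ) × Option (List Bool)) ×
      (List Bool × ℕ) × State → _))) (fst.comp (snd.comp (snd.comp snd))))
  exact Primrec.pair hA (Primrec.pair hal (Primrec.pair
    (prim_write hA hal hu hi (fst.comp (snd.comp (snd.comp (snd.comp snd)))))
    (prim_kill hA hal hu hi (snd.comp (snd.comp (snd.comp (snd.comp snd)))))))

theorem prim_task : Primrec task := by
  unfold task
  exact option_getD.comp (Primrec.decode.comp (fst.comp Primrec.unpair)) (Primrec.const _)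

theorem prim_run {a : ℕ → Option (ℕ × ℕ)} {t : ℕ → Option (List Bool)} (ha : Primrec a)
    (ht : Primrec t) : Primrec (run a t) := by
  have h : Primrec (Nat.rec (([], [([], (64, 0))], [], []) : State)
      (fun n s => step (a n) (t n) (task n).1 (task n).2 s)) := by
    refine Primrec.nat_rec₁ _ ?_
    exact prim_step.comp (Primrec.pair (Primrec.pair (ha.comp fst) (ht.comp fst))
      (Primrec.pair (prim_task.comp fst) snd))
  refine h.of_eq fun n => ?_
  induction n with
  | zero => rfl
  | succ n ih => simp only [run, ← ih]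

theorem prim_marked : PrimrecPred (fun x : (Writes × Kills) × ℕ × ℕ =>
    marked x.1.1 x.1.2 x.2.1 x.2.2) := by
  unfold marked
  have hL : Primrec (fun x : ((Writes × Kills) × ℕ × ℕ) × ((ℕ × ℕ) × (ℕ × ℕ)) => x.1.2.1) :=
    fst.comp (snd.comp fst)
  have hj : Primrec (fun x : ((Writes × Kills) × ℕ × ℕ) × ((ℕ × ℕ) × (ℕ × ℕ)) => x.1.2.2) :=
    snd.comp (snd.comp fst)
  have hL' : Primrec (fun x : ((Writes × Kills) × ℕ × ℕ) × ((ℕ × ℕ) × ℕ) => x.1.2.1) :=
    fst.comp (snd.comp fst)
  have hj' : Primrec (fun x : ((Writes × Kills) × ℕ × ℕ) × ((ℕ × ℕ) × ℕ) => x.1.2.2) :=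
    snd.comp (snd.comp fst)
  refine PrimrecPred.or (prim_exists_mem (fst.comp fst) ?_) (prim_exists_mem (snd.comp fst) ?_)
  · refine PrimrecPred.and (Primrec.eq.comp (fst.comp (fst.comp snd)) hL) (PrimrecPred.and
      (Primrec.nat_le.comp (snd.comp (fst.comp snd)) hj) (PrimrecPred.and
        (Primrec.nat_lt.comp hj (Primrec.nat_add.comp (snd.comp (fst.comp snd))
          (nat_pow.comp (Primrec.const 2) (fst.comp (snd.comp snd))))) ?_))
    exact Primrec.eq.comp (prim_ip.comp (Primrec.pair (fst.comp (snd.comp snd)) (Primrec.pair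
      (snd.comp (snd.comp snd)) (Primrec.nat_sub.comp hj (snd.comp (fst.comp snd))))))
      (Primrec.const true)
  · exact PrimrecPred.and (Primrec.eq.comp (fst.comp (fst.comp snd)) hL') (PrimrecPred.and
      (Primrec.nat_le.comp (snd.comp (fst.comp snd)) hj')
        (Primrec.nat_lt.comp hj' (Primrec.nat_add.comp (snd.comp (fst.comp snd))
          (nat_pow.comp (Primrec.const 2) (snd.comp snd)))))

end Pool.Agent.H544R2
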