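import Pool.Agent.H544R2.PTime
import Pool.Agent.H544R2.Loop

/-!
# The reader is polynomial-time computable
-/

namespace Pool.Agent.H544R2

open Pool.Agent.NPC

/-- the invariant of the states of the reader -/
def RInv (n k : ℕ) (s : RS ⊕ List Bool) : Prop :=
  match s with
  | Sum.inl s => s.1.length ≤ k ∧ s.2.1.length ≤ 64 * (k + 1) ∧ s.2.2.1 < 2 ^ s.2.1.length ∧
      s.2.2.2 ≤ n
  | Sum.inr y => y.length ≤ 64 * (k + 1) + 3

theorem ptr_lt (d : ℕ) (f : ℕ → Bool) (b : Bool) (l : ℕ) : ptr d f b l < 2 ^ l := by
  unfold ptr
  rw [sum_eq_valB]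
  have := NPC.valB_lt ((List.range l).map fun i => pres d f (sym d b l i))
  simpa using this

theorem rstep'_inv {ans : List Bool} {k : ℕ} {s : RS ⊕ List Bool} {b : Bool}
    (h : RInv ans.length k s) : RInv ans.length (k + 1) (rstep' ans s b) := by
  rcases s with ⟨D, Ls, a, off⟩ | y
  · obtain ⟨h1, h2, h3, h4⟩ := h
    simp only at h1 h2 h3 h4
    unfold rstep'
    simp only
    unfold rstep
    simp only
    split_ifs with hc
    · unfold RInv rquery
      simp only [List.length_cons, fb_length]
      omega
    · split
      · simp [RInv]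
      · refine ⟨?_, ?_, ?_, ?_⟩
        · simp [rnext]; omega
        · unfold rnext
          simp only [List.length_replicate]
          refine (min_le_right _ _).trans ?_
          unfold top
          omega
        · unfold rnext
          simp only [List.length_replicate]
          exact ptr_lt _ _ _ _
        · simp only [rnext]
          omega
  · unfold RInv rstep' at *
    simp only at h ⊢
    omega

theorem foldl_inv (ans : List Bool) : ∀ (p : List Bool) (k : ℕ) (s : RS ⊕ List Bool),
    RInv ans.length k s → RInv ans.length (k + p.length) (p.foldl (rstep' ans) s)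
  | [], k, s, h => h
  | b :: p, k, s, h => by
    have := foldl_inv ans p (k + 1) _ (rstep'_inv (b := b) h)
    rw [List.foldl_cons]
    have e : k + (b :: p).length = k + 1 + p.length := by simp; omega
    rw [e]
    exact this

theorem sz_unitList (l : List Unit) : sz l ≤ 2 * l.length + 1 := by
  have := sz_le_length_mul l 1 (fun _ _ => le_rfl)
  omega

theorem RInv.sz_le {n k : ℕ} {s : RS ⊕ List Bool} (h : RInv n k s) :
    sz s ≤ 400 * (k + 1) + 4 * n + 30 := by
  rcases s with ⟨D, Ls, a, off⟩ | y
  · obtain ⟨h1, h2, h3, h4⟩ := h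
    simp only at h1 h2 h3 h4
    rw [sz_inl, sz_pair, sz_pair, sz_pair]
    have e1 := sz_unitList D
    have e2 := sz_unitList Ls
    have e3 := sz_nat_le a
    have e4 := sz_nat_le off
    have e5 := Nat.size_le.2 h3
    have e6 := NPC.Poly.size_le_self off
    omega
  · unfold RInv at h
    simp only at h
    rw [sz_inr]
    have := NPC.sz_listBool_le y
    omega

end Pool.Agent.H544R2

namespace Pool.Agent.NPC

open Pool.Agent.H544R2 (rstep rstep' rout reader RS RInv foldl_inv)

namespace Poly

variable {α : Type} [TEnc α]

theorem h_reader {p ans : α → List Bool} (hp : Poly p) (hans : Poly ans) :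
    Poly (fun a => reader (p a) (ans a)) := by
  have hF : Poly (fun q : α × (RS ⊕ List Bool) × Bool => rstep' (ans q.1) q.2.1 q.2.2) := by
    have h1 := sumCases (α := α × (RS ⊕ List Bool) × Bool) (o := fun q => q.2.1)
      (g := fun q s => rstep (ans q.1) s q.2.2) (h := fun q y => (Sum.inr y : RS ⊕ List Bool))
      (fst (snd id)) (h_rstep (hans.comp (fst (fst id))) (snd id) (snd (snd (fst id))))
      (inr (snd id))
    refine h1.congr fun q => ?_
    unfold rstep'
    cases q.2.1 <;> rfl
  obtain ⟨r, hr⟩ := hp.sz_le
  obtain ⟨r', hr'⟩ := hans.sz_le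
  have h2 : Poly (fun a => (p a).foldl (rstep' (ans a))
      (Sum.inl ([], List.replicate 64 (), 0, 0))) := by
    refine foldl (F := fun a s b => rstep' (ans a) s b) hp (const _) hF
      (Polynomial.C 400 * (r + Polynomial.C 1) + Polynomial.C 4 * r' + Polynomial.C 30)
      fun a k hk => ?_
    have h3 : RInv (ans a).length (0 + ((p a).take k).length) (((p a).take k).foldl
        (rstep' (ans a)) (Sum.inl ([], List.replicate 64 (), 0, 0))) := by
      refine foldl_inv (ans a) _ 0 _ ⟨?_, ?_, ?_, ?_⟩ <;> simp
    refine h3.sz_le.trans ?_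
    have e1 := length_lt_sz (p a)
    have e2 := length_lt_sz (ans a)
    have e3 := hr a
    have e4 := hr' a
    simp only [List.length_take, Polynomial.eval_add, Polynomial.eval_mul, Polynomial.eval_C]
    omega
  have h4 := sumCases (α := α) (o := fun a => (p a).foldl (rstep' (ans a))
      (Sum.inl ([], List.replicate 64 (), 0, 0))) (g := fun _ _ => [false, true])
      (h := fun _ y => y) h2 (const _) (snd id)
  refine h4.congr fun a => ?_
  unfold reader rout
  cases (p a).foldl (rstep' (ans a)) (Sum.inl ([], List.replicate 64 (), 0, 0)) <;> rfl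

end Poly

/-- The body of the program that turns the code of a list of bits into the list. -/
def rawBody : Cmd ℕ :=
  Cmd.cases 0 Cmd.skip (Cmd.pop 0) (Cmd.seq (Cmd.pop 0) (Cmd.cases 0 Cmd.skip
    (Cmd.seq (Cmd.pop 0) (Cmd.push 1 false))
    (Cmd.seq (Cmd.pop 0) (Cmd.seq (Cmd.pop 0) (Cmd.seq (Cmd.pop 0) (Cmd.push 1 true))))))

theorem bits_nil : bits ([] : List Bool) = [false] := rfl

theorem bits_cons_false (l : List Bool) : bits (false :: l) = true :: false :: bits l := rfl

theorem bits_cons_true (l : List Bool) :
    bits (true :: l) = true :: true :: false :: false :: bits l := rfl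

theorem raw_runs : ∀ (l m : List Bool), Runs (Cmd.loop 0 rawBody) (st (bits l) m [])
    (st [] (l.reverse ++ m) []) (10 * l.length + 4)
  | [], m => by
    have h1 : Runs rawBody (st (bits ([] : List Bool)) m []) (st [] m []) 2 := by
      refine (Runs.casesFalse (l := []) (by simp [bits_nil]) (Runs.pop _ 0)).conv rfl ?_ le_rfl
      simp [bits_nil]
    exact (Runs.loopCons (by simp [bits_nil]) h1 (Runs.loopNil (by simp))).mono (by simp)
  | false :: l, m => by
    have h1 : Runs rawBody (st (bits (false :: l)) m []) (st (bits l) (false :: m) []) 5 := by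
      refine (Runs.casesTrue (l := false :: bits l) (by simp [bits_cons_false])
        ((Runs.pop _ 0).seq (Runs.casesFalse (l := bits l) (by simp [bits_cons_false])
          ((Runs.pop _ 0).seq (Runs.push _ 1 false))))).conv rfl ?_ le_rfl
      simp [bits_cons_false]
    refine (Runs.loopCons (by simp [bits_cons_false]) h1 (raw_runs l (false :: m))).conv rfl ?_ ?_
    · simp
    · simp; omega
  | true :: l, m => by
    have h1 : Runs rawBody (st (bits (true :: l)) m []) (st (bits l) (true :: m) []) 7 := by
      refine (Runs.casesTrue (l := true :: false :: false :: bits l) (by simp [bits_cons_true])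
        ((Runs.pop _ 0).seq (Runs.casesTrue (l := false :: false :: bits l)
          (by simp [bits_cons_true])
          ((Runs.pop _ 0).seq ((Runs.pop _ 0).seq ((Runs.pop _ 0).seq
            (Runs.push _ 1 true))))))).conv rfl ?_ le_rfl
      simp [bits_cons_true]
    refine (Runs.loopCons (by simp [bits_cons_true]) h1 (raw_runs l (true :: m))).conv rfl ?_ ?_
    · simp
    · simp; omega

/-- From the code of a list of bits to the raw bit string. -/
theorem PC.toRaw : PC (bits : List Bool → List Bool) (fun x : List Bool => x) (fun x => x) := by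
  refine ⟨Cmd.seq (Cmd.loop 0 rawBody) (mv 1 0),
    Polynomial.C 20 * Polynomial.X + Polynomial.C 20, fun x => ?_⟩
  rw [inp_eq_st, inp_eq_st]
  have h1 := raw_runs x []
  have h2 := mv_runs (i := 1) (j := 0) (by decide) (x.reverse ++ []) (st [] (x.reverse ++ []) [])
    (st x [] []) (by simp) (by simp)
  refine (h1.seq h2).mono ?_
  have h3 := length_lt_sz x
  rw [bits_length]
  simp
  omega

end Pool.Agent.NPC
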