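import Pool.Agent.H544R2.Alloc

/-!
# The strategy of the universal machine
-/

namespace Pool.Agent.H544R2

/-- written blocks: `(level, start)` together with `(exponent, symbol)` -/
abbrev Writes := List ((ℕ × ℕ) × (ℕ × ℕ))
/-- killed blocks: `(level, start)` and exponent -/
abbrev Kills := List ((ℕ × ℕ) × ℕ)
/-- states of the strategy -/
abbrev State := Cells × Alloc × Writes × Kills

/-- the placement of a new node -/
def create (o : Option (List Bool)) (al : Alloc) : Alloc :=
  match o with
  | none => al
  | some v => if (al.lookup v).isSome then al else (v, (top v.length, vol al (top v.length))) :: al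

/-- a node whose region is over-spoiled moves down by one level -/
def move (A : Cells) (v : List Bool) (al : Alloc) : Alloc :=
  match al.lookup v with
  | none => al
  | some p => if spent A p.1 p.2 v.length then (v, (p.1 - 1, vol al (p.1 - 1))) :: al else al

/-- the symbol number `i` that has to be held by the region of the node `u`, if any -/
def target (al : Alloc) (u : List Bool) (i : ℕ) : Option ((ℕ × ℕ) × ℕ) :=
  match al.lookup u, al.lookup (u ++ [i % 2 == 1]) with
  | some p, some q =>
    if i / 2 = q.1 ∨ (i / 2 < q.1 ∧ q.2 / 2 ^ (i / 2) % 2 = 1) then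
      some (p, sym u.length (i % 2 == 1) q.1 (i / 2))
    else none
  | _, _ => none

/-- some unspoiled block of the region holds the symbol -/
def held (A : Cells) (wr : Writes) (p : ℕ × ℕ) (d a : ℕ) : Prop :=
  ∃ k < bR d, ¬ spoiled A p.1 (p.2 + k * bR d) (bR d) ∧
    wr.lookup (p.1, p.2 + k * bR d) = some (ex d, a)

instance (A : Cells) (wr : Writes) (p : ℕ × ℕ) (d a : ℕ) : Decidable (held A wr p d a) := by
  unfold held; infer_instance

/-- the first unspoiled and unwritten block of the region -/
def freeIdx (A : Cells) (wr : Writes) (p : ℕ × ℕ) (d : ℕ) : ℕ :=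
  (List.range (bR d)).findIdx (fun k => decide (¬ spoiled A p.1 (p.2 + k * bR d) (bR d) ∧
    wr.lookup (p.1, p.2 + k * bR d) = none))

/-- writing a missing symbol -/
def write (A : Cells) (al : Alloc) (u : List Bool) (i : ℕ) (wr : Writes) : Writes :=
  match target al u i with
  | none => wr
  | some x =>
    if held A wr x.1 u.length x.2 then wr
    else if freeIdx A wr x.1 u.length < bR u.length then
      ((x.1.1, x.1.2 + freeIdx A wr x.1 u.length * bR u.length), (ex u.length, x.2)) :: wr
    else wr

/-- marking a spoiled block entirely -/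
def kill (A : Cells) (al : Alloc) (u : List Bool) (k : ℕ) (kl : Kills) : Kills :=
  match al.lookup u with
  | none => kl
  | some p =>
    if k < bR u.length ∧ spoiled A p.1 (p.2 + k * bR u.length) (bR u.length) then
      ((p.1, p.2 + k * bR u.length), ex u.length) :: kl
    else kl

/-- one step of the strategy -/
def step (a : Option (ℕ × ℕ)) (t : Option (List Bool)) (u : List Bool) (i : ℕ) (s : State) :
    State :=
  let A := a.toList ++ s.1
  let al := move A u (create t s.2.1)
  (A, al, write A al u i s.2.2.1, kill A al u i s.2.2.2)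

/-- the cell `(L, j)` is marked by the strategy -/
def marked (wr : Writes) (kl : Kills) (L j : ℕ) : Prop :=
  (∃ w ∈ wr, w.1.1 = L ∧ w.1.2 ≤ j ∧ j < w.1.2 + 2 ^ w.2.1 ∧ ip w.2.1 w.2.2 (j - w.1.2) = true) ∨
  (∃ w ∈ kl, w.1.1 = L ∧ w.1.2 ≤ j ∧ j < w.1.2 + 2 ^ w.2)

instance (wr : Writes) (kl : Kills) (L j : ℕ) : Decidable (marked wr kl L j) := by
  unfold marked; infer_instance

/-- the task of stage `n` -/
def task (n : ℕ) : List Bool × ℕ :=
  ((Encodable.decode n.unpair.1 : Option (List Bool × ℕ))).getD ([], 0)

theorem task_pair (u : List Bool) (i m : ℕ) : task (Nat.pair (Encodable.encode (u, i)) m) = (u, i) := by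
  simp [task]

/-- the state after `n` stages -/
def run (a : ℕ → Option (ℕ × ℕ)) (t : ℕ → Option (List Bool)) : ℕ → State
  | 0 => ([], [([], (64, 0))], [], [])
  | n + 1 => step (a n) (t n) (task n).1 (task n).2 (run a t n)

/-! ### Invariants -/

theorem create_inv {A : Cells} {al : Alloc} (hi : AInv A al) (o : Option (List Bool)) :
    AInv A (create o al) := by
  unfold create
  cases o with
  | none => exact hi
  | some v =>
    by_cases h : (al.lookup v).isSome
    · simpa [h] using hi
    · have hn : al.lookup v = none := Option.not_isSome_iff_eq_none.1 h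
      simp only [h, Bool.false_eq_true, if_false]
      exact hi.cons (fun L' st' hm => absurd hm (lookup_none hn _)) (Or.inl rfl)

theorem spent_level {A : Cells} (hA : Few A) {L st d : ℕ} (h : spent A L st d) : 64 < L := by
  by_contra hL
  have h1 := spent_count h
  have h2 : 0 < Nat.count (fun j => (L, st + j) ∈ A) (rD d) := by
    by_contra h0
    have : Nat.count (fun j => (L, st + j) ∈ A) (rD d) = 0 := by omega
    rw [this] at h1
    omega
  have h3 := hA L (st + rD d)
  rw [Nat.count_add] at h3
  have h4 : 2 ^ L ≤ 2 ^ 64 := Nat.pow_le_pow_right (by norm_num) (by omega)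
  have h5 : 1 * 2 ^ 64 ≤ (Nat.count (fun j => (L, j) ∈ A) st +
    Nat.count (fun j => (L, st + j) ∈ A) (rD d)) * 2 ^ 64 := Nat.mul_le_mul_right _ (by omega)
  omega

theorem move_inv {A : Cells} (hA : Few A) {al : Alloc} (hi : AInv A al) (v : List Bool) :
    AInv A (move A v al) := by
  unfold move
  cases h : al.lookup v with
  | none => exact hi
  | some p =>
    obtain ⟨L, st⟩ := p
    by_cases ho : spent A L st v.length
    · simp only [ho, if_true]
      have hL := spent_level hA ho
      refine hi.cons (fun L' st' hm => ?_) (Or.inr ⟨st, ?_, ?_⟩)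
      · rcases hi.lookup_le h hm with h1 | h1 <;> omega
      · rw [Nat.sub_add_cancel (by omega)]
        exact lookup_mem h
      · rw [Nat.sub_add_cancel (by omega)]
        exact ho
    · simpa [ho] using hi

theorem create_mem {al : Alloc} {o : Option (List Bool)} {x : List Bool × (ℕ × ℕ)} (h : x ∈ al) :
    x ∈ create o al := by
  unfold create
  cases o with
  | none => exact h
  | some v =>
    simp only
    split_ifs
    · exact h
    · exact List.mem_cons_of_mem _ h

theorem move_mem {A : Cells} {al : Alloc} {v : List Bool} {x : List Bool × (ℕ × ℕ)} (h : x ∈ al) :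
    x ∈ move A v al := by
  unfold move
  cases al.lookup v with
  | none => exact h
  | some p =>
    simp only
    split_ifs
    · exact List.mem_cons_of_mem _ h
    · exact h

/-- What is known about a written symbol. -/
def Truth (al : Alloc) (u : List Bool) (a : ℕ) : Prop :=
  ∃ b L i st, (u ++ [b], (L, st)) ∈ al ∧ (i = L ∨ (i < L ∧ st / 2 ^ i % 2 = 1)) ∧
    a = sym u.length b L i

theorem Truth.mono {al al' : Alloc} (h : ∀ x ∈ al, x ∈ al') {u : List Bool} {a : ℕ}
    (ht : Truth al u a) : Truth al' u a := by
  obtain ⟨b, L, i, st, h1, h2, h3⟩ := ht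
  exact ⟨b, L, i, st, h _ h1, h2, h3⟩

/-- The invariants of the written and killed blocks. -/
structure WInv (A : Cells) (al : Alloc) (wr : Writes) (kl : Kills) : Prop where
  keys : (wr.map Prod.fst).Nodup
  src : ∀ L b s a, ((L, b), (s, a)) ∈ wr → ∃ u st k, (u, (L, st)) ∈ al ∧ k < bR u.length ∧
    b = st + k * bR u.length ∧ s = ex u.length ∧ Truth al u a
  once : ∀ u L st, (u, (L, st)) ∈ al → ∀ k k' s a, k < bR u.length → k' < bR u.length →
    wr.lookup (L, st + k * bR u.length) = some (s, a) →
    wr.lookup (L, st + k' * bR u.length) = some (s, a) →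
    ¬ spoiled A L (st + k * bR u.length) (bR u.length) →
    ¬ spoiled A L (st + k' * bR u.length) (bR u.length) → k = k'
  kills : ∀ L b s, ((L, b), s) ∈ kl → ∃ u st k, (u, (L, st)) ∈ al ∧ k < bR u.length ∧
    b = st + k * bR u.length ∧ s = ex u.length ∧ spoiled A L b (bR u.length)

theorem lookup_of_mem {wr : Writes} (hk : (wr.map Prod.fst).Nodup) {key : ℕ × ℕ} {x : ℕ × ℕ}
    (h : (key, x) ∈ wr) : wr.lookup key = some x := by
  induction wr with
  | nil => simp at h
  | cons y wr ih =>
    rw [List.map_cons, List.nodup_cons] at hk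
    rcases List.mem_cons.1 h with h | h
    · subst h; simp
    · have hne : key ≠ y.1 := by
        rintro rfl
        exact hk.1 (List.mem_map.2 ⟨_, h, rfl⟩)
      rw [List.lookup_cons]
      have : (key == y.1) = false := by simpa using hne
      rw [this]
      exact ih hk.2 h

theorem mem_of_lookup {wr : Writes} {key : ℕ × ℕ} {x : ℕ × ℕ}
    (h : wr.lookup key = some x) : (key, x) ∈ wr := by
  obtain ⟨l1, l2, h1, _⟩ := List.lookup_eq_some_iff.1 h
  rw [h1]; simp

theorem block_lt {R n st k : ℕ} (hk : k < n) : st + k * R + R ≤ st + n * R := by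
  have : (k + 1) * R ≤ n * R := Nat.mul_le_mul_right _ hk
  rw [add_mul, one_mul] at this
  omega

/-- Cells inside a block lie in the region. -/
theorem cell_in {d st k r : ℕ} (hk : k < bR d) (hr : r < bR d) :
    st ≤ st + k * bR d + r ∧ st + k * bR d + r < st + rD d := by
  have := block_lt (R := bR d) (st := st) hk
  unfold rD
  constructor <;> omega

/-- Blocks of placements which share a cell coincide. -/
theorem AInv.block {A : Cells} {al : Alloc} (hi : AInv A al) {u w : List Bool} {L st st' : ℕ}
    (h : (u, (L, st)) ∈ al) (h' : (w, (L, st')) ∈ al) {k k' r r' : ℕ}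
    (hk : k < bR u.length) (hk' : k' < bR w.length) (hr : r < bR u.length)
    (hr' : r' < bR w.length) (e : st + k * bR u.length + r = st' + k' * bR w.length + r') :
    u = w ∧ st = st' ∧ k = k' ∧ r = r' := by
  obtain ⟨h1, h2⟩ := cell_in (st := st) hk hr
  obtain ⟨h3, h4⟩ := cell_in (st := st') hk' hr'
  rw [← e] at h3 h4
  obtain ⟨rfl, rfl⟩ := hi.disj h h' h1 h2 h3 h4
  have e2 : k * bR u.length + r = k' * bR u.length + r' := by omega
  have e3 : k = k' := by
    have h5 := congrArg (· / bR u.length) e2
    simp only [Nat.mul_comm k, Nat.mul_comm k', Nat.mul_add_div (bR_pos u.length),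
      Nat.div_eq_of_lt hr, Nat.div_eq_of_lt hr', add_zero] at h5
    exact h5
  subst e3
  exact ⟨rfl, rfl, rfl, by omega⟩

theorem findIdx_range {p : ℕ → Bool} {n : ℕ} (h : (List.range n).findIdx p < n) :
    p ((List.range n).findIdx p) = true := by
  have h1 : (List.range n).findIdx p < (List.range n).length := by rwa [List.length_range]
  have h2 := List.findIdx_getElem (w := h1)
  rwa [List.getElem_range] at h2

theorem freeIdx_spec {A : Cells} {wr : Writes} {p : ℕ × ℕ} {d : ℕ}
    (h : freeIdx A wr p d < bR d) :
    ¬ spoiled A p.1 (p.2 + freeIdx A wr p d * bR d) (bR d) ∧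
      wr.lookup (p.1, p.2 + freeIdx A wr p d * bR d) = none :=
  of_decide_eq_true (findIdx_range h)

theorem freeIdx_lt {A : Cells} {wr : Writes} {p : ℕ × ℕ} {d : ℕ}
    (h : ∃ k < bR d, ¬ spoiled A p.1 (p.2 + k * bR d) (bR d) ∧
      wr.lookup (p.1, p.2 + k * bR d) = none) : freeIdx A wr p d < bR d := by
  obtain ⟨k, hk, h1, h2⟩ := h
  have : freeIdx A wr p d < (List.range (bR d)).length := by
    unfold freeIdx
    apply List.findIdx_lt_length_of_exists
    exact ⟨k, List.mem_range.2 hk, decide_eq_true ⟨h1, h2⟩⟩
  rwa [List.length_range] at this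

theorem target_spec {al : Alloc} {u : List Bool} {i : ℕ} {x : (ℕ × ℕ) × ℕ}
    (h : target al u i = some x) : al.lookup u = some x.1 ∧ Truth al u x.2 := by
  unfold target at h
  cases h1 : al.lookup u with
  | none => simp [h1] at h
  | some p =>
    cases h2 : al.lookup (u ++ [i % 2 == 1]) with
    | none => simp [h1, h2] at h
    | some q =>
      rw [h1, h2] at h
      simp only at h
      split_ifs at h with hc
      simp only [Option.some.injEq] at h
      subst h
      exact ⟨rfl, i % 2 == 1, q.1, i / 2, q.2, lookup_mem h2, hc, rfl⟩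

theorem WInv.mono {A A' : Cells} (h : ∀ c ∈ A, c ∈ A') {al : Alloc} {wr : Writes} {kl : Kills}
    (hw : WInv A al wr kl) : WInv A' al wr kl where
  keys := hw.keys
  src := hw.src
  once u L st hu k k' s a hk hk' h1 h2 h3 h4 :=
    hw.once u L st hu k k' s a hk hk' h1 h2 (fun hs => h3 (spoiled_mono h hs))
      (fun hs => h4 (spoiled_mono h hs))
  kills L b s hm := by
    obtain ⟨u, st, k, h1, h2, h3, h4, h5⟩ := hw.kills L b s hm
    exact ⟨u, st, k, h1, h2, h3, h4, spoiled_mono h h5⟩

/-- No block of a region that is not yet placed is written. -/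
theorem WInv.alloc_mono {A : Cells} {al al' : Alloc} (h : ∀ x ∈ al, x ∈ al')
    (hi : AInv A al') {wr : Writes} {kl : Kills} (hw : WInv A al wr kl) : WInv A al' wr kl where
  keys := hw.keys
  src L b s a hm := by
    obtain ⟨u, st, k, h1, h2, h3, h4, h5⟩ := hw.src L b s a hm
    exact ⟨u, st, k, h _ h1, h2, h3, h4, h5.mono h⟩
  once u L st hu k k' s a hk hk' h1 h2 h3 h4 := by
    obtain ⟨w, st', k'', g1, g2, g3, g4, g5⟩ := hw.src _ _ _ _ (mem_of_lookup h1)
    obtain ⟨rfl, rfl, _, _⟩ := hi.block hu (h _ g1) hk g2 (bR_pos _) (bR_pos _)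
      (by rw [← g3])
    exact hw.once u L st g1 k k' s a hk hk' h1 h2 h3 h4
  kills L b s hm := by
    obtain ⟨u, st, k, h1, h2, h3, h4, h5⟩ := hw.kills L b s hm
    exact ⟨u, st, k, h _ h1, h2, h3, h4, h5⟩

theorem write_inv {A : Cells} {al : Alloc} (hi : AInv A al) {wr : Writes} {kl : Kills}
    (hw : WInv A al wr kl) (u : List Bool) (i : ℕ) : WInv A al (write A al u i wr) kl := by
  unfold write
  cases ht : target al u i with
  | none => exact hw
  | some x =>
    obtain ⟨⟨L, st⟩, a⟩ := x
    obtain ⟨h1, h2⟩ := target_spec ht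
    simp only at h1 h2
    by_cases hh : held A wr (L, st) u.length a
    · simpa [hh] using hw
    · by_cases hf : freeIdx A wr (L, st) u.length < bR u.length
      · simp only [hh, hf, if_true, if_false]
        obtain ⟨f1, f2⟩ := freeIdx_spec hf
        set k0 := freeIdx A wr (L, st) u.length with hk0
        simp only at f1 f2
        have hum := lookup_mem h1
        refine ⟨?_, ?_, ?_, hw.kills⟩
        · rw [List.map_cons, List.nodup_cons]
          refine ⟨?_, hw.keys⟩
          intro hm
          obtain ⟨y, hy1, hy2⟩ := List.mem_map.1 hm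
          have := List.lookup_eq_none_iff.1 f2 y hy1
          rw [hy2] at this
          simp at this
        · intro L' b s a' hm
          rcases List.mem_cons.1 hm with hm | hm
          · simp only [Prod.mk.injEq] at hm
            obtain ⟨⟨rfl, rfl⟩, rfl, rfl⟩ := hm
            exact ⟨u, st, k0, hum, hf, rfl, rfl, h2⟩
          · exact hw.src L' b s a' hm
        · intro w M sw hwm k k' s a' hk hk' e1 e2 s1 s2
          have key : ∀ q, q < bR w.length → List.lookup (M, sw + q * bR w.length)
              (((L, st + k0 * bR u.length), (ex u.length, a)) :: wr) = some (s, a') →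
              ((w = u ∧ M = L ∧ sw = st ∧ q = k0) ∧ s = ex u.length ∧ a' = a) ∨
              wr.lookup (M, sw + q * bR w.length) = some (s, a') := by
            intro q hq e
            rw [List.lookup_cons] at e
            by_cases hc : ((M, sw + q * bR w.length) : ℕ × ℕ) = (L, st + k0 * bR u.length)
            · left
              have hc' := hc
              simp only [Prod.mk.injEq] at hc'
              obtain ⟨rfl, hc2⟩ := hc'
              obtain ⟨rfl, rfl, rfl, _⟩ := hi.block hwm hum hq hf (bR_pos _) (bR_pos _)
                (by rw [hc2])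
              simp at e
              exact ⟨⟨rfl, rfl, rfl, rfl⟩, e.1.symm, e.2.symm⟩
            · right
              have : (((M, sw + q * bR w.length) : ℕ × ℕ) == (L, st + k0 * bR u.length)) = false := by
                simpa using hc
              rw [this] at e
              exact e
          rcases key k hk e1 with ⟨⟨rfl, rfl, rfl, rfl⟩, rfl, rfl⟩ | g1
          · rcases key k' hk' e2 with ⟨⟨_, _, _, rfl⟩, _, _⟩ | g2
            · rfl
            · exact absurd ⟨k', hk', s2, g2⟩ hh
          · rcases key k' hk' e2 with ⟨⟨rfl, rfl, rfl, rfl⟩, rfl, rfl⟩ | g2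
            · exact absurd ⟨k, hk, s1, g1⟩ hh
            · exact hw.once w M sw hwm k k' s a' hk hk' g1 g2 s1 s2
      · simpa [hh, hf] using hw

theorem kill_inv {A : Cells} {al : Alloc} {wr : Writes} {kl : Kills}
    (hw : WInv A al wr kl) (u : List Bool) (k : ℕ) : WInv A al wr (kill A al u k kl) := by
  refine ⟨hw.keys, hw.src, hw.once, ?_⟩
  unfold kill
  cases h : al.lookup u with
  | none => exact hw.kills
  | some p =>
    obtain ⟨L, st⟩ := p
    by_cases hc : k < bR u.length ∧ spoiled A L (st + k * bR u.length) (bR u.length)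
    · simp only [hc, and_self, if_true]
      intro L' b s hm
      rcases List.mem_cons.1 hm with hm | hm
      · simp only [Prod.mk.injEq] at hm
        obtain ⟨⟨rfl, rfl⟩, rfl⟩ := hm
        exact ⟨u, st, k, lookup_mem h, hc.1, rfl, rfl, hc.2⟩
      · exact hw.kills L' b s hm
    · simpa only [hc, if_false] using hw.kills

end Pool.Agent.H544R2
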